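import Pool.Agent.H23.PC.Zeros

/-!
# The zeros on the critical circle
-/

set_option autoImplicit false

open Finset Polynomial ComplexConjugate
open Pool.Agent.H341R2.Sharp (Mon mem_Mon)
open Pool.Agent.H23.FF

namespace Pool.Agent.H23.PC

variable {F : Type} [Field F] [Fintype F]

variable (F) in
open Classical in
/-- the zeros on the critical circle -/
noncomputable def crit (a : ℂ[X]) : Multiset ℂ := a.roots.filter (fun z => √(q F) * ‖z‖ = 1)

theorem Lp_natDegree_le {d : ℕ} (hd : 1 ≤ d) (χ : F[X] → ℂ) : (Lp d χ).natDegree ≤ d - 1 := by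
  unfold Lp
  apply natDegree_sum_le_of_forall_le
  intro k hk
  rw [mem_range] at hk
  exact (natDegree_C_mul_X_pow_le _ _).trans (by omega)

open Classical in
theorem prim_zeros {K : ℕ} {D : F[X]} {χ : F[X] → ℂ} (h : DC D χ) (hp : Pri D χ)
    (hd : D.natDegree = K + 1) (hn : NT D χ) :
    (∀ z ∈ (Lp (K + 1) χ).roots, √(q F) * ‖z‖ = 1 ∨ ‖z‖ = 1) ∧
      K ≤ (crit F (Lp (K + 1) χ)).card + 1 := by
  have hr : 0 < √(q F) := Real.sqrt_pos.2 (q_pos F)
  set a := Lp (K + 1) χ with ha
  have ha0 : a.coeff 0 = 1 := by rw [ha, Lp_coeff h hd hn, cf_zero h]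
  have hle : ∀ z ∈ a.roots, 0 ≤ ‖z‖⁻¹ ∧ ‖z‖⁻¹ ≤ √(q F) := by
    intro z hz
    have h1 := root_bound h hd hn hz
    have h2 : 0 < ‖z‖ := by
      rcases (norm_nonneg z).lt_or_eq with h3 | h3
      · exact h3
      · rw [← h3, mul_zero] at h1
        linarith
    refine ⟨by positivity, ?_⟩
    rw [inv_eq_one_div, div_le_iff₀ h2]
    exact h1
  have hcr : ∀ z : ℂ, ‖z‖⁻¹ = √(q F) → √(q F) * ‖z‖ = 1 := by
    intro z hz
    rw [← hz]
    apply inv_mul_cancel₀
    intro h0
    rw [h0, inv_zero] at hz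
    exact hr.ne hz
  have hgen : cf χ K ≠ 0 → a.roots.card = K ∧ (a.roots.map (fun z => ‖z‖⁻¹)).prod = ‖cf χ K‖ := by
    intro h0
    have h1 : a.natDegree = K := by
      apply le_antisymm
      · have := Lp_natDegree_le (d := K + 1) (by omega) χ
        simpa using this
      · apply le_natDegree_of_ne_zero
        rw [ha, Lp_coeff h hd hn]
        exact h0
    constructor
    · rw [← (IsAlgClosed.splits a).natDegree_eq_card_roots, h1]
    · rw [prod_roots a ha0]
      unfold leadingCoeff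
      rw [h1, ha, Lp_coeff h hd hn]
  by_cases hodd : ∃ c0 : F, c0 ≠ 0 ∧ χ (C c0) ≠ 1
  · obtain ⟨c0, hc0, h1⟩ := hodd
    have h2 := top_odd h hp hd hc0 h1
    have h3 : cf χ K ≠ 0 := by
      intro h0
      rw [h0, norm_zero] at h2
      exact (pow_pos hr K).ne h2
    obtain ⟨h4, h5⟩ := hgen h3
    have h6 : ∀ z ∈ a.roots, √(q F) * ‖z‖ = 1 := by
      intro z hz
      apply hcr
      refine all_eq (√(q F)) hr (a.roots.map (fun z => ‖z‖⁻¹)) ?_ ?_ _ (Multiset.mem_map_of_mem _ hz)
      · intro x hx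
        obtain ⟨w, hw, rfl⟩ := Multiset.mem_map.1 hx
        exact hle w hw
      · rw [Multiset.card_map, h4, h5, h2]
    refine ⟨fun z hz => Or.inl (h6 z hz), ?_⟩
    unfold crit
    rw [Multiset.filter_eq_self.2 h6, h4]
    omega
  · push Not at hodd
    obtain ⟨h1, h2⟩ := top_even h hp hd hn hodd
    have h3 : cf χ K ≠ 0 := by
      intro h0
      rw [h0, norm_zero, mul_zero] at h1
      exact (pow_pos hr K).ne h1
    obtain ⟨h4, h5⟩ := hgen h3
    have hane : a ≠ 0 := by
      rintro h0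
      rw [h0, coeff_zero] at ha0
      exact zero_ne_one ha0
    have h6 : (1 : ℂ) ∈ a.roots := by
      rw [mem_roots hane, IsRoot.def, ha]
      unfold Lp
      rw [eval_finsetSum, ← h2]
      apply sum_congr rfl
      intro k _
      simp
    obtain ⟨t, ht⟩ := Multiset.exists_cons_of_mem h6
    have h7 : t.card + 1 = K := by
      rw [← h4, ht, Multiset.card_cons]
    rw [ht, Multiset.map_cons, Multiset.prod_cons, norm_one, inv_one, one_mul] at h5
    have h8 : ∀ z ∈ t, √(q F) * ‖z‖ = 1 := by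
      intro z hz
      apply hcr
      refine all_eq (√(q F)) hr (t.map (fun z => ‖z‖⁻¹)) ?_ ?_ _ (Multiset.mem_map_of_mem _ hz)
      · intro x hx
        obtain ⟨w, hw, rfl⟩ := Multiset.mem_map.1 hx
        apply hle
        rw [ht]
        exact Multiset.mem_cons_of_mem hw
      · rw [Multiset.card_map, h5]
        apply le_of_eq
        apply mul_left_cancel₀ hr.ne'
        rw [h1, ← h7]
        ring
    constructor
    · intro z hz
      rw [ht] at hz
      rcases Multiset.mem_cons.1 hz with rfl | hz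
      · right
        exact norm_one
      · left
        exact h8 z hz
    · unfold crit
      rw [ht]
      have h9 : t.card ≤ ((1 ::ₘ t).filter (fun z => √(q F) * ‖z‖ = 1)).card := by
        rw [Multiset.filter_cons, Multiset.card_add, Multiset.filter_eq_self.2 h8]
        omega
      omega

/-! ## Induced characters -/

open Classical in
/-- the sum over the polynomials without prime divisors in `S` -/
noncomputable def cS (χ' : F[X] → ℂ) (S : Finset F[X]) (k : ℕ) : ℂ :=
  ∑ f ∈ (Mon F k).filter (fun f => ∀ P ∈ S, ¬ P ∣ f), χ' f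

open Classical in
theorem cS_insert {D : F[X]} {χ' : F[X] → ℂ} (h : DC D χ') {S : Finset F[X]} {P : F[X]}
    (hS : ∀ R ∈ S, R.Monic ∧ Irreducible R) (hP : P.Monic) (hP' : Irreducible P) (hPS : P ∉ S)
    (k : ℕ) : cS χ' (insert P S) k =
      cS χ' S k - if P.natDegree ≤ k then χ' P * cS χ' S (k - P.natDegree) else 0 := by
  have h1 : cS χ' S k = cS χ' (insert P S) k +
      ∑ f ∈ ((Mon F k).filter (fun f => ∀ R ∈ S, ¬ R ∣ f)).filter (fun f => P ∣ f), χ' f := by
    unfold cS
    rw [← sum_filter_add_sum_filter_not ((Mon F k).filter (fun f => ∀ R ∈ S, ¬ R ∣ f))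
      (fun f => P ∣ f), add_comm]
    congr 1
    apply sum_congr _ (fun _ _ => rfl)
    ext f
    rw [mem_filter, mem_filter, mem_filter]
    constructor
    · rintro ⟨⟨h1, h2⟩, h3⟩
      refine ⟨h1, fun R hR => ?_⟩
      rcases mem_insert.1 hR with rfl | hR
      · exact h3
      · exact h2 R hR
    · rintro ⟨h1, h2⟩
      exact ⟨⟨h1, fun R hR => h2 R (mem_insert_of_mem hR)⟩, h2 P (mem_insert_self _ _)⟩
  rw [h1, add_sub_assoc]
  have h2 : ∑ f ∈ ((Mon F k).filter (fun f => ∀ R ∈ S, ¬ R ∣ f)).filter (fun f => P ∣ f), χ' f =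
      if P.natDegree ≤ k then χ' P * cS χ' S (k - P.natDegree) else 0 := by
    split_ifs with hk
    · unfold cS
      rw [mul_sum]
      symm
      refine sum_nbij (fun g => P * g) ?_ ?_ ?_ ?_
      · intro g hg
        rw [mem_filter, mem_Mon] at hg
        rw [mem_filter, mem_filter, mem_Mon]
        refine ⟨⟨⟨hP.mul hg.1.1, ?_⟩, ?_⟩, dvd_mul_right _ _⟩
        · rw [hP.natDegree_mul hg.1.1, hg.1.2]
          omega
        · intro R hR hdvd
          rcases (hS R hR).2.prime.dvd_or_dvd hdvd with h3 | h3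
          · apply hPS
            rw [← monic_irr_dvd_eq (hS R hR).1 (hS R hR).2 hP hP' h3]
            exact hR
          · exact hg.2 R hR h3
      · intro g _ g' _ e
        exact mul_left_cancel₀ hP.ne_zero e
      · intro f hf
        rw [mem_coe, mem_filter, mem_filter, mem_Mon] at hf
        obtain ⟨⟨⟨h3, h4⟩, h5⟩, g, hg⟩ := hf
        have hgm : g.Monic := by
          apply hP.of_mul_monic_left
          rw [← hg]
          exact h3
        refine ⟨g, ?_, hg.symm⟩
        rw [mem_coe, mem_filter, mem_Mon]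
        refine ⟨⟨hgm, ?_⟩, fun R hR hdvd => h5 R hR ?_⟩
        · rw [hg, hP.natDegree_mul hgm] at h4
          omega
        · rw [hg]
          exact hdvd.mul_left _
      · intro g _
        rw [h.mul]
    · apply sum_eq_zero
      intro f hf
      rw [mem_filter, mem_filter, mem_Mon] at hf
      exfalso
      apply hk
      rw [← hf.1.1.2]
      exact natDegree_le_of_dvd hf.2 hf.1.1.1.ne_zero
  rw [h2]
  ring

/-- the local factor -/
noncomputable def lf (χ' : F[X] → ℂ) (P : F[X]) : ℂ[X] := 1 - C (χ' P) * X ^ P.natDegree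

open Classical in
theorem cS_prod {D : F[X]} {χ' : F[X] → ℂ} (h : DC D χ') (L : ℂ[X]) (hL : ∀ k, L.coeff k = cf χ' k)
    (S : Finset F[X]) (hS : ∀ R ∈ S, R.Monic ∧ Irreducible R) (k : ℕ) :
    (L * ∏ P ∈ S, lf χ' P).coeff k = cS χ' S k := by
  induction S using Finset.induction_on generalizing k with
  | empty =>
    rw [prod_empty, mul_one, hL]
    unfold cf cS
    apply sum_congr _ (fun _ _ => rfl)
    ext f
    simp
  | insert P S hPS ih =>
    have hS' : ∀ R ∈ S, R.Monic ∧ Irreducible R := fun R hR => hS R (mem_insert_of_mem hR)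
    obtain ⟨hP, hP'⟩ := hS P (mem_insert_self _ _)
    rw [prod_insert hPS, cS_insert h hS' hP hP' hPS]
    have e : L * (lf χ' P * ∏ R ∈ S, lf χ' R) = (L * ∏ R ∈ S, lf χ' R) -
        C (χ' P) * ((L * ∏ R ∈ S, lf χ' R) * X ^ P.natDegree) := by
      unfold lf
      ring
    rw [e, coeff_sub, coeff_C_mul, coeff_mul_X_pow', ih hS']
    split_ifs
    · rw [ih hS']
    · rw [mul_zero]

open Classical in
theorem induced {M d : ℕ} {Q D : F[X]} {χ χ' : F[X] → ℂ} (h : DC Q χ) (hM : Q.natDegree = M)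
    (hn : NT Q χ) (hI : Ind Q χ D χ') (hd : D.natDegree = d) (hn' : NT D χ') :
    Lp M χ = Lp d χ' * ∏ P ∈ (PP F M).filter (fun P => P ∣ Q), lf χ' P := by
  ext k
  rw [Lp_coeff h hM hn, cS_prod hI.2.1 (Lp d χ') (fun k => Lp_coeff hI.2.1 hd hn' k)]
  · unfold cf cS
    rw [sum_filter]
    apply sum_congr rfl
    intro f hf
    by_cases hc : IsCoprime f Q
    · rw [hI.2.2 f hc, if_pos]
      intro P hP hdvd
      rw [mem_filter, mem_PP] at hP
      exact hP.1.2.1.not_isUnit (hc.isUnit_of_dvd' hdvd hP.2)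
    · rw [h.zero f hc, if_neg]
      intro hh
      obtain ⟨P, hP, hP', h1, h2⟩ := exists_prime_of_not_coprime hc h.monic.ne_zero
      refine hh P ?_ h1
      rw [mem_filter, mem_PP]
      refine ⟨⟨hP, hP', ?_⟩, h2⟩
      rw [← hM]
      exact natDegree_le_of_dvd h2 h.monic.ne_zero
  · intro R hR
    rw [mem_filter, mem_PP] at hR
    exact ⟨hR.1.1, hR.1.2.1⟩

theorem NT_ind {Q D : F[X]} {χ χ' : F[X] → ℂ} (hn : NT Q χ) (hI : Ind Q χ D χ') : NT D χ' := by
  obtain ⟨f, hf, hf1⟩ := hn
  refine ⟨f, hf.of_isCoprime_of_dvd_right hI.1, ?_⟩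
  rw [← hI.2.2 f hf]
  exact hf1

theorem NT_degree {D : F[X]} {χ' : F[X] → ℂ} (h : DC D χ') (hn : NT D χ') : 1 ≤ D.natDegree := by
  by_contra h0
  have h1 : D = 1 := eq_one_of_monic_natDegree_zero h.monic (by omega)
  obtain ⟨f, _, hf1⟩ := hn
  apply hf1
  rw [h.per f 1 (by rw [h1]; exact one_dvd _), h.one]

open Classical in
/-- **The zeros of the L-function of a nontrivial character.** -/
theorem zeros {M : ℕ} {Q : F[X]} {χ : F[X] → ℂ} (h : DC Q χ) (hM : Q.natDegree = M)
    (hn : NT Q χ) : ∃ (D : F[X]) (χ' : F[X] → ℂ), Ind Q χ D χ' ∧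
      (∀ z ∈ (Lp M χ).roots, √(q F) * ‖z‖ = 1 ∨ ‖z‖ = 1) ∧
      (Lp M χ).roots.card + D.natDegree ≤ (crit F (Lp M χ)).card + M + 1 ∧
      D.natDegree ≤ (crit F (Lp M χ)).card + 2 := by
  obtain ⟨D, χ', hI, hp⟩ := exists_prim h
  have hn' := NT_ind hn hI
  have hd1 := NT_degree hI.2.1 hn'
  obtain ⟨K, hK⟩ : ∃ K, D.natDegree = K + 1 := ⟨D.natDegree - 1, by omega⟩
  have hfac := induced h hM hn hI hK hn'
  obtain ⟨h1, h2⟩ := prim_zeros hI.2.1 hp hK hn'
  have hne := Lp_ne h hM hn
  have hM1 : 1 ≤ M := by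
    rw [← hM]
    exact hd1.trans (natDegree_le_of_dvd hI.1 h.monic.ne_zero)
  have h4 : (crit F (Lp (K + 1) χ')).card ≤ (crit F (Lp M χ)).card := by
    unfold crit
    rw [hfac, roots_mul (by rw [← hfac]; exact hne), Multiset.filter_add, Multiset.card_add]
    exact Nat.le_add_right _ _
  refine ⟨D, χ', hI, ?_, ?_, by omega⟩
  · intro z hz
    rw [mem_roots hne, IsRoot.def, hfac, eval_mul, mul_eq_zero] at hz
    rcases hz with hz | hz
    · apply h1
      rw [mem_roots (Lp_ne hI.2.1 hK hn')]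
      exact hz
    · right
      rw [eval_prod, prod_eq_zero_iff] at hz
      obtain ⟨P, hP, hz⟩ := hz
      rw [mem_filter, mem_PP] at hP
      unfold lf at hz
      rw [eval_sub, eval_one, eval_mul, eval_C, eval_pow, eval_X, sub_eq_zero] at hz
      have h3 := congrArg norm hz
      rw [norm_one, norm_mul, norm_pow] at h3
      have h4 : ‖χ' P‖ = 1 := by
        by_cases hc : IsCoprime P D
        · exact hI.2.1.norm hc
        · rw [hI.2.1.zero P hc, norm_zero, zero_mul] at h3
          exact absurd h3 one_ne_zero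
      rw [h4, one_mul] at h3
      have h5 : P.natDegree ≠ 0 := by
        have := hP.1.2.1.natDegree_pos
        omega
      exact (pow_eq_one_iff_of_nonneg (norm_nonneg z) h5).1 h3.symm
  · have h3 : (Lp M χ).roots.card ≤ M - 1 := (card_roots' _).trans (Lp_natDegree_le hM1 χ)
    omega

end Pool.Agent.H23.PC
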