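import Pool.Agent.H23.PC.Mean

/-!
# The number of characters with small conductor, on average
-/

set_option autoImplicit false

open Finset Polynomial ComplexConjugate
open Pool.Agent.H341R2.Sharp (Mon mem_Mon)
open Pool.Agent.Q284.PS (Hay PD)
open Pool.Agent.H23.FF

namespace Pool.Agent.H23.PC

variable {F : Type} [Field F] [Fintype F]

theorem one_le_prodR {ι : Type*} (s : Finset ι) (f : ι → ℝ) (h : ∀ i ∈ s, 1 ≤ f i) : 1 ≤ ∏ i ∈ s, f i :=
  Finset.prod_induction f (fun x => 1 ≤ x) (fun a b ha hb => by nlinarith) le_rfl h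

theorem phi_mul_ge {E R : F[X]} (hE : E.Monic) (hR : R.Monic) :
    (phi E : ℝ) * phi R ≤ phi (E * R) := by
  classical
  have hER := hE.mul hR
  have hd := hE.natDegree_mul hR
  set K := (E * R).natDegree with hK
  have h1 := phi_PP (K := K) (s := E.natDegree) (by omega) (mem_Mon.2 ⟨hE, rfl⟩)
  have h2 := phi_PP (K := K) (s := R.natDegree) (by omega) (mem_Mon.2 ⟨hR, rfl⟩)
  have h3 := phi_PP (K := K) (s := K) le_rfl (mem_Mon.2 ⟨hER, hK.symm⟩)
  have hge : ∀ P ∈ PP F K, (1 : ℝ) ≤ 1 + 1 / (nrm P - 1) := by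
    intro P hP
    have := one_lt_nrm (mem_PP.1 hP).2.1
    have h4 : 0 ≤ 1 / (nrm P - 1) := div_nonneg zero_le_one (by linarith)
    linarith
  have h4 : pr (PP F K) (E * R) ⊆ pr (PP F K) E ∪ pr (PP F K) R := by
    intro P hP
    unfold pr at hP ⊢
    rw [mem_filter] at hP
    rw [mem_union, mem_filter, mem_filter]
    rcases (mem_PP.1 hP.1).2.1.prime.dvd_or_dvd hP.2 with h5 | h5
    · exact Or.inl ⟨hP.1, h5⟩
    · exact Or.inr ⟨hP.1, h5⟩
  have hsub : ∀ S : F[X], pr (PP F K) S ⊆ PP F K := fun S => filter_subset _ _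
  have h5 : nrm (E * R) / phi (E * R) ≤ nrm E / phi E * (nrm R / phi R) := by
    rw [h1, h2, h3, ← prod_union_inter]
    have h6 : ∏ P ∈ pr (PP F K) (E * R), (1 + 1 / (nrm P - 1)) ≤
        ∏ P ∈ pr (PP F K) E ∪ pr (PP F K) R, (1 + 1 / (nrm P - 1)) := by
      rw [← prod_sdiff h4]
      have h7 : 1 ≤ ∏ P ∈ (pr (PP F K) E ∪ pr (PP F K) R) \ pr (PP F K) (E * R), (1 + 1 / (nrm P - 1)) := by
        apply one_le_prodR
        intro P hP
        exact hge P (union_subset (hsub E) (hsub R) (mem_sdiff.1 hP).1)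
      have h8 : 1 ≤ ∏ P ∈ pr (PP F K) (E * R), (1 + 1 / (nrm P - 1)) := by
        apply one_le_prodR
        intro P hP
        exact hge P (hsub (E * R) hP)
      nlinarith
    have h7 : 1 ≤ ∏ P ∈ pr (PP F K) E ∩ pr (PP F K) R, (1 + 1 / (nrm P - 1)) := by
      apply one_le_prodR
      intro P hP
      exact hge P (hsub E (mem_of_mem_inter_left hP))
    have h8 : 0 ≤ ∏ P ∈ pr (PP F K) E ∪ pr (PP F K) R, (1 + 1 / (nrm P - 1)) := by
      apply prod_nonneg
      intro P hP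
      linarith [hge P (union_subset (hsub E) (hsub R) hP)]
    nlinarith
  have p1 := one_le_phi hE
  have p2 := one_le_phi hR
  have p3 := one_le_phi hER
  rw [nrm_mul hE hR, div_mul_div_comm] at h5
  have n1 : 0 < nrm E * nrm R := mul_pos (nrm_pos E) (nrm_pos R)
  rw [div_le_div_iff₀ (by linarith) (by positivity)] at h5
  exact le_of_mul_le_mul_left h5 n1

open Classical in
/-- the zeros and the conductors of all characters modulo `Q` -/
theorem exists_cond {M : ℕ} {Q : F[X]} (hQ : Q.Monic) (hM : Q.natDegree = M) :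
    ∃ D : MulChar (AdjoinRoot Q) ℂ → F[X], ∀ χ : MulChar (AdjoinRoot Q) ℂ, χ ≠ 1 →
      NT Q (fn χ) ∧ (∃ χ', Ind Q (fn χ) (D χ) χ') ∧
      (∀ z ∈ (Lp M (fn χ)).roots, √(q F) * ‖z‖ = 1 ∨ ‖z‖ = 1) ∧
      (Lp M (fn χ)).roots.card + (D χ).natDegree ≤ (crit F (Lp M (fn χ))).card + M + 1 ∧
      (D χ).natDegree ≤ (crit F (Lp M (fn χ))).card + 2 := by
  have h : ∀ χ : MulChar (AdjoinRoot Q) ℂ, ∃ D : F[X], χ ≠ 1 →
      NT Q (fn χ) ∧ (∃ χ', Ind Q (fn χ) D χ') ∧
      (∀ z ∈ (Lp M (fn χ)).roots, √(q F) * ‖z‖ = 1 ∨ ‖z‖ = 1) ∧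
      (Lp M (fn χ)).roots.card + D.natDegree ≤ (crit F (Lp M (fn χ))).card + M + 1 ∧
      D.natDegree ≤ (crit F (Lp M (fn χ))).card + 2 := by
    intro χ
    by_cases hχ : χ = 1
    · exact ⟨1, fun h => absurd hχ h⟩
    · have hnt : NT Q (fn χ) := by
        by_contra hc
        apply hχ
        apply MulChar.ext
        intro a
        have h1 : IsUnit (AdjoinRoot.mk Q (rep Q (a : AdjoinRoot Q))) := by
          rw [mk_rep]
          exact a.isUnit
        have h2 := coprime_of_isUnit_mk h1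
        have h3 : fn χ (rep Q (a : AdjoinRoot Q)) = 1 := by
          by_contra h4
          exact hc ⟨_, h2, h4⟩
        unfold fn at h3
        rw [mk_rep] at h3
        rw [h3, MulChar.one_apply_coe]
      obtain ⟨D, χ', h1, h2, h3, h4⟩ := zeros (dc_fn hQ χ) hM hnt
      exact ⟨D, fun _ => ⟨hnt, ⟨χ', h1⟩, h2, h3, h4⟩⟩
  exact ⟨fun χ => (h χ).choose, fun χ => (h χ).choose_spec⟩

open Classical in
/-- the number of characters with given conductor -/
theorem card_cond {Q : F[X]} (hQ : Q.Monic) [Fintype (MulChar (AdjoinRoot Q) ℂ)]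
    (D : MulChar (AdjoinRoot Q) ℂ → F[X])
    (hD : ∀ χ : MulChar (AdjoinRoot Q) ℂ, χ ≠ 1 → ∃ χ', Ind Q (fn χ) (D χ) χ') {E : F[X]}
    (hE : E.Monic) :
    ((univ.filter (fun χ : MulChar (AdjoinRoot Q) ℂ => χ ≠ 1)).filter (fun χ => D χ = E)).card ≤
      phi E := by
  have hfin := finite_char hE
  have hft : Fintype (MulChar (AdjoinRoot E) ℂ) := Fintype.ofFinite _
  rw [← card_char hE, Nat.card_eq_fintype_card, ← card_univ]
  have hex : ∀ χ ∈ (univ.filter (fun χ : MulChar (AdjoinRoot Q) ℂ => χ ≠ 1)).filter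
      (fun χ => D χ = E), ∃ η : MulChar (AdjoinRoot E) ℂ, ∀ f, IsCoprime f Q → fn χ f = fn η f := by
    intro χ hχ
    rw [mem_filter, mem_filter] at hχ
    obtain ⟨χ', h1⟩ := hD χ hχ.1.2
    rw [hχ.2] at h1
    refine ⟨ofDC h1.2.1, fun f hf => ?_⟩
    rw [h1.2.2 f hf]
    unfold fn
    rw [ofDC_mk]
  choose! η hη using hex
  apply card_le_card_of_injOn η
  · intro _ _
    exact mem_univ _
  · intro χ1 h1 χ2 h2 e
    apply MulChar.ext
    intro a
    have h3 : IsUnit (AdjoinRoot.mk Q (rep Q (a : AdjoinRoot Q))) := by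
      rw [mk_rep]
      exact a.isUnit
    have h4 := coprime_of_isUnit_mk h3
    have h5 := hη χ1 h1 _ h4
    have h6 := hη χ2 h2 _ h4
    rw [e] at h5
    have h7 := h5.trans h6.symm
    unfold fn at h7
    rw [mk_rep] at h7
    exact h7

open Classical in
theorem Av_cond {M : ℕ} {Q : F[X]} (hQ : Q.Monic) (hM : Q.natDegree = M)
    (D : MulChar (AdjoinRoot Q) ℂ → F[X])
    (hD : ∀ χ : MulChar (AdjoinRoot Q) ℂ, χ ≠ 1 → ∃ χ', Ind Q (fn χ) (D χ) χ') (G : ℕ → ℝ)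
    (hG : ∀ d, 0 ≤ G d) :
    Av Q (fun χ => G (D χ).natDegree) ≤
      ∑ d ∈ range (M + 1), ∑ E ∈ (Mon F d).filter (fun E => E ∣ Q), phi E * G d / phi Q := by
  have hfin := finite_char hQ
  have hft : Fintype (MulChar (AdjoinRoot Q) ℂ) := Fintype.ofFinite _
  rw [Av_eq]
  have hphi := one_le_phi hQ
  set T := univ.filter (fun χ : MulChar (AdjoinRoot Q) ℂ => χ ≠ 1) with hT
  set DV := (range (M + 1)).biUnion (fun d => (Mon F d).filter (fun E => E ∣ Q)) with hDV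
  have hmaps : ∀ χ ∈ T, D χ ∈ DV := by
    intro χ hχ
    rw [hT, mem_filter] at hχ
    obtain ⟨χ', h1⟩ := hD χ hχ.2
    rw [hDV, mem_biUnion]
    refine ⟨(D χ).natDegree, ?_, ?_⟩
    · rw [mem_range, ← hM]
      exact Nat.lt_succ_of_le (natDegree_le_of_dvd h1.1 hQ.ne_zero)
    · rw [mem_filter, mem_Mon]
      exact ⟨⟨h1.2.1.monic, rfl⟩, h1.1⟩
  have h1 : ∑ χ ∈ T, G (D χ).natDegree ≤ ∑ E ∈ DV, (phi E : ℝ) * G E.natDegree := by
    rw [← sum_fiberwise_of_maps_to hmaps]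
    apply sum_le_sum
    intro E hE
    rw [hDV, mem_biUnion] at hE
    obtain ⟨d, _, hE⟩ := hE
    rw [mem_filter, mem_Mon] at hE
    have h2 : ∀ χ ∈ T.filter (fun χ => D χ = E), G (D χ).natDegree = G E.natDegree := by
      intro χ hχ
      rw [(mem_filter.1 hχ).2]
    rw [sum_congr rfl h2, sum_const, nsmul_eq_mul]
    apply mul_le_mul_of_nonneg_right _ (hG _)
    exact_mod_cast card_cond hQ D hD hE.1.1
  have h2 : ∑ E ∈ DV, (phi E : ℝ) * G E.natDegree =
      ∑ d ∈ range (M + 1), ∑ E ∈ (Mon F d).filter (fun E => E ∣ Q), (phi E : ℝ) * G d := by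
    rw [hDV, sum_biUnion]
    · apply sum_congr rfl
      intro d _
      apply sum_congr rfl
      intro E hE
      rw [mem_filter, mem_Mon] at hE
      rw [hE.1.2]
    · intro i _ j _ hij
      change Disjoint _ _
      rw [disjoint_left]
      intro P hP hP'
      rw [mem_filter, mem_Mon] at hP hP'
      apply hij
      rw [← hP.1.2, ← hP'.1.2]
  calc (∑ χ ∈ T, G (D χ).natDegree) / phi Q ≤ (∑ E ∈ DV, (phi E : ℝ) * G E.natDegree) / phi Q :=
        div_le_div_of_nonneg_right h1 (by linarith)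
    _ = _ := by
        rw [h2, sum_div]
        apply sum_congr rfl
        intro d _
        rw [sum_div]

open Classical in
/-- a double sum over moduli and their divisors -/
theorem sum_div_switch (M d : ℕ) (hd : d ≤ M) (H : F[X] → F[X] → ℝ) :
    ∑ Q ∈ Mon F M, ∑ E ∈ (Mon F d).filter (fun E => E ∣ Q), H E Q =
      ∑ E ∈ Mon F d, ∑ R ∈ Mon F (M - d), H E (E * R) := by
  have h1 : ∀ Q ∈ Mon F M, ∑ E ∈ (Mon F d).filter (fun E => E ∣ Q), H E Q =
      ∑ E ∈ Mon F d, if E ∣ Q then H E Q else 0 := fun Q _ => sum_filter _ _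
  rw [sum_congr rfl h1, sum_comm]
  apply sum_congr rfl
  intro E hE
  rw [mem_Mon] at hE
  rw [← sum_filter]
  symm
  refine sum_nbij (fun R => E * R) ?_ ?_ ?_ ?_
  · intro R hR
    rw [mem_Mon] at hR
    rw [mem_filter, mem_Mon]
    refine ⟨⟨hE.1.mul hR.1, ?_⟩, dvd_mul_right _ _⟩
    rw [hE.1.natDegree_mul hR.1, hE.2, hR.2]
    omega
  · intro R _ R' _ e
    exact mul_left_cancel₀ hE.1.ne_zero e
  · intro Q hQ
    rw [mem_coe, mem_filter, mem_Mon] at hQ
    obtain ⟨⟨h2, h3⟩, R, rfl⟩ := hQ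
    have hR : R.Monic := hE.1.of_mul_monic_left h2
    refine ⟨R, ?_, rfl⟩
    rw [mem_coe, mem_Mon]
    refine ⟨hR, ?_⟩
    rw [hE.1.natDegree_mul hR, hE.2] at h3
    omega
  · intro _ _
    rfl

theorem twelve (x : ℝ) (hx : 2 ≤ x) (N : ℕ) : ∑ e ∈ range N, ((e : ℝ) + 1) ^ 2 / x ^ e ≤ 12 := by
  have h1 : ∀ N : ℕ, ∑ e ∈ range N, ((e : ℝ) + 1) ^ 2 / 2 ^ e ≤
      12 - (2 * (N : ℝ) ^ 2 + 8 * N + 12) / 2 ^ N := by
    intro N
    induction N with
    | zero => norm_num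
    | succ N ih =>
      rw [sum_range_succ]
      have e : (2 * (((N + 1 : ℕ)) : ℝ) ^ 2 + 8 * ((N + 1 : ℕ) : ℝ) + 12) / 2 ^ (N + 1) =
          (2 * (N : ℝ) ^ 2 + 8 * N + 12) / 2 ^ N - ((N : ℝ) + 1) ^ 2 / 2 ^ N := by
        push_cast
        rw [pow_succ]
        field_simp
        ring
      rw [e]
      linarith
  have h2 : ∑ e ∈ range N, ((e : ℝ) + 1) ^ 2 / x ^ e ≤ ∑ e ∈ range N, ((e : ℝ) + 1) ^ 2 / 2 ^ e := by
    apply sum_le_sum
    intro e _
    apply div_le_div_of_nonneg_left (by positivity) (by positivity)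
    exact pow_le_pow_left₀ (by norm_num) hx e
  have h3 := h1 N
  have h4 : 0 ≤ (2 * (N : ℝ) ^ 2 + 8 * N + 12) / 2 ^ N := by positivity
  linarith

variable (F) in
/-- **The defect of the conductors is bounded on average.** -/
theorem cond_avg (M : ℕ) (D : ∀ Q : F[X], MulChar (AdjoinRoot Q) ℂ → F[X])
    (hD : ∀ Q ∈ Mon F M, ∀ χ : MulChar (AdjoinRoot Q) ℂ, χ ≠ 1 → ∃ χ', Ind Q (fn χ) (D Q χ) χ') :
    ∑ Q ∈ Mon F M, Av Q (fun χ => (((M - (D Q χ).natDegree : ℕ) : ℝ) + 1) ^ 2) ≤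
      24 * (1 + C0) * q F ^ M := by
  classical
  have hq := q_pos F
  have h1 : ∀ Q ∈ Mon F M, Av Q (fun χ => (((M - (D Q χ).natDegree : ℕ) : ℝ) + 1) ^ 2) ≤
      ∑ d ∈ range (M + 1), ∑ E ∈ (Mon F d).filter (fun E => E ∣ Q),
        (phi E : ℝ) * (((M - d : ℕ) : ℝ) + 1) ^ 2 / phi Q := by
    intro Q hQ
    have hQ' := mem_Mon.1 hQ
    exact Av_cond hQ'.1 hQ'.2 (D Q) (hD Q hQ) (fun d => (((M - d : ℕ) : ℝ) + 1) ^ 2)
      (fun d => by positivity)
  refine (sum_le_sum h1).trans ?_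
  rw [sum_comm]
  have h2 : ∀ d ∈ range (M + 1), ∑ Q ∈ Mon F M, ∑ E ∈ (Mon F d).filter (fun E => E ∣ Q),
      (phi E : ℝ) * (((M - d : ℕ) : ℝ) + 1) ^ 2 / phi Q ≤
      q F ^ M * (2 * (1 + C0)) * ((((M - d : ℕ) : ℝ) + 1) ^ 2 / q F ^ (M - d)) := by
    intro d hd
    rw [mem_range] at hd
    rw [sum_div_switch M d (by omega) (fun E Q => (phi E : ℝ) * (((M - d : ℕ) : ℝ) + 1) ^ 2 / phi Q)]
    have h3 : ∀ E ∈ Mon F d, ∑ R ∈ Mon F (M - d), (phi E : ℝ) * (((M - d : ℕ) : ℝ) + 1) ^ 2 /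
        phi (E * R) ≤ (((M - d : ℕ) : ℝ) + 1) ^ 2 * (2 * (1 + C0)) := by
      intro E hE
      rw [mem_Mon] at hE
      have h4 : ∀ R ∈ Mon F (M - d), (phi E : ℝ) * (((M - d : ℕ) : ℝ) + 1) ^ 2 / phi (E * R) ≤
          (((M - d : ℕ) : ℝ) + 1) ^ 2 * (1 / (phi R : ℝ)) := by
        intro R hR
        rw [mem_Mon] at hR
        have h5 := phi_mul_ge hE.1 hR.1
        have p1 := one_le_phi hE.1
        have p2 := one_le_phi hR.1
        have p3 := one_le_phi (hE.1.mul hR.1)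
        rw [mul_one_div, div_le_div_iff₀ (by linarith) (by linarith)]
        have h6 : (0 : ℝ) ≤ (((M - d : ℕ) : ℝ) + 1) ^ 2 := by positivity
        calc (phi E : ℝ) * (((M - d : ℕ) : ℝ) + 1) ^ 2 * phi R =
            (((M - d : ℕ) : ℝ) + 1) ^ 2 * (phi E * phi R) := by ring
          _ ≤ _ := mul_le_mul_of_nonneg_left h5 h6
      refine (sum_le_sum h4).trans ?_
      rw [← mul_sum]
      exact mul_le_mul_of_nonneg_left (AA_le F (M - d)) (by positivity)
    refine (sum_le_sum h3).trans ?_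
    rw [sum_const, nsmul_eq_mul, card_Mon_q]
    apply le_of_eq
    have e : q F ^ M = q F ^ d * q F ^ (M - d) := by
      rw [← pow_add]
      congr 1
      omega
    rw [e]
    field_simp
  refine (sum_le_sum h2).trans ?_
  rw [← mul_sum]
  have h3 : ∑ d ∈ range (M + 1), (((M - d : ℕ) : ℝ) + 1) ^ 2 / q F ^ (M - d) =
      ∑ e ∈ range (M + 1), ((e : ℝ) + 1) ^ 2 / q F ^ e := by
    rw [← sum_range_reflect]
    apply sum_congr rfl
    intro e he
    rw [mem_range] at he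
    have : M - (M + 1 - 1 - e) = e := by omega
    rw [this]
  rw [h3]
  have h4 := twelve (q F) (two_le_q F) (M + 1)
  have hC := C0_pos
  calc q F ^ M * (2 * (1 + C0)) * ∑ e ∈ range (M + 1), ((e : ℝ) + 1) ^ 2 / q F ^ e
      ≤ q F ^ M * (2 * (1 + C0)) * 12 := mul_le_mul_of_nonneg_left h4 (by positivity)
    _ = _ := by ring

end Pool.Agent.H23.PC
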