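import Pool.Agent.H23.FF.Model2

/-!
# Mean values of `1 / φ` over the polynomials of a given degree
-/

set_option autoImplicit false

open Finset Polynomial
open Pool.Agent.H341R2.Sharp (Mon mem_Mon)
open Pool.Agent.H23.FF

namespace Pool.Agent.H23.PC

variable {F : Type} [Field F] [Fintype F]

theorem phi_mul_dvd {P g' : F[X]} (hP : P.Monic) (hg' : g'.Monic)
    (hPg : P ∣ g') : (phi (P * g') : ℝ) = nrm P * phi g' := by
  classical
  have hdeg : (P * g').natDegree = g'.natDegree + P.natDegree := by
    rw [hP.natDegree_mul hg', add_comm]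
  have hcop : ∀ b : F[X], IsCoprime b (P * g') ↔ IsCoprime b g' := by
    intro b
    constructor
    · intro h
      exact h.of_mul_right_right
    · intro h
      exact (h.of_isCoprime_of_dvd_right hPg).mul_right h
  have h1 : phi (P * g') = Fintype.card F ^ P.natDegree * phi g' := by
    unfold phi
    rw [hdeg, card_filter, sum_Lo_dec hg' rfl]
    have h2 : ∀ u ∈ Lo F P.natDegree, ∑ b ∈ Lo F g'.natDegree,
        (if IsCoprime (g' * u + b) (P * g') then 1 else 0) =
        ((Lo F g'.natDegree).filter (fun b => IsCoprime b g')).card := by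
      intro u _
      rw [card_filter]
      apply sum_congr rfl
      intro b _
      have h3 : IsCoprime (g' * u + b) (P * g') ↔ IsCoprime b g' := by
        rw [hcop, add_comm]
        exact IsCoprime.add_mul_left_left_iff
      by_cases h4 : IsCoprime b g'
      · rw [if_pos (h3.2 h4), if_pos h4]
      · rw [if_neg (fun h => h4 (h3.1 h)), if_neg h4]
    rw [sum_congr rfl h2, sum_const, card_Lo, smul_eq_mul]
  rw [h1]
  unfold nrm q
  push_cast
  ring

omit [Fintype F] in
theorem monic_irr_dvd_eq {P R : F[X]} (hP : P.Monic) (hP' : Irreducible P) (hR : R.Monic)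
    (hR' : Irreducible R) (h : P ∣ R) : P = R :=
  eq_of_monic_of_associated hP hR (hP'.associated_of_dvd hR' h)

open Classical in
/-- the primes of the set `Π` which divide `S` -/
noncomputable def pr (Pi : Finset F[X]) (S : F[X]) : Finset F[X] := Pi.filter (fun P => P ∣ S)

/-- the product formula of Euler's function -/
theorem phi_formula (Pi : Finset F[X]) (hPi : ∀ P ∈ Pi, P.Monic ∧ Irreducible P) :
    ∀ n : ℕ, ∀ S : F[X], S.Monic → S.natDegree ≤ n →
      (∀ P : F[X], P.Monic → Irreducible P → P ∣ S → P ∈ Pi) →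
      nrm S / phi S = ∏ P ∈ pr Pi S, (1 + 1 / (nrm P - 1)) := by
  classical
  intro n
  induction n with
  | zero =>
    intro S hS hn _
    have h1 : S = 1 := eq_one_of_monic_natDegree_zero hS (by omega)
    subst h1
    have h2 : pr Pi (1 : F[X]) = ∅ := by
      unfold pr
      apply filter_eq_empty_iff.2
      intro P hP h
      exact (hPi P hP).2.not_isUnit (isUnit_of_dvd_one h)
    rw [h2, prod_empty, phi_one]
    unfold nrm
    simp
  | succ n ih =>
    intro S hS hn hall
    by_cases h0 : S.natDegree = 0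
    · exact ih S hS (by omega) hall
    have hnu : ¬ IsUnit S := by
      intro h
      exact h0 (natDegree_eq_zero_of_isUnit h)
    obtain ⟨P, hPm, hPi', S', rfl⟩ := exists_monic_irreducible_factor S hnu
    have hS' : S'.Monic := hPm.of_mul_monic_left hS
    have hdeg := hPm.natDegree_mul hS'
    have hP1 := hPi'.natDegree_pos
    have hall' : ∀ R : F[X], R.Monic → Irreducible R → R ∣ S' → R ∈ Pi := fun R h1 h2 h3 =>
      hall R h1 h2 (h3.mul_left P)
    have hih := ih S' hS' (by omega) hall'
    have hn1 := one_lt_nrm hPi'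
    have hphi : (phi S' : ℝ) ≠ 0 := by
      have := phi_pos hS'
      exact_mod_cast this.ne'
    by_cases hd : P ∣ S'
    · have h1 : pr Pi (P * S') = pr Pi S' := by
        unfold pr
        apply filter_congr
        intro R hR
        constructor
        · intro h
          rcases (hPi R hR).2.prime.dvd_or_dvd h with h2 | h2
          · rw [monic_irr_dvd_eq (hPi R hR).1 (hPi R hR).2 hPm hPi' h2]
            exact hd
          · exact h2
        · intro h
          exact h.mul_left P
      rw [h1, ← hih, phi_mul_dvd hPm hS' hd, nrm_mul hPm hS']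
      have : nrm P ≠ 0 := by linarith
      field_simp
    · have h1 : pr Pi (P * S') = insert P (pr Pi S') := by
        unfold pr
        ext R
        rw [mem_insert, mem_filter, mem_filter]
        constructor
        · rintro ⟨hR, h⟩
          rcases (hPi R hR).2.prime.dvd_or_dvd h with h2 | h2
          · left
            exact monic_irr_dvd_eq (hPi R hR).1 (hPi R hR).2 hPm hPi' h2
          · right
            exact ⟨hR, h2⟩
        · rintro (rfl | ⟨hR, h2⟩)
          · exact ⟨hall _ hPm hPi' (dvd_mul_right _ _), dvd_mul_right _ _⟩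
          · exact ⟨hR, h2.mul_left P⟩
      have h2 : P ∉ pr Pi S' := by
        intro h
        exact hd (mem_filter.1 h).2
      rw [h1, prod_insert h2, ← hih, phi_mul hPm hPi' hS' hd, nrm_mul hPm hS']
      have h3 : nrm P - 1 ≠ 0 := by linarith
      field_simp
      ring

theorem phi_PP {K s : ℕ} (hs : s ≤ K) {S : F[X]} (hS : S ∈ Mon F s) :
    nrm S / phi S = ∏ P ∈ pr (PP F K) S, (1 + 1 / (nrm P - 1)) := by
  rw [mem_Mon] at hS
  refine phi_formula (PP F K) (fun P hP => ⟨(mem_PP.1 hP).1, (mem_PP.1 hP).2.1⟩) s S hS.1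
    (le_of_eq hS.2) ?_
  intro P h1 h2 h3
  rw [mem_PP]
  refine ⟨h1, h2, ?_⟩
  have := natDegree_le_of_dvd h3 hS.1.ne_zero
  omega

/-- the total degree of a set of primes -/
noncomputable def dg (T : Finset F[X]) : ℕ := ∑ P ∈ T, P.natDegree

omit [Fintype F] in
theorem pair_cop {P R : F[X]} (hP : P.Monic ∧ Irreducible P) (hR : R.Monic ∧ Irreducible R)
    (h : P ≠ R) : IsCoprime P R := by
  rw [hP.2.coprime_iff_not_dvd]
  intro h1
  exact h (monic_irr_dvd_eq hP.1 hP.2 hR.1 hR.2 h1)

open Classical in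
/-- the number of the multiples of the primes in `T` and of the squares of the primes in `U` -/
theorem card_mult (T U : Finset F[X]) (hT : ∀ P ∈ T, P.Monic ∧ Irreducible P) (hU : U ⊆ T) (d : ℕ) :
    (((Mon F d).filter (fun N => (∀ P ∈ T, P ∣ N) ∧ ∀ P ∈ U, P ^ 2 ∣ N)).card : ℝ) =
      if dg T + dg U ≤ d then q F ^ d / ((∏ P ∈ T, nrm P) * ∏ P ∈ U, nrm P) else 0 := by
  set D : F[X] := (∏ P ∈ T, P) * ∏ P ∈ U, P with hD
  have hTm : (∏ P ∈ T, P).Monic := monic_prod_of_monic _ _ fun P hP => (hT P hP).1
  have hUm : (∏ P ∈ U, P).Monic := monic_prod_of_monic _ _ fun P hP => (hT P (hU hP)).1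
  have hDm : D.Monic := hTm.mul hUm
  have hDd : D.natDegree = dg T + dg U := by
    rw [hD, hTm.natDegree_mul hUm, natDegree_prod_of_monic _ _ (fun P hP => (hT P hP).1),
      natDegree_prod_of_monic _ _ (fun P hP => (hT P (hU hP)).1)]
    rfl
  have hDn : nrm D = (∏ P ∈ T, nrm P) * ∏ P ∈ U, nrm P := by
    rw [hD, nrm_mul hTm hUm, nrm_prod T (fun P hP => (hT P hP).1),
      nrm_prod U (fun P hP => (hT P (hU hP)).1)]
  have hiff : ∀ N : F[X], ((∀ P ∈ T, P ∣ N) ∧ ∀ P ∈ U, P ^ 2 ∣ N) ↔ D ∣ N := by
    intro N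
    constructor
    · rintro ⟨h1, h2⟩
      have h3 : D = ∏ P ∈ T, (if P ∈ U then P ^ 2 else P) := by
        rw [hD]
        have h4 : ∏ P ∈ U, P = ∏ P ∈ T, (if P ∈ U then P else 1) := by
          rw [← prod_filter]
          congr 1
          ext P
          rw [mem_filter]
          exact ⟨fun h => ⟨hU h, h⟩, fun h => h.2⟩
        rw [h4, ← prod_mul_distrib]
        apply prod_congr rfl
        intro P _
        split_ifs
        · ring
        · ring
      rw [h3]
      apply Finset.prod_dvd_of_coprime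
      · intro P hP R hR hPR
        have h5 := pair_cop (hT P hP) (hT R hR) hPR
        change IsCoprime (if P ∈ U then P ^ 2 else P) (if R ∈ U then R ^ 2 else R)
        split_ifs
        · exact h5.pow
        · exact h5.pow_left
        · exact h5.pow_right
        · exact h5
      · intro P hP
        split_ifs with h5
        · exact h2 P h5
        · exact h1 P hP
    · intro h
      refine ⟨fun P hP => ?_, fun P hP => ?_⟩
      · exact ((dvd_prod_of_mem (fun P => P) hP).mul_right _).trans h
      · have h1 : P ∣ ∏ P ∈ T, P := dvd_prod_of_mem (fun P => P) (hU hP)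
        have h2 : P ∣ ∏ P ∈ U, P := dvd_prod_of_mem (fun P => P) hP
        rw [sq]
        exact (mul_dvd_mul h1 h2).trans h
  have h1 : (Mon F d).filter (fun N => (∀ P ∈ T, P ∣ N) ∧ ∀ P ∈ U, P ^ 2 ∣ N) =
      (Mon F d).filter (fun N => D ∣ N + 0) := by
    apply filter_congr
    intro N _
    rw [hiff, add_zero]
  rw [h1]
  split_ifs with h2
  · rw [card_class hDm rfl (by rw [hDd]; exact h2), hDn]
  · have h3 : (Mon F d).filter (fun N => D ∣ N + 0) = ∅ := by
      apply filter_eq_empty_iff.2
      intro N hN h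
      rw [mem_Mon] at hN
      rw [add_zero] at h
      have := natDegree_le_of_dvd h hN.1.ne_zero
      rw [hDd] at this
      omega
    rw [h3]
    simp

/-- the mean value of `1 / φ` -/
noncomputable def AA (F : Type) [Field F] [Fintype F] (s : ℕ) : ℝ := ∑ S ∈ Mon F s, 1 / (phi S : ℝ)

/-- the weight of a set of primes -/
noncomputable def xx (T : Finset F[X]) : ℝ := ∏ P ∈ T, (1 / (nrm P - 1))

/-- the sum of `μ² / φ` over the polynomials of degree `d` -/
noncomputable def al (F : Type) [Field F] [Fintype F] (K d : ℕ) : ℝ :=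
  ∑ T ∈ (PP F K).powerset with dg T = d, xx T

theorem PP_mem {K : ℕ} {T : Finset F[X]} (hT : T ⊆ PP F K) : ∀ P ∈ T, P.Monic ∧ Irreducible P :=
  fun P hP => ⟨(mem_PP.1 (hT hP)).1, (mem_PP.1 (hT hP)).2.1⟩

theorem AA_eq {K s : ℕ} (hs : s ≤ K) : AA F s = ∑ d ∈ range (s + 1), al F K d / q F ^ d := by
  classical
  have hq := q_pos F
  have h1 : AA F s = (∑ S ∈ Mon F s, ∏ P ∈ pr (PP F K) S, (1 + 1 / (nrm P - 1))) / q F ^ s := by
    unfold AA
    rw [sum_div]
    apply sum_congr rfl
    intro S hS
    rw [← phi_PP hs hS]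
    have h2 : nrm S = q F ^ s := by
      unfold nrm
      rw [(mem_Mon.1 hS).2]
    rw [h2]
    have h3 : (phi S : ℝ) ≠ 0 := by
      have := phi_pos (mem_Mon.1 hS).1
      exact_mod_cast this.ne'
    field_simp
  have h2 : ∀ S ∈ Mon F s, ∏ P ∈ pr (PP F K) S, (1 + 1 / (nrm P - 1)) =
      ∑ T ∈ (PP F K).powerset, xx T * (if ∀ P ∈ T, P ∣ S then 1 else 0) := by
    intro S _
    rw [prod_one_add]
    have h3 : (pr (PP F K) S).powerset = (PP F K).powerset.filter (fun T => ∀ P ∈ T, P ∣ S) := by
      ext T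
      rw [mem_filter, mem_powerset, mem_powerset]
      unfold pr
      constructor
      · intro h
        exact ⟨fun P hP => (mem_filter.1 (h hP)).1, fun P hP => (mem_filter.1 (h hP)).2⟩
      · rintro ⟨h4, h5⟩ P hP
        exact mem_filter.2 ⟨h4 hP, h5 P hP⟩
    rw [h3, sum_filter]
    apply sum_congr rfl
    intro T _
    unfold xx
    split_ifs <;> simp
  rw [h1, sum_congr rfl h2, sum_comm]
  have h3 : ∀ T ∈ (PP F K).powerset, ∑ S ∈ Mon F s, xx T * (if ∀ P ∈ T, P ∣ S then (1 : ℝ) else 0) =
      if dg T ≤ s then xx T * (q F ^ s / q F ^ dg T) else 0 := by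
    intro T hT
    rw [mem_powerset] at hT
    rw [← mul_sum]
    have h4 := card_mult T ∅ (PP_mem hT) (empty_subset _) s
    have h5 : ∑ S ∈ Mon F s, (if ∀ P ∈ T, P ∣ S then (1 : ℝ) else 0) =
        (((Mon F s).filter (fun N => (∀ P ∈ T, P ∣ N) ∧ ∀ P ∈ (∅ : Finset F[X]), P ^ 2 ∣ N)).card : ℝ) := by
      rw [card_filter]
      push_cast
      apply sum_congr rfl
      intro S _
      simp
    rw [h5, h4]
    have h6 : dg (∅ : Finset F[X]) = 0 := by
      unfold dg
      simp
    have h7 : ∏ P ∈ T, nrm P = q F ^ dg T := by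
      unfold nrm dg
      rw [prod_pow_eq_pow_sum]
    rw [h6, add_zero, prod_empty, mul_one, h7]
    split_ifs <;> simp
  rw [sum_congr rfl h3, ← sum_filter]
  have h4 : ∀ T ∈ (PP F K).powerset.filter (fun T => dg T ≤ s), dg T ∈ range (s + 1) := by
    intro T hT
    rw [mem_range]
    have := (mem_filter.1 hT).2
    omega
  rw [← sum_fiberwise_of_maps_to h4, sum_div]
  apply sum_congr rfl
  intro d hd
  rw [mem_range] at hd
  unfold al
  rw [sum_div, sum_div]
  have h5 : ((PP F K).powerset.filter (fun T => dg T ≤ s)).filter (fun T => dg T = d) =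
      (PP F K).powerset.filter (fun T => dg T = d) := by
    ext T
    rw [mem_filter, mem_filter, mem_filter]
    constructor
    · rintro ⟨⟨h6, _⟩, h7⟩
      exact ⟨h6, h7⟩
    · rintro ⟨h6, h7⟩
      exact ⟨⟨h6, by omega⟩, h7⟩
  rw [h5]
  apply sum_congr rfl
  intro T hT
  rw [(mem_filter.1 hT).2]
  field_simp

end Pool.Agent.H23.PC
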