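import Pool.Agent.H23.PC.Arith

/-!
# The sum of `μ² / φ` over the polynomials of degree `d` is `1` up to a summable error
-/

set_option autoImplicit false

open Finset Polynomial
open Pool.Agent.H341R2.Sharp (Mon mem_Mon)
open Pool.Agent.H23.FF

namespace Pool.Agent.H23.PC

variable {F : Type} [Field F] [Fintype F]

/-- `1 / (|P| (|P| - 1))` -/
noncomputable def ka (P : F[X]) : ℝ := 1 / (nrm P * (nrm P - 1))

theorem ka_pos {P : F[X]} (hP : Irreducible P) : 0 < ka P := by
  have h1 := one_lt_nrm hP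
  unfold ka
  have : 0 < nrm P - 1 := by linarith
  positivity

open Classical in
/-- the multiplicative function whose Dirichlet convolution with `1/|.|` is `μ²/φ` -/
noncomputable def hh (K : ℕ) (N : F[X]) : ℝ :=
  ∏ P ∈ pr (PP F K) N, (1 / (nrm P - 1) + (1 - if P ^ 2 ∣ N then nrm P / (nrm P - 1) else 0))

omit [Fintype F] in
theorem eq_prod_of_sqfree {Pi : Finset F[X]} (hPi : ∀ P ∈ Pi, P.Monic ∧ Irreducible P) {N : F[X]}
    (hN : N.Monic) (hall : ∀ P : F[X], P.Monic → Irreducible P → P ∣ N → P ∈ Pi)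
    (hsq : ∀ P ∈ Pi, ¬ P ^ 2 ∣ N) : ∏ P ∈ pr Pi N, P = N := by
  classical
  have h1 : ∏ P ∈ pr Pi N, P ∣ N := by
    apply Finset.prod_dvd_of_coprime
    · intro P hP R hR hPR
      exact pair_cop (hPi P (mem_filter.1 hP).1) (hPi R (mem_filter.1 hR).1) hPR
    · intro P hP
      exact (mem_filter.1 hP).2
  obtain ⟨E, hE⟩ := h1
  have hDm : (∏ P ∈ pr Pi N, P).Monic :=
    monic_prod_of_monic _ _ fun P hP => (hPi P (mem_filter.1 hP).1).1
  have hEm : E.Monic := by
    rw [hE] at hN
    exact hDm.of_mul_monic_left hN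
  by_cases hu : IsUnit E
  · have h2 : E = 1 := hEm.eq_one_of_isUnit hu
    rw [h2, mul_one] at hE
    exact hE.symm
  · exfalso
    obtain ⟨P, hPm, hPi', E', hE'⟩ := exists_monic_irreducible_factor E hu
    have h3 : P ∣ N := by
      rw [hE, hE']
      exact (dvd_mul_right P E').mul_left _
    have h4 : P ∈ Pi := hall P hPm hPi' h3
    have h5 : P ∣ ∏ P ∈ pr Pi N, P := dvd_prod_of_mem (fun P => P) (mem_filter.2 ⟨h4, h3⟩)
    apply hsq P h4
    rw [hE, hE', sq]
    exact mul_dvd_mul h5 (dvd_mul_right P E')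

omit [Fintype F] in
theorem pr_prod {Pi : Finset F[X]} (hPi : ∀ P ∈ Pi, P.Monic ∧ Irreducible P) {T : Finset F[X]}
    (hT : T ⊆ Pi) : pr Pi (∏ P ∈ T, P) = T := by
  classical
  unfold pr
  ext P
  rw [mem_filter]
  constructor
  · rintro ⟨h1, h2⟩
    rw [(hPi P h1).2.prime.dvd_finsetProd_iff] at h2
    obtain ⟨R, hR, hd⟩ := h2
    rwa [monic_irr_dvd_eq (hPi P h1).1 (hPi P h1).2 (hPi R (hT hR)).1 (hPi R (hT hR)).2 hd]
  · intro h
    exact ⟨hT h, dvd_prod_of_mem (fun P => P) h⟩

omit [Fintype F] in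
theorem sqfree_prod {Pi : Finset F[X]} (hPi : ∀ P ∈ Pi, P.Monic ∧ Irreducible P) {T : Finset F[X]}
    (hT : T ⊆ Pi) : ∀ P ∈ Pi, ¬ P ^ 2 ∣ ∏ P ∈ T, P := by
  classical
  intro P hP h
  have h1 : P ∈ T := by
    rw [← pr_prod hPi hT]
    exact mem_filter.2 ⟨hP, (dvd_pow_self P two_ne_zero).trans h⟩
  rw [← mul_prod_erase T (fun P => P) h1, sq] at h
  have h2 : P ∣ ∏ R ∈ T.erase P, R := by
    exact (mul_dvd_mul_iff_left (hPi P hP).1.ne_zero).1 h
  rw [(hPi P hP).2.prime.dvd_finsetProd_iff] at h2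
  obtain ⟨R, hR, hd⟩ := h2
  have h3 := monic_irr_dvd_eq (hPi P hP).1 (hPi P hP).2 (hPi R (hT (mem_of_mem_erase hR))).1
    (hPi R (hT (mem_of_mem_erase hR))).2 hd
  rw [← h3] at hR
  exact notMem_erase P T hR

theorem al_hh {K d : ℕ} (hd : d ≤ K) : al F K d = (∑ N ∈ Mon F d, hh K N) / q F ^ d := by
  classical
  have hq := q_pos F
  have hPi : ∀ P ∈ PP F K, P.Monic ∧ Irreducible P := fun P hP =>
    ⟨(mem_PP.1 hP).1, (mem_PP.1 hP).2.1⟩
  have hall : ∀ N ∈ Mon F d, ∀ P : F[X], P.Monic → Irreducible P → P ∣ N → P ∈ PP F K := by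
    intro N hN P h1 h2 h3
    rw [mem_Mon] at hN
    rw [mem_PP]
    refine ⟨h1, h2, ?_⟩
    have := natDegree_le_of_dvd h3 hN.1.ne_zero
    omega
  have hzero : ∀ N ∈ Mon F d, N ∉ (Mon F d).filter (fun N => ∀ P ∈ PP F K, ¬ P ^ 2 ∣ N) →
      hh K N = 0 := by
    intro N hN h
    rw [mem_filter] at h
    push Not at h
    obtain ⟨P, hP, h2⟩ := h hN
    unfold hh
    apply prod_eq_zero (i := P)
    · exact mem_filter.2 ⟨hP, (dvd_pow_self P two_ne_zero).trans h2⟩
    · rw [if_pos h2]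
      have h3 := one_lt_nrm (hPi P hP).2
      have h4 : nrm P - 1 ≠ 0 := by linarith
      field_simp
      ring
  rw [← sum_subset (filter_subset (fun N => ∀ P ∈ PP F K, ¬ P ^ 2 ∣ N) (Mon F d)) hzero]
  unfold al
  rw [sum_div]
  symm
  refine sum_nbij' (fun N => pr (PP F K) N) (fun T => ∏ P ∈ T, P) ?_ ?_ ?_ ?_ ?_
  · intro N hN
    rw [mem_filter] at hN
    have h1 := eq_prod_of_sqfree hPi (mem_Mon.1 hN.1).1 (hall N hN.1) hN.2
    rw [mem_filter, mem_powerset]
    refine ⟨filter_subset _ _, ?_⟩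
    have h2 : (∏ P ∈ pr (PP F K) N, P).natDegree = d := by
      rw [h1]
      exact (mem_Mon.1 hN.1).2
    rw [natDegree_prod_of_monic (pr (PP F K) N) (fun P => P)
      (fun P hP => (hPi P (mem_filter.1 hP).1).1)] at h2
    exact h2
  · intro T hT
    rw [mem_filter, mem_powerset] at hT
    rw [mem_filter, mem_Mon]
    refine ⟨⟨monic_prod_of_monic _ _ fun P hP => (hPi P (hT.1 hP)).1, ?_⟩, sqfree_prod hPi hT.1⟩
    rw [natDegree_prod_of_monic _ _ (fun P hP => (hPi P (hT.1 hP)).1)]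
    exact hT.2
  · intro N hN
    rw [mem_filter] at hN
    exact eq_prod_of_sqfree hPi (mem_Mon.1 hN.1).1 (hall N hN.1) hN.2
  · intro T hT
    rw [mem_filter, mem_powerset] at hT
    exact pr_prod hPi hT.1
  · intro N hN
    rw [mem_filter] at hN
    have h1 := eq_prod_of_sqfree hPi (mem_Mon.1 hN.1).1 (hall N hN.1) hN.2
    have h2 : nrm N = q F ^ d := by
      unfold nrm
      rw [(mem_Mon.1 hN.1).2]
    have h3 : nrm N = ∏ P ∈ pr (PP F K) N, nrm P := by
      conv_lhs => rw [← h1]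
      exact nrm_prod _ (fun P hP => (hPi P (mem_filter.1 hP).1).1)
    rw [← h2, h3]
    unfold hh xx
    rw [← prod_div_distrib]
    apply prod_congr rfl
    intro P hP
    have h4 := one_lt_nrm (hPi P (mem_filter.1 hP).1).2
    have h5 : nrm P - 1 ≠ 0 := by linarith
    have h6 : nrm P ≠ 0 := by linarith
    rw [if_neg (hN.2 P (mem_filter.1 hP).1)]
    field_simp
    ring

/-- the pairs `(T, U)` with `U ⊆ T` -/
noncomputable def gT (T : Finset F[X]) (U : Finset F[X]) : ℝ := (∏ P ∈ T, ka P) * (-1) ^ U.card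

theorem al_gT {K d : ℕ} (hd : d ≤ K) :
    al F K d = ∑ T ∈ (PP F K).powerset, ∑ U ∈ T.powerset, if dg T + dg U ≤ d then gT T U else 0 := by
  classical
  have hq := q_pos F
  have hPi : ∀ P ∈ PP F K, P.Monic ∧ Irreducible P := fun P hP =>
    ⟨(mem_PP.1 hP).1, (mem_PP.1 hP).2.1⟩
  have h1 : ∀ N ∈ Mon F d, hh K N = ∑ T ∈ (PP F K).powerset, ∑ U ∈ T.powerset,
      gT T U * ((∏ P ∈ T, nrm P) * ∏ P ∈ U, nrm P) *
        (if (∀ P ∈ T, P ∣ N) ∧ ∀ P ∈ U, P ^ 2 ∣ N then 1 else 0) := by
    intro N _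
    have h2 : hh K N = ∏ P ∈ pr (PP F K) N,
        (1 + (nrm P * ka P + (if P ^ 2 ∣ N then - (nrm P ^ 2 * ka P) else 0))) := by
      unfold hh
      apply prod_congr rfl
      intro P hP
      have h4 := one_lt_nrm (hPi P (mem_filter.1 hP).1).2
      have h5 : nrm P - 1 ≠ 0 := by linarith
      have h6 : nrm P ≠ 0 := by linarith
      unfold ka
      split_ifs
      · field_simp
        ring
      · field_simp
        ring
    rw [h2, prod_one_add]
    have h3 : (pr (PP F K) N).powerset = (PP F K).powerset.filter (fun T => ∀ P ∈ T, P ∣ N) := by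
      ext T
      rw [mem_filter, mem_powerset, mem_powerset]
      unfold pr
      constructor
      · intro h
        exact ⟨fun P hP => (mem_filter.1 (h hP)).1, fun P hP => (mem_filter.1 (h hP)).2⟩
      · rintro ⟨h4, h5⟩ P hP
        exact mem_filter.2 ⟨h4 hP, h5 P hP⟩
    rw [h3, sum_filter]
    apply sum_congr rfl
    intro T _
    by_cases hT : ∀ P ∈ T, P ∣ N
    · rw [if_pos hT]
      have h4 : ∏ P ∈ T, (nrm P * ka P + (if P ^ 2 ∣ N then - (nrm P ^ 2 * ka P) else 0)) =
          ∏ P ∈ T, ((if P ^ 2 ∣ N then - (nrm P ^ 2 * ka P) else 0) + nrm P * ka P) :=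
        prod_congr rfl fun P _ => add_comm _ _
      rw [h4, prod_add]
      apply sum_congr rfl
      intro U hU
      rw [mem_powerset] at hU
      by_cases hU2 : ∀ P ∈ U, P ^ 2 ∣ N
      · rw [if_pos ⟨hT, hU2⟩, mul_one]
        have h5 : ∏ P ∈ U, (if P ^ 2 ∣ N then - (nrm P ^ 2 * ka P) else 0) =
            ∏ P ∈ U, ((-1) * nrm P * (nrm P * ka P)) := by
          apply prod_congr rfl
          intro P hP
          rw [if_pos (hU2 P hP)]
          ring
        rw [h5, prod_mul_distrib, prod_mul_distrib, prod_const]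
        unfold gT
        have h6 : (∏ P ∈ U, (nrm P * ka P)) * ∏ P ∈ T \ U, (nrm P * ka P) =
            ∏ P ∈ T, (nrm P * ka P) := by
          rw [mul_comm]
          exact prod_sdiff hU
        have h7 : ∏ P ∈ T, (nrm P * ka P) = (∏ P ∈ T, nrm P) * ∏ P ∈ T, ka P := prod_mul_distrib
        calc (-1) ^ U.card * (∏ P ∈ U, nrm P) * (∏ P ∈ U, (nrm P * ka P)) *
              ∏ P ∈ T \ U, (nrm P * ka P) = (-1) ^ U.card * (∏ P ∈ U, nrm P) *
              ((∏ P ∈ U, (nrm P * ka P)) * ∏ P ∈ T \ U, (nrm P * ka P)) := by ring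
          _ = _ := by
            rw [h6, h7]
            ring
      · rw [if_neg (fun h => hU2 h.2), mul_zero]
        push Not at hU2
        obtain ⟨P, hP, h5⟩ := hU2
        have h6 : ∏ P ∈ U, (if P ^ 2 ∣ N then - (nrm P ^ 2 * ka P) else 0) = 0 := by
          apply prod_eq_zero hP
          rw [if_neg h5]
        rw [h6, zero_mul]
    · rw [if_neg hT]
      symm
      apply sum_eq_zero
      intro U _
      rw [if_neg (fun h => hT h.1), mul_zero]
  rw [al_hh hd, sum_congr rfl h1, sum_comm, sum_div]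
  apply sum_congr rfl
  intro T hT
  rw [mem_powerset] at hT
  rw [sum_comm, sum_div]
  apply sum_congr rfl
  intro U hU
  rw [mem_powerset] at hU
  rw [← mul_sum]
  have h5 : ∑ N ∈ Mon F d, (if (∀ P ∈ T, P ∣ N) ∧ ∀ P ∈ U, P ^ 2 ∣ N then (1 : ℝ) else 0) =
      (((Mon F d).filter (fun N => (∀ P ∈ T, P ∣ N) ∧ ∀ P ∈ U, P ^ 2 ∣ N)).card : ℝ) := by
    rw [card_filter]
    push_cast
    rfl
  rw [h5, card_mult T U (PP_mem hT) hU d]
  have h6 : (0 : ℝ) < (∏ P ∈ T, nrm P) * ∏ P ∈ U, nrm P := by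
    apply mul_pos
    · exact prod_pos fun P _ => nrm_pos P
    · exact prod_pos fun P _ => nrm_pos P
  generalize (∏ P ∈ T, nrm P) * ∏ P ∈ U, nrm P = D at h6 ⊢
  split_ifs
  · field_simp
  · simp

theorem total_gT (K : ℕ) : ∑ T ∈ (PP F K).powerset, ∑ U ∈ T.powerset, gT T U = 1 := by
  classical
  have h1 : ∀ T ∈ (PP F K).powerset, ∑ U ∈ T.powerset, gT T U = ∏ P ∈ T, ((0 : ℝ) * ka P) := by
    intro T _
    unfold gT
    rw [← mul_sum]
    have h2 : ∑ U ∈ T.powerset, (-1 : ℝ) ^ U.card = ∏ P ∈ T, (0 : ℝ) := by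
      have h3 := prod_one_add (s := T) (f := fun _ : F[X] => (-1 : ℝ))
      simp only [prod_const] at h3
      rw [← h3, prod_const]
      norm_num
    rw [h2, ← prod_mul_distrib]
    apply prod_congr rfl
    intro P _
    ring
  rw [sum_congr rfl h1, ← prod_one_add]
  simp

theorem abs_gT {K : ℕ} {T : Finset F[X]} (hT : T ⊆ PP F K) (U : Finset F[X]) :
    |gT T U| = ∏ P ∈ T, ka P := by
  unfold gT
  rw [abs_mul, abs_pow, abs_neg, abs_one, one_pow, mul_one, abs_of_nonneg]
  exact prod_nonneg fun P hP => (ka_pos (PP_mem hT P hP).2).le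

/-- the weighted sum of the absolute values -/
theorem sum_abs_gT (K : ℕ) : ∑ T ∈ (PP F K).powerset, ∑ _U ∈ T.powerset,
    (∏ P ∈ T, ka P) * ∏ P ∈ T, (1 + (P.natDegree : ℝ)) ≤ Real.exp 8 := by
  classical
  have hq2 := two_le_q F
  have h1 : ∀ T ∈ (PP F K).powerset, ∑ _U ∈ T.powerset,
      (∏ P ∈ T, ka P) * ∏ P ∈ T, (1 + (P.natDegree : ℝ)) =
      ∏ P ∈ T, (2 * (ka P * (1 + (P.natDegree : ℝ)))) := by
    intro T _
    rw [sum_const, card_powerset, prod_mul_distrib, prod_mul_distrib, prod_const]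
    simp
  rw [sum_congr rfl h1, ← prod_one_add]
  have h2 : ∏ P ∈ PP F K, (1 + 2 * (ka P * (1 + (P.natDegree : ℝ)))) ≤
      ∏ P ∈ PP F K, Real.exp (4 * (P.natDegree * ka P)) := by
    apply prod_le_prod
    · intro P hP
      have := ka_pos (mem_PP.1 hP).2.1
      positivity
    · intro P hP
      have h3 := ka_pos (mem_PP.1 hP).2.1
      have h4 : (1 : ℝ) ≤ P.natDegree := by
        have := (mem_PP.1 hP).2.1.natDegree_pos
        exact_mod_cast this
      have h5 := Real.add_one_le_exp (4 * (P.natDegree * ka P))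
      nlinarith [mul_le_mul_of_nonneg_left h4 h3.le]
  refine h2.trans ?_
  rw [← Real.exp_sum]
  apply Real.exp_le_exp.2
  rw [← mul_sum]
  have h3 : ∑ P ∈ PP F K, (P.natDegree : ℝ) * ka P ≤ 2 := by
    unfold PP
    rw [sum_biUnion]
    · have h4 : ∀ j ∈ Icc 1 K, ∑ P ∈ (Mon F j).filter (fun P => Irreducible P),
          (P.natDegree : ℝ) * ka P ≤ 2 * (1 / 2) ^ j := by
        intro j hj
        rw [mem_Icc] at hj
        have h5 : ∀ P ∈ (Mon F j).filter (fun P => Irreducible P), (P.natDegree : ℝ) * ka P =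
            j * (1 / (q F ^ j * (q F ^ j - 1))) := by
          intro P hP
          rw [mem_filter, mem_Mon] at hP
          unfold ka nrm
          rw [hP.1.2]
        rw [sum_congr rfl h5, sum_const, nsmul_eq_mul]
        have h6 := card_irr (F := F) j hj.1
        have h7 : (2 : ℝ) ^ j ≤ q F ^ j := pow_le_pow_left₀ (by norm_num) hq2 j
        have h8 : (2 : ℝ) ≤ 2 ^ j := by
          calc (2 : ℝ) = 2 ^ 1 := by norm_num
            _ ≤ 2 ^ j := pow_le_pow_right₀ (by norm_num) hj.1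
        have h9 : 0 < q F ^ j - 1 := by linarith
        have h10 : 0 < q F ^ j := by linarith
        calc (((Mon F j).filter (fun P => Irreducible P)).card : ℝ) *
              (j * (1 / (q F ^ j * (q F ^ j - 1)))) =
              (j * (((Mon F j).filter (fun P => Irreducible P)).card : ℝ)) *
              (1 / (q F ^ j * (q F ^ j - 1))) := by ring
          _ ≤ q F ^ j * (1 / (q F ^ j * (q F ^ j - 1))) := by
            apply mul_le_mul_of_nonneg_right h6
            positivity
          _ = 1 / (q F ^ j - 1) := by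
            field_simp
          _ ≤ 1 / (2 ^ j / 2) := by
            apply one_div_le_one_div_of_le (by positivity)
            linarith
          _ = 2 * (1 / 2) ^ j := by
            rw [one_div_div, one_div_pow]
            ring
      refine (sum_le_sum h4).trans ?_
      rw [← mul_sum]
      have h5 : ∑ j ∈ Icc 1 K, ((1 : ℝ) / 2) ^ j ≤ 1 := by
        have h6 : ∀ K : ℕ, ∑ j ∈ Icc 1 K, ((1 : ℝ) / 2) ^ j = 1 - (1 / 2) ^ K := by
          intro K
          induction K with
          | zero => simp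
          | succ K ih =>
            rw [sum_Icc_succ_top (by omega), ih]
            ring
        rw [h6]
        have : (0 : ℝ) < (1 / 2) ^ K := by positivity
        linarith
      linarith
    · intro i _ j _ hij
      change Disjoint _ _
      rw [disjoint_left]
      intro P hP hP'
      rw [mem_filter, mem_Mon] at hP hP'
      apply hij
      rw [← hP.1.2, ← hP'.1.2]
  linarith

omit [Fintype F] in
theorem sum_le_prod_one_add (T : Finset F[X]) :
    ((dg T : ℕ) : ℝ) + 1 ≤ ∏ P ∈ T, (1 + (P.natDegree : ℝ)) := by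
  classical
  unfold dg
  induction T using Finset.induction_on with
  | empty => simp
  | insert P T hP ih =>
    rw [sum_insert hP, prod_insert hP]
    push_cast
    have h1 : (0 : ℝ) ≤ P.natDegree := Nat.cast_nonneg _
    have h2 : (0 : ℝ) ≤ ∑ P ∈ T, (P.natDegree : ℝ) := sum_nonneg fun _ _ => Nat.cast_nonneg _
    push_cast at ih
    nlinarith

/-- `al` is `1` up to a summable error -/
theorem al_near {K m : ℕ} (hm : m ≤ K + 1) : ∑ d ∈ range m, |al F K d - 1| ≤ 2 * Real.exp 8 := by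
  classical
  have h1 : ∀ d ∈ range m, |al F K d - 1| ≤ ∑ T ∈ (PP F K).powerset, ∑ U ∈ T.powerset,
      if d < dg T + dg U then ∏ P ∈ T, ka P else 0 := by
    intro d hd
    rw [mem_range] at hd
    rw [al_gT (by omega : d ≤ K)]
    nth_rewrite 1 [← total_gT (F := F) K]
    rw [← sum_sub_distrib]
    refine (abs_sum_le_sum_abs _ _).trans (sum_le_sum fun T hT => ?_)
    rw [mem_powerset] at hT
    rw [← sum_sub_distrib]
    refine (abs_sum_le_sum_abs _ _).trans (sum_le_sum fun U _ => ?_)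
    by_cases h : dg T + dg U ≤ d
    · rw [if_pos h, if_neg (by omega), sub_self, abs_zero]
    · rw [if_neg h, if_pos (by omega), zero_sub, abs_neg, abs_gT hT]
  refine (sum_le_sum h1).trans ?_
  rw [sum_comm]
  have h2 := sum_abs_gT (F := F) K
  have h3 : ∑ T ∈ (PP F K).powerset, ∑ d ∈ range m, ∑ U ∈ T.powerset,
      (if d < dg T + dg U then ∏ P ∈ T, ka P else 0) ≤
      ∑ T ∈ (PP F K).powerset, ∑ _U ∈ T.powerset,
        2 * ((∏ P ∈ T, ka P) * ∏ P ∈ T, (1 + (P.natDegree : ℝ))) := by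
    apply sum_le_sum
    intro T hT
    rw [mem_powerset] at hT
    rw [sum_comm]
    apply sum_le_sum
    intro U hU
    rw [mem_powerset] at hU
    have hk : 0 ≤ ∏ P ∈ T, ka P := prod_nonneg fun P hP => (ka_pos (PP_mem hT P hP).2).le
    rw [← sum_filter, sum_const, nsmul_eq_mul]
    have h4 : ((range m).filter (fun d => d < dg T + dg U)).card ≤ dg T + dg U := by
      calc ((range m).filter (fun d => d < dg T + dg U)).card ≤ (range (dg T + dg U)).card := by
            apply card_le_card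
            intro d hd
            rw [mem_filter] at hd
            exact mem_range.2 hd.2
        _ = dg T + dg U := card_range _
    have h5 : dg U ≤ dg T := sum_le_sum_of_subset hU
    have h6 := sum_le_prod_one_add T
    have h7 : (((range m).filter (fun d => d < dg T + dg U)).card : ℝ) ≤ 2 * dg T := by
      have : ((range m).filter (fun d => d < dg T + dg U)).card ≤ 2 * dg T := by omega
      exact_mod_cast this
    nlinarith
  refine h3.trans ?_
  have h4 : ∑ T ∈ (PP F K).powerset, ∑ _U ∈ T.powerset,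
      2 * ((∏ P ∈ T, ka P) * ∏ P ∈ T, (1 + (P.natDegree : ℝ))) =
      2 * ∑ T ∈ (PP F K).powerset, ∑ _U ∈ T.powerset,
        (∏ P ∈ T, ka P) * ∏ P ∈ T, (1 + (P.natDegree : ℝ)) := by
    rw [mul_sum]
    apply sum_congr rfl
    intro T _
    rw [mul_sum]
  rw [h4]
  linarith

end Pool.Agent.H23.PC
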