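import Pool.Agent.H23.PC.Arith2

/-!
# The main term
-/

set_option autoImplicit false

open Finset Polynomial
open Pool.Agent.H341R2.Sharp (Mon mem_Mon)
open Pool.Agent.H23.FF

namespace Pool.Agent.H23.PC

variable (F : Type) [Field F] [Fintype F]

/-- an absolute constant -/
noncomputable def C0 : ℝ := 2 * Real.exp 8

theorem C0_pos : 0 < C0 := by
  unfold C0
  positivity

theorem al_abs {K d : ℕ} (hd : d ≤ K) : |al F K d - 1| ≤ C0 := by
  have h1 := al_near (F := F) (m := K + 1) (K := K) le_rfl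
  refine le_trans ?_ h1
  exact single_le_sum (f := fun d => |al F K d - 1|) (fun _ _ => abs_nonneg _)
    (mem_range.2 (by omega))

theorem geo_tail (x : ℝ) (hx : 2 ≤ x) (m r : ℕ) :
    x ^ m * ∑ d ∈ Ico m r, 1 / x ^ d ≤ 2 := by
  have h1 : ∀ r, m ≤ r → x ^ m * ∑ d ∈ Ico m r, 1 / x ^ d ≤ 2 - 2 * (x ^ m / x ^ r) := by
    intro r hr
    induction r, hr using Nat.le_induction with
    | base =>
      have : x ^ m ≠ 0 := by positivity
      rw [Ico_self, sum_empty, mul_zero, div_self this]
      norm_num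
    | succ r hr ih =>
      rw [sum_Ico_succ_top hr, mul_add]
      have h2 : 0 < x ^ m / x ^ r := by positivity
      have h3 : x ^ m * (1 / x ^ r) = x ^ m / x ^ r := by ring
      have h4 : x ^ m / x ^ (r + 1) = x ^ m / x ^ r / x := by
        rw [pow_succ, div_div]
      have h5 : x ^ m / x ^ r / x ≤ x ^ m / x ^ r / 2 := by
        apply div_le_div_of_nonneg_left h2.le (by norm_num) hx
      rw [h3, h4]
      linarith
  rcases le_total m r with h | h
  · have h2 := h1 r h
    have h3 : 0 < x ^ m / x ^ r := by positivity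
    linarith
  · rw [Ico_eq_empty_of_le h, sum_empty, mul_zero]
    norm_num

theorem AA_nonneg (s : ℕ) : 0 ≤ AA F s := by
  unfold AA
  positivity

theorem AA_le (r : ℕ) : AA F r ≤ 2 * (1 + C0) := by
  have hq := two_le_q F
  rw [AA_eq (le_refl r)]
  have h1 : ∑ d ∈ range (r + 1), al F r d / q F ^ d ≤
      ∑ d ∈ range (r + 1), (1 + C0) * (1 / q F ^ d) := by
    apply sum_le_sum
    intro d hd
    rw [mem_range] at hd
    have h2 := abs_le.1 (al_abs F (by omega : d ≤ r))
    have h3 : 0 < q F ^ d := by positivity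
    rw [mul_one_div]
    exact div_le_div_of_nonneg_right (by linarith [h2.2]) h3.le
  refine h1.trans ?_
  rw [← mul_sum]
  have h2 := geo_tail (q F) hq 0 (r + 1)
  rw [pow_zero, one_mul, ← range_eq_Ico] at h2
  have := C0_pos
  nlinarith

theorem main_sum {m r : ℕ} (hm : m ≤ r + 1) :
    |(q F - 1) * ∑ s ∈ range m, q F ^ s * AA F s - q F ^ m * AA F r + m| ≤ 2 + 3 * C0 := by
  have hq := two_le_q F
  have hC := C0_pos
  have h1 : ∀ k, k ≤ r + 1 → (q F - 1) * ∑ s ∈ range k, q F ^ s * AA F s =
      q F ^ k * ∑ d ∈ range k, al F r d / q F ^ d - ∑ d ∈ range k, al F r d := by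
    intro k
    induction k with
    | zero => simp
    | succ k ih =>
      intro hk
      rw [sum_range_succ, mul_add, ih (by omega), AA_eq (by omega : k ≤ r),
        sum_range_succ (fun d => al F r d / q F ^ d), sum_range_succ (fun d => al F r d)]
      have : q F ^ k ≠ 0 := by positivity
      field_simp
      ring
  have h2 : AA F r = ∑ d ∈ range m, al F r d / q F ^ d + ∑ d ∈ Ico m (r + 1), al F r d / q F ^ d := by
    rw [AA_eq (le_refl r), range_eq_Ico, range_eq_Ico,
      sum_Ico_consecutive _ (Nat.zero_le m) hm]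
  rw [h1 m hm, h2]
  have h3 : q F ^ m * ∑ d ∈ range m, al F r d / q F ^ d - ∑ d ∈ range m, al F r d -
      q F ^ m * (∑ d ∈ range m, al F r d / q F ^ d + ∑ d ∈ Ico m (r + 1), al F r d / q F ^ d) + m =
      - (∑ d ∈ range m, (al F r d - 1)) - q F ^ m * ∑ d ∈ Ico m (r + 1), al F r d / q F ^ d := by
    rw [sum_sub_distrib, sum_const, card_range, nsmul_eq_mul, mul_one]
    ring
  rw [h3]
  have h4 : |∑ d ∈ range m, (al F r d - 1)| ≤ C0 :=
    (abs_sum_le_sum_abs _ _).trans (al_near hm)
  have h5 : |q F ^ m * ∑ d ∈ Ico m (r + 1), al F r d / q F ^ d| ≤ 2 * (1 + C0) := by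
    have h6 : 0 < q F ^ m := by positivity
    rw [abs_mul, abs_of_pos h6]
    have h7 : |∑ d ∈ Ico m (r + 1), al F r d / q F ^ d| ≤
        ∑ d ∈ Ico m (r + 1), (1 + C0) * (1 / q F ^ d) := by
      refine (abs_sum_le_sum_abs _ _).trans (sum_le_sum fun d hd => ?_)
      rw [mem_Ico] at hd
      have h8 := abs_le.1 (al_abs F (by omega : d ≤ r))
      have h9 : 0 < q F ^ d := by positivity
      rw [abs_div, abs_of_pos h9, mul_one_div]
      apply div_le_div_of_nonneg_right _ h9.le
      rw [abs_le]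
      constructor <;> linarith [h8.1, h8.2]
    refine (mul_le_mul_of_nonneg_left h7 h6.le).trans ?_
    rw [← mul_sum]
    have h8 := geo_tail (q F) hq m (r + 1)
    nlinarith
  rw [abs_le] at h4 h5 ⊢
  constructor <;> linarith [h4.1, h4.2, h5.1, h5.2]

end Pool.Agent.H23.PC
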