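import Pool.Agent.H23.PC.Sw
import Pool.Agent.H23.PC.Arith3

/-!
# The mean over the moduli
-/

set_option autoImplicit false

open Finset Polynomial
open Pool.Agent.H341R2.Sharp (Mon mem_Mon)
open Pool.Agent.H23.FF

namespace Pool.Agent.H23.PC

variable (F : Type) [Field F] [Fintype F]

theorem one_le_pow_q (n : ℕ) : 1 ≤ q F ^ n := one_le_pow₀ (by have := two_le_q F; linarith)

theorem nat_le_pow (r : ℕ) : (r : ℝ) ≤ q F ^ r := by
  have h1 : (r : ℝ) ≤ 2 ^ r := by exact_mod_cast (Nat.lt_two_pow_self (n := r)).le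
  have h2 : (2 : ℝ) ^ r ≤ q F ^ r := pow_le_pow_left₀ (by norm_num) (two_le_q F) r
  linarith

theorem card_Mon_q (r : ℕ) : ((Mon F r).card : ℝ) = q F ^ r := by
  rw [card_Mon]
  unfold q
  push_cast
  rfl

/-- the diagonal -/
theorem co_zero_near {n : ℕ} (hn : 1 ≤ n) : |co n (0 : F[X]) - n * q F ^ n| ≤ 3 * q F ^ n := by
  rw [co_zero]
  refine (sum_vM_sq hn).trans ?_
  have h1 := sq_le_two_pow (F := F) n
  have h2 : 0 < q F ^ n := by have := q_pos F; positivity
  have h3 : (2 * (n : ℝ) * √(q F ^ n)) ^ 2 ≤ (3 * q F ^ n) ^ 2 := by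
    rw [mul_pow, mul_pow, Real.sq_sqrt h2.le]
    nlinarith
  have := abs_le_of_sq_le_sq' h3 (by positivity)
  have h4 : √(q F ^ n) = √(q F) ^ n := by
    rw [Real.sqrt_eq_iff_mul_self_eq h2.le (by positivity), ← mul_pow,
      Real.mul_self_sqrt (q_pos F).le]
  rw [h4] at this
  linarith [this.2]

/-- the sum over the moduli, the part of the pairs -/
theorem pairs {n r m : ℕ} (hr : r + m ≤ n) :
    |∑ s ∈ range m, ∑ S ∈ Mon F s, (BB n (r + 1) S - BB n r S) -
      q F ^ (n + r) * ((q F - 1) * ∑ s ∈ range m, q F ^ s * AA F s)| ≤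
      8 * (n : ℝ) ^ 2 * q F ^ (n + m) := by
  have hq := q_pos F
  have h1 : ∀ s ∈ range m, ∀ S ∈ Mon F s, |BB n (r + 1) S - BB n r S -
      q F ^ (n + r) * ((q F - 1) * (q F ^ s * (1 / phi S)))| ≤ 8 * (n : ℝ) ^ 2 * q F ^ n := by
    intro s hs S hS
    rw [mem_range] at hs
    rw [mem_Mon] at hS
    obtain ⟨l, hl⟩ : ∃ l, n = s + (r + 1) + l := ⟨n - s - (r + 1), by omega⟩
    have h2 := BB_near hS.1 hS.2 hl (by omega)
    have h3 := BB_near (n := n) (m := r) (l := l + 1) hS.1 hS.2 (by omega) (by omega)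
    rw [abs_le] at h2 h3 ⊢
    have e1 : q F ^ (n + s + (r + 1)) / phi S - q F ^ (n + s + r) / phi S =
        q F ^ (n + r) * ((q F - 1) * (q F ^ s * (1 / phi S))) := by
      rw [show n + s + (r + 1) = (n + r) + s + 1 by omega, show n + s + r = (n + r) + s by omega,
        pow_succ, pow_add]
      ring
    rw [← e1]
    constructor <;> linarith [h2.1, h2.2, h3.1, h3.2]
  have h2 : q F ^ (n + r) * ((q F - 1) * ∑ s ∈ range m, q F ^ s * AA F s) =
      ∑ s ∈ range m, ∑ S ∈ Mon F s, q F ^ (n + r) * ((q F - 1) * (q F ^ s * (1 / (phi S : ℝ)))) := by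
    rw [mul_sum, mul_sum]
    apply sum_congr rfl
    intro s _
    unfold AA
    rw [mul_sum, mul_sum, mul_sum]
  rw [h2, ← sum_sub_distrib]
  refine (abs_sum_le_sum_abs _ _).trans ?_
  have h3 : ∀ s ∈ range m, |∑ S ∈ Mon F s, (BB n (r + 1) S - BB n r S) -
      ∑ S ∈ Mon F s, q F ^ (n + r) * ((q F - 1) * (q F ^ s * (1 / (phi S : ℝ))))| ≤
      q F ^ s * (8 * (n : ℝ) ^ 2 * q F ^ n) := by
    intro s hs
    rw [← sum_sub_distrib]
    refine (abs_sum_le_sum_abs _ _).trans ?_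
    refine (sum_le_sum (h1 s hs)).trans ?_
    rw [sum_const, nsmul_eq_mul, card_Mon_q]
  refine (sum_le_sum h3).trans ?_
  rw [← sum_mul]
  have h4 : ∑ s ∈ range m, q F ^ s ≤ q F ^ m := by
    have h5 := geom_sum_mul (q F) m
    have h6 := two_le_q F
    have h7 : 0 ≤ ∑ s ∈ range m, q F ^ s := by positivity
    nlinarith
  calc (∑ s ∈ range m, q F ^ s) * (8 * (n : ℝ) ^ 2 * q F ^ n)
      ≤ q F ^ m * (8 * (n : ℝ) ^ 2 * q F ^ n) := mul_le_mul_of_nonneg_right h4 (by positivity)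
    _ = _ := by rw [pow_add]; ring

/-- **The mean square over all the classes, the intervals and the moduli.** -/
theorem core {n r m : ℕ} (hn : 1 ≤ n) (hr : r + m ≤ n) (hm : m ≤ r + 1) :
    |∑ R ∈ Mon F r, VV n m R / q F ^ m - q F ^ (n + r) * (n - m)| ≤
      (9 + 7 * C0) * q F ^ (n + r) + 8 * (n : ℝ) ^ 2 * q F ^ (n + m) := by
  have hq := q_pos F
  have hC := C0_pos
  obtain ⟨l, hl⟩ : ∃ l, n = r + m + l := ⟨n - (r + m), by omega⟩
  have h1 : ∀ R ∈ Mon F r, VV n m R / q F ^ m = (BB n m R - co n (0 : F[X])) + co n (0 : F[X]) -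
      q F ^ (n + r + m) * (1 / phi R) + 2 * (q F ^ (r + m) * (1 / phi R)) * (q F ^ n - Vc n R) := by
    intro R hR
    rw [mem_Mon] at hR
    rw [VV_eq hR.1 hR.2 hl]
    have h2 : q F ^ m ≠ 0 := by positivity
    rw [mul_div_cancel_left₀ _ h2, show n + r + m = n + (r + m) by omega, pow_add (q F) n (r + m)]
    ring
  rw [sum_congr rfl h1, sum_add_distrib, sum_sub_distrib, sum_add_distrib, switch_BB,
    sum_const, nsmul_eq_mul, card_Mon_q, ← mul_sum]
  change |_ + _ - q F ^ (n + r + m) * AA F r + _ - _| ≤ _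
  have h2 := pairs F hr
  have h3 := co_zero_near F hn
  have h4 := main_sum F hm
  have h5 : |∑ R ∈ Mon F r, 2 * (q F ^ (r + m) * (1 / (phi R : ℝ))) * (q F ^ n - Vc n R)| ≤
      4 * (1 + C0) * q F ^ (n + r) := by
    have h6 : ∀ R ∈ Mon F r, |2 * (q F ^ (r + m) * (1 / (phi R : ℝ))) * (q F ^ n - Vc n R)| ≤
        2 * r * q F ^ (r + m) * (1 / (phi R : ℝ)) := by
      intro R hR
      rw [mem_Mon] at hR
      obtain ⟨h7, h8⟩ := sum_vM_cop hR.1 hn
      change Vc n R ≤ q F ^ n at h7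
      change q F ^ n - R.natDegree ≤ Vc n R at h8
      rw [hR.2] at h8
      have h9 : 0 ≤ 2 * (q F ^ (r + m) * (1 / (phi R : ℝ))) := by positivity
      rw [abs_mul, abs_of_nonneg h9, abs_of_nonneg (by linarith)]
      calc 2 * (q F ^ (r + m) * (1 / (phi R : ℝ))) * (q F ^ n - Vc n R)
          ≤ 2 * (q F ^ (r + m) * (1 / (phi R : ℝ))) * r :=
            mul_le_mul_of_nonneg_left (by linarith) h9
        _ = _ := by ring
    refine (abs_sum_le_sum_abs _ _).trans ((sum_le_sum h6).trans ?_)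
    rw [← mul_sum]
    change 2 * (r : ℝ) * q F ^ (r + m) * AA F r ≤ _
    have h7 := AA_le F r
    have h8 := nat_le_pow F r
    have h9 : (r : ℝ) * q F ^ (r + m) ≤ q F ^ (n + r) := by
      have h10 : q F ^ (r + m) ≤ q F ^ n := pow_le_pow_right₀ (by have := two_le_q F; linarith) hr
      calc (r : ℝ) * q F ^ (r + m) ≤ q F ^ r * q F ^ n :=
            mul_le_mul h8 h10 (by positivity) (by positivity)
        _ = _ := by rw [pow_add]; ring
    have h11 := AA_nonneg F r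
    calc 2 * (r : ℝ) * q F ^ (r + m) * AA F r = 2 * ((r : ℝ) * q F ^ (r + m)) * AA F r := by ring
      _ ≤ 2 * q F ^ (n + r) * (2 * (1 + C0)) := by
          apply mul_le_mul _ h7 h11 (by positivity)
          linarith
      _ = _ := by ring
  have h6 : |q F ^ r * co n (0 : F[X]) - q F ^ (n + r) * n| ≤ 3 * q F ^ (n + r) := by
    have h7 : q F ^ r * co n (0 : F[X]) - q F ^ (n + r) * n =
        q F ^ r * (co n (0 : F[X]) - n * q F ^ n) := by
      rw [pow_add]
      ring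
    have h8 : 0 < q F ^ r := by positivity
    rw [h7, abs_mul, abs_of_pos h8]
    calc q F ^ r * |co n (0 : F[X]) - n * q F ^ n| ≤ q F ^ r * (3 * q F ^ n) :=
          mul_le_mul_of_nonneg_left h3 h8.le
      _ = _ := by rw [pow_add]; ring
  have h7 : |q F ^ (n + r) * ((q F - 1) * ∑ s ∈ range m, q F ^ s * AA F s) -
      q F ^ (n + r + m) * AA F r + q F ^ (n + r) * m| ≤ q F ^ (n + r) * (2 + 3 * C0) := by
    have h8 : q F ^ (n + r) * ((q F - 1) * ∑ s ∈ range m, q F ^ s * AA F s) -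
        q F ^ (n + r + m) * AA F r + q F ^ (n + r) * m = q F ^ (n + r) *
        ((q F - 1) * ∑ s ∈ range m, q F ^ s * AA F s - q F ^ m * AA F r + m) := by
      rw [pow_add (q F) (n + r) m]
      ring
    have h9 : 0 < q F ^ (n + r) := by positivity
    rw [h8, abs_mul, abs_of_pos h9]
    exact mul_le_mul_of_nonneg_left h4 h9.le
  rw [abs_le] at h2 h5 h6 h7 ⊢
  constructor <;> linarith [h2.1, h2.2, h5.1, h5.2, h6.1, h6.2, h7.1, h7.2]

/-- the same for all `m` -/
theorem core' {n r m : ℕ} (hn : 1 ≤ n) (hr : r + m ≤ n) :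
    |∑ R ∈ Mon F r, VV n m R / q F ^ m - q F ^ (n + r) * (n - m)| ≤
      (9 + 7 * C0) * q F ^ (n + r) + 8 * (n : ℝ) ^ 2 * q F ^ (n + m) := by
  have hq := q_pos F
  have hC := C0_pos
  rcases le_or_gt m (r + 1) with hm | hm
  · exact core F hn hr hm
  obtain ⟨l, hl⟩ : ∃ l, n = r + m + l := ⟨n - (r + m), by omega⟩
  have h1 : ∑ R ∈ Mon F r, VV n m R / q F ^ m ≤ q F ^ r * (2 * (n : ℝ) ^ 2 * q F ^ n) := by
    have h2 : ∀ R ∈ Mon F r, VV n m R / q F ^ m ≤ 2 * (n : ℝ) ^ 2 * q F ^ n := by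
      intro R hR
      rw [mem_Mon] at hR
      rw [div_le_iff₀ (by positivity), mul_comm _ (q F ^ m)]
      exact VV_le hR.1 hR.2 hl (by omega)
    refine (sum_le_sum h2).trans ?_
    rw [sum_const, nsmul_eq_mul, card_Mon_q]
  have h2 : 0 ≤ ∑ R ∈ Mon F r, VV n m R / q F ^ m := by
    apply sum_nonneg
    intro R _
    exact div_nonneg (VV_nonneg n m R) (by positivity)
  have h3 : q F ^ r * (2 * (n : ℝ) ^ 2 * q F ^ n) ≤ 2 * (n : ℝ) ^ 2 * q F ^ (n + m) := by
    have h4 : q F ^ r ≤ q F ^ m := pow_le_pow_right₀ (by have := two_le_q F; linarith) (by omega)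
    calc q F ^ r * (2 * (n : ℝ) ^ 2 * q F ^ n) ≤ q F ^ m * (2 * (n : ℝ) ^ 2 * q F ^ n) :=
          mul_le_mul_of_nonneg_right h4 (by positivity)
      _ = _ := by rw [pow_add]; ring
  have hnm : (0 : ℝ) ≤ n - m := by
    have : (m : ℝ) ≤ n := by exact_mod_cast (by omega : m ≤ n)
    linarith
  have hnm' : (n : ℝ) - m ≤ n := by
    have : (0 : ℝ) ≤ m := Nat.cast_nonneg m
    linarith
  have hn1 : (1 : ℝ) ≤ n := by exact_mod_cast hn
  have h5 : q F ^ (n + r) * (n - m) ≤ (n : ℝ) ^ 2 * q F ^ (n + m) := by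
    have h6 : q F ^ (n + r) ≤ q F ^ (n + m) :=
      pow_le_pow_right₀ (by have := two_le_q F; linarith) (by omega)
    calc q F ^ (n + r) * (n - m) ≤ q F ^ (n + m) * (n : ℝ) ^ 2 := by
          apply mul_le_mul h6 _ hnm (by positivity)
          nlinarith
      _ = _ := by ring
  have h6 : 0 ≤ q F ^ (n + r) * ((n : ℝ) - m) := mul_nonneg (by positivity) hnm
  have h7 : 0 < q F ^ (n + r) := by positivity
  have h8 : 0 < (n : ℝ) ^ 2 * q F ^ (n + m) := by positivity
  have h9 : 0 ≤ C0 * q F ^ (n + r) := by positivity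
  rw [abs_le]
  constructor <;> nlinarith

end Pool.Agent.H23.PC
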