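import Pool.Agent.H23.PC.Core

/-!
# Dirichlet characters of `F[X]`; descent to a smaller modulus
-/

set_option autoImplicit false

open Finset Polynomial ComplexConjugate
open Pool.Agent.H341R2.Sharp (Mon mem_Mon)
open Pool.Agent.Q284.PS (Hay PD)
open Pool.Agent.Q284.WE (trc NonPr)
open Pool.Agent.H23.FF

namespace Pool.Agent.H23.PC

variable {F : Type} [Field F] [Fintype F]

/-- Dirichlet characters, as functions on `F[X]` -/
structure DC (D : F[X]) (χ : F[X] → ℂ) : Prop where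
  monic : D.Monic
  one : χ 1 = 1
  mul : ∀ a b, χ (a * b) = χ a * χ b
  per : ∀ a b, D ∣ a - b → χ a = χ b
  zero : ∀ a, ¬ IsCoprime a D → χ a = 0

omit [Fintype F] in
theorem DC.pow {D : F[X]} {χ : F[X] → ℂ} (h : DC D χ) (a : F[X]) (k : ℕ) : χ (a ^ k) = χ a ^ k := by
  induction k with
  | zero => rw [pow_zero, pow_zero, h.one]
  | succ k ih => rw [pow_succ, pow_succ, h.mul, ih]

theorem DC.norm {D : F[X]} {χ : F[X] → ℂ} (h : DC D χ) {a : F[X]} (ha : IsCoprime a D) :
    ‖χ a‖ = 1 := by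
  have hfin := finite_adj h.monic
  have hfin' : Finite (AdjoinRoot D)ˣ := inferInstance
  have h1 : un D a ^ Nat.card (AdjoinRoot D)ˣ = 1 := pow_card_eq_one'
  have hN : Nat.card (AdjoinRoot D)ˣ ≠ 0 := Nat.card_pos.ne'
  have h2 : AdjoinRoot.mk D (a ^ Nat.card (AdjoinRoot D)ˣ) = AdjoinRoot.mk D 1 := by
    rw [map_pow, ← un_coe ha, ← Units.val_pow_eq_pow_val, h1, Units.val_one, map_one]
  rw [AdjoinRoot.mk_eq_mk] at h2
  have h3 : χ a ^ Nat.card (AdjoinRoot D)ˣ = 1 := by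
    rw [← h.pow, h.per _ _ h2, h.one]
  exact Complex.norm_eq_one_of_pow_eq_one h3 hN

theorem DC.ne_zero {D : F[X]} {χ : F[X] → ℂ} (h : DC D χ) {a : F[X]} (ha : IsCoprime a D) :
    χ a ≠ 0 := by
  intro h0
  have := h.norm ha
  rw [h0, norm_zero] at this
  exact zero_ne_one this

theorem DC.norm_le {D : F[X]} {χ : F[X] → ℂ} (h : DC D χ) (a : F[X]) : ‖χ a‖ ≤ 1 := by
  by_cases ha : IsCoprime a D
  · exact (h.norm ha).le
  · rw [h.zero a ha, norm_zero]
    exact zero_le_one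

omit [Fintype F] in
theorem exists_prime_of_not_coprime {a b : F[X]} (h : ¬ IsCoprime a b) (h0 : b ≠ 0) :
    ∃ P : F[X], P.Monic ∧ Irreducible P ∧ P ∣ a ∧ P ∣ b := by
  by_contra hc
  push Not at hc
  apply h
  apply isCoprime_of_irreducible_dvd (fun h1 => h0 h1.2)
  intro z hz hza hzb
  obtain ⟨P, hP, hP', hPz⟩ := exists_monic_irreducible_factor z hz.not_isUnit
  exact hc P hP hP' (hPz.trans hza) (hPz.trans hzb)

/-- avoiding the primes -/
theorem avoid {D' D f : F[X]} (hD : D.Monic) (hf : IsCoprime f D') :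
    ∃ t : F[X], IsCoprime (f + D' * t) D := by
  classical
  set S := (PP F D.natDegree).filter (fun P => P ∣ D ∧ ¬ P ∣ f) with hS
  refine ⟨∏ P ∈ S, P, ?_⟩
  by_contra hc
  obtain ⟨P, hP, hP', hP1, hP2⟩ := exists_prime_of_not_coprime hc hD.ne_zero
  by_cases hPf : P ∣ f
  · have h1 : P ∣ D' * ∏ P ∈ S, P := (dvd_add_right hPf).1 hP1
    rcases hP'.prime.dvd_or_dvd h1 with h2 | h2
    · exact hP'.not_isUnit (hf.isUnit_of_dvd' hPf h2)
    · obtain ⟨R, hR, hR'⟩ := (hP'.prime.dvd_finsetProd_iff _).1 h2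
      rw [hS, mem_filter, mem_PP] at hR
      have h3 := monic_irr_dvd_eq hP hP' hR.1.1 hR.1.2.1 hR'
      rw [← h3] at hR
      exact hR.2.2 hPf
  · have h1 : P ∈ S := by
      rw [hS, mem_filter, mem_PP]
      exact ⟨⟨hP, hP', natDegree_le_of_dvd hP2 hD.ne_zero⟩, hP2, hPf⟩
    have h2 : P ∣ D' * ∏ P ∈ S, P := (dvd_prod_of_mem _ h1).mul_left _
    exact hPf ((dvd_add_left h2).1 hP1)

/-- descent -/
theorem descend {D D' : F[X]} {χ : F[X] → ℂ} (h : DC D χ) (hD' : D'.Monic) (hdvd : D' ∣ D)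
    (htriv : ∀ f, D' ∣ f - 1 → IsCoprime f D → χ f = 1) :
    ∃ χ' : F[X] → ℂ, DC D' χ' ∧ ∀ f, IsCoprime f D → χ f = χ' f := by
  classical
  have key : ∀ f g, IsCoprime f D → IsCoprime g D → D' ∣ f - g → χ f = χ g := by
    intro f g hf hg hfg
    have hg0 := hg
    obtain ⟨a, b, hab⟩ := hg
    have ha : IsCoprime a D := ⟨g, b, by rw [mul_comm]; exact hab⟩
    have h1 : χ (a * f) = 1 := by
      apply htriv _ _ (ha.mul_left hf)
      have e : a * f - 1 = a * (f - g) - b * D := by rw [← hab]; ring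
      rw [e]
      exact dvd_sub (hfg.mul_left _) (hdvd.mul_left _)
    have h2 : χ (a * g) = 1 := by
      rw [h.per (a * g) 1 ⟨-b, by rw [← hab]; ring⟩, h.one]
    rw [h.mul] at h1 h2
    exact mul_left_cancel₀ (h.ne_zero ha) (h1.trans h2.symm)
  have hex : ∀ f, IsCoprime f D' → ∃ g, D' ∣ g - f ∧ IsCoprime g D := by
    intro f hf
    obtain ⟨t, ht⟩ := avoid h.monic hf
    exact ⟨f + D' * t, ⟨t, by ring⟩, ht⟩
  choose! L hL using hex
  have hcop : ∀ f g, D' ∣ f - g → IsCoprime f D' → IsCoprime g D' := by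
    intro f g hfg hf
    obtain ⟨y, hy⟩ := hfg
    have : g = f + D' * (-y) := by
      have : g = f - (f - g) := by ring
      rw [this, hy]; ring
    rw [this]
    exact hf.add_mul_left_left _
  refine ⟨fun f => if IsCoprime f D' then χ (L f) else 0, ⟨hD', ?_, ?_, ?_, ?_⟩, ?_⟩
  · have h1 : IsCoprime (1 : F[X]) D' := isCoprime_one_left
    change (if IsCoprime (1 : F[X]) D' then χ (L 1) else 0) = 1
    rw [if_pos h1]
    obtain ⟨h2, h3⟩ := hL 1 h1
    rw [key (L 1) 1 h3 isCoprime_one_left h2, h.one]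
  · intro a b
    change (if IsCoprime (a * b) D' then χ (L (a * b)) else 0) =
      (if IsCoprime a D' then χ (L a) else 0) * (if IsCoprime b D' then χ (L b) else 0)
    by_cases ha : IsCoprime a D'
    · by_cases hb : IsCoprime b D'
      · rw [if_pos (ha.mul_left hb), if_pos ha, if_pos hb, ← h.mul]
        obtain ⟨h1, h2⟩ := hL _ (ha.mul_left hb)
        obtain ⟨h3, h4⟩ := hL _ ha
        obtain ⟨h5, h6⟩ := hL _ hb
        apply key _ _ h2 (h4.mul_left h6)
        have e : L (a * b) - L a * L b = (L (a * b) - a * b) - (L a - a) * L b - a * (L b - b) := by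
          ring
        rw [e]
        exact dvd_sub (dvd_sub h1 (h3.mul_right _)) (h5.mul_left _)
      · rw [if_neg (fun hh => hb hh.of_mul_left_right), if_neg hb, mul_zero]
    · rw [if_neg (fun hh => ha hh.of_mul_left_left), if_neg ha, zero_mul]
  · intro a b hab
    change (if IsCoprime a D' then χ (L a) else 0) = (if IsCoprime b D' then χ (L b) else 0)
    by_cases ha : IsCoprime a D'
    · have hb := hcop a b hab ha
      rw [if_pos ha, if_pos hb]
      obtain ⟨h3, h4⟩ := hL _ ha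
      obtain ⟨h5, h6⟩ := hL _ hb
      apply key _ _ h4 h6
      have e : L a - L b = (L a - a) - (L b - b) + (a - b) := by ring
      rw [e]
      exact dvd_add (dvd_sub h3 h5) hab
    · have hb : ¬ IsCoprime b D' := fun hb => ha (hcop b a (by
        rw [← neg_sub]
        exact (dvd_neg).2 hab) hb)
      rw [if_neg ha, if_neg hb]
  · intro a ha
    change (if IsCoprime a D' then χ (L a) else 0) = 0
    rw [if_neg ha]
  · intro f hf
    have hf' : IsCoprime f D' := hf.of_isCoprime_of_dvd_right hdvd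
    change χ f = (if IsCoprime f D' then χ (L f) else 0)
    rw [if_pos hf']
    obtain ⟨h1, h2⟩ := hL f hf'
    exact (key (L f) f h2 hf h1).symm

/-- the character modulo `Q` is induced by the character modulo `D` -/
def Ind (Q : F[X]) (χ : F[X] → ℂ) (D : F[X]) (χ' : F[X] → ℂ) : Prop :=
  D ∣ Q ∧ DC D χ' ∧ ∀ f, IsCoprime f Q → χ f = χ' f

/-- a form of primitivity -/
def Pri (D : F[X]) (χ' : F[X] → ℂ) : Prop :=
  ∀ D' : F[X], D'.Monic → D' ∣ D → D' ≠ D → ∃ f, D' ∣ f - 1 ∧ IsCoprime f D ∧ χ' f ≠ 1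

theorem exists_prim {Q : F[X]} {χ : F[X] → ℂ} (h : DC Q χ) :
    ∃ (D : F[X]) (χ' : F[X] → ℂ), Ind Q χ D χ' ∧ Pri D χ' := by
  classical
  have hne : ∃ n : ℕ, ∃ (D : F[X]) (χ' : F[X] → ℂ), Ind Q χ D χ' ∧ D.natDegree = n :=
    ⟨_, Q, χ, ⟨dvd_rfl, h, fun _ _ => rfl⟩, rfl⟩
  obtain ⟨D, χ', hI, hn⟩ := Nat.find_spec hne
  refine ⟨D, χ', hI, ?_⟩
  intro D' hm hd hne'
  by_contra hc
  push Not at hc
  obtain ⟨χ'', h1, h2⟩ := descend hI.2.1 hm hd hc
  have hlt : D'.natDegree < D.natDegree := by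
    rcases lt_or_eq_of_le (natDegree_le_of_dvd hd hI.2.1.monic.ne_zero) with h3 | h3
    · exact h3
    · exfalso
      apply hne'
      exact eq_of_dvd_of_natDegree_le_of_leadingCoeff hd h3.ge
        (by rw [hm.leadingCoeff, hI.2.1.monic.leadingCoeff])
  have h3 := Nat.find_min hne (m := D'.natDegree) (by rw [← hn]; exact hlt)
  apply h3
  refine ⟨D', χ'', ⟨hd.trans hI.1, h1, fun f hf => ?_⟩, rfl⟩
  rw [hI.2.2 f hf]
  exact h2 f (hf.of_isCoprime_of_dvd_right hI.1)

omit [Fintype F] in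
theorem coprime_of_isUnit_mk {g f : F[X]} (h : IsUnit (AdjoinRoot.mk g f)) : IsCoprime f g := by
  obtain ⟨v, hv⟩ := isUnit_iff_exists_inv.1 h
  obtain ⟨y, rfl⟩ := AdjoinRoot.mk_surjective v
  rw [← map_mul, ← map_one (AdjoinRoot.mk g), AdjoinRoot.mk_eq_mk] at hv
  obtain ⟨z, hz⟩ := hv
  refine ⟨y, -z, ?_⟩
  have : f * y = 1 + g * z := by rw [← hz]; ring
  calc y * f + -z * g = f * y - g * z := by ring
    _ = 1 := by rw [this]; ring

omit [Fintype F] in
/-- the function of a character of the residue class ring -/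
theorem dc_of_char {Q : F[X]} (hQ : Q.Monic) (χ : MulChar (AdjoinRoot Q) ℂ) :
    DC Q (fun f => χ (AdjoinRoot.mk Q f)) := by
  refine ⟨hQ, ?_, ?_, ?_, ?_⟩
  · change χ (AdjoinRoot.mk Q 1) = 1
    rw [map_one, map_one]
  · intro a b
    change χ (AdjoinRoot.mk Q (a * b)) = _
    rw [map_mul, map_mul]
  · intro a b h
    change χ (AdjoinRoot.mk Q a) = χ (AdjoinRoot.mk Q b)
    rw [AdjoinRoot.mk_eq_mk.2 h]
  · intro a h
    change χ (AdjoinRoot.mk Q a) = 0
    apply χ.map_nonunit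
    intro hu
    exact h (coprime_of_isUnit_mk hu)

/-- a representative -/
noncomputable def rep (D : F[X]) (x : AdjoinRoot D) : F[X] :=
  Function.surjInv AdjoinRoot.mk_surjective x

omit [Fintype F] in
theorem mk_rep (D : F[X]) (x : AdjoinRoot D) : AdjoinRoot.mk D (rep D x) = x :=
  Function.surjInv_eq AdjoinRoot.mk_surjective x

/-- the character of the residue class ring -/
noncomputable def ofDC {D : F[X]} {χ' : F[X] → ℂ} (h : DC D χ') : MulChar (AdjoinRoot D) ℂ where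
  toFun x := χ' (rep D x)
  map_one' := by
    rw [← h.one]
    apply h.per
    rw [← AdjoinRoot.mk_eq_mk, mk_rep, map_one]
  map_mul' x y := by
    rw [← h.mul]
    apply h.per
    rw [← AdjoinRoot.mk_eq_mk, mk_rep, map_mul, mk_rep, mk_rep]
  map_nonunit' x hx := by
    apply h.zero
    intro hc
    apply hx
    have := isUnit_mk hc
    rwa [mk_rep] at this

omit [Fintype F] in
theorem ofDC_mk {D : F[X]} {χ' : F[X] → ℂ} (h : DC D χ') (f : F[X]) :
    ofDC h (AdjoinRoot.mk D f) = χ' f := by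
  change χ' (rep D (AdjoinRoot.mk D f)) = χ' f
  apply h.per
  rw [← AdjoinRoot.mk_eq_mk, mk_rep]

end Pool.Agent.H23.PC
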