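import Pool.Agent.H23.PC.Simple

/-!
# Eleven twelfths of the zeros are simple
-/

set_option autoImplicit false

open Finset Polynomial ComplexConjugate
open Pool.Agent.H341R2.Sharp (Mon mem_Mon)
open Pool.Agent.H23.FF

namespace Pool.Agent.H23.PC

variable {F : Type} [Field F] [Fintype F]

theorem Av_sum {Q : F[X]} (hQ : Q.Monic) (S : Finset ℕ) (G : ℕ → MulChar (AdjoinRoot Q) ℂ → ℝ) :
    Av Q (fun χ => ∑ j ∈ S, G j χ) = ∑ j ∈ S, Av Q (G j) := by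
  classical
  have hfin := finite_char hQ
  have hft : Fintype (MulChar (AdjoinRoot Q) ℂ) := Fintype.ofFinite _
  rw [Av_eq, sum_comm, sum_div]
  apply sum_congr rfl
  intro j _
  rw [Av_eq]

/-- a weighted sum -/
noncomputable def WW (g : ℕ → ℝ) (R : ℕ) : ℝ := ∑ j ∈ range R, ((R : ℝ) - j) * g j

theorem WW_succ (g : ℕ → ℝ) (R : ℕ) : WW g (R + 1) = WW g R + ∑ j ∈ range (R + 1), g j := by
  unfold WW
  rw [sum_range_succ, sum_range_succ (fun j => g j)]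
  have h7 : ∑ j ∈ range R, (((R + 1 : ℕ) : ℝ) - j) * g j =
      ∑ j ∈ range R, ((R : ℝ) - j) * g j + ∑ j ∈ range R, g j := by
    rw [← sum_add_distrib]
    apply sum_congr rfl
    intro j _
    push_cast
    ring
  rw [h7]
  push_cast
  ring

theorem min_small (M R : ℕ) (h : R ≤ M) : ∑ j ∈ range (R + 1), ((min j M : ℕ) : ℝ) = R * (R + 1) / 2 := by
  induction R with
  | zero => simp
  | succ R ih =>
    rw [sum_range_succ, ih (by omega), min_eq_left h]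
    push_cast
    ring

theorem WW_small (M R : ℕ) (h : R ≤ M) :
    WW (fun j => ((min j M : ℕ) : ℝ)) R = ((R : ℝ) ^ 3 - R) / 6 := by
  induction R with
  | zero => simp [WW]
  | succ R ih =>
    rw [WW_succ, ih (by omega), min_small M R (by omega)]
    push_cast
    ring

theorem min_large (M m : ℕ) : ∑ j ∈ range (M + m + 1), ((min j M : ℕ) : ℝ) =
    M * (M + 1) / 2 + M * m := by
  induction m with
  | zero =>
    rw [add_zero, min_small M M le_rfl]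
    simp
  | succ m ih =>
    rw [← add_assoc, sum_range_succ, ih, min_eq_right (by omega)]
    push_cast
    ring

theorem WW_large (M m : ℕ) : WW (fun j => ((min j M : ℕ) : ℝ)) (M + m) =
    (M * ((M : ℝ) + m) ^ 2 - (M + m) * (M : ℝ) ^ 2 + (M : ℝ) ^ 3 / 3 - M / 3) / 2 := by
  induction m with
  | zero =>
    rw [add_zero, WW_small M M le_rfl]
    push_cast
    ring
  | succ m ih =>
    rw [← add_assoc, WW_succ, ih, min_large]
    push_cast
    ring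

theorem WW_min_le {M R : ℕ} (h : M ≤ R) : 2 * ∑ j ∈ Ico 1 R, ((R : ℝ) - j) * ((min j M : ℕ) : ℝ) ≤
    M * (R : ℝ) ^ 2 - R * (M : ℝ) ^ 2 + (M : ℝ) ^ 3 / 3 := by
  obtain ⟨m, rfl⟩ := Nat.exists_eq_add_of_le h
  have h1 := WW_large M m
  have h2 : ∑ j ∈ Ico 1 (M + m), (((M + m : ℕ) : ℝ) - j) * ((min j M : ℕ) : ℝ) ≤
      WW (fun j => ((min j M : ℕ) : ℝ)) (M + m) := by
    unfold WW
    apply sum_le_sum_of_subset_of_nonneg
    · intro j hj
      rw [mem_Ico] at hj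
      rw [mem_range]
      exact hj.2
    · intro j hj _
      rw [mem_range] at hj
      have : (j : ℝ) ≤ ((M + m : ℕ) : ℝ) := by exact_mod_cast hj.le
      exact mul_nonneg (by linarith) (Nat.cast_nonneg _)
  have h3 : (0 : ℝ) ≤ M := Nat.cast_nonneg M
  push_cast at *
  linarith

variable (F) in
theorem X_sum {M R : ℕ} (hM : 1 ≤ M) (hR : R ≤ 2 * M) (hr : (M : ℝ) ≤ q F ^ (2 * M - R)) :
    ∑ j ∈ Ico 1 R, (j : ℝ) ^ 2 * q F ^ j / q F ^ (2 * M) ≤ 2 * R := by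
  have hq := two_le_q F
  have hq0 := q_pos F
  have h1 : ∀ j ∈ Ico 1 R, (j : ℝ) ^ 2 * q F ^ j / q F ^ (2 * M) ≤
      (R : ℝ) ^ 2 / q F ^ (2 * M) * q F ^ j := by
    intro j hj
    rw [mem_Ico] at hj
    have h2 : (j : ℝ) ^ 2 ≤ (R : ℝ) ^ 2 := by
      apply pow_le_pow_left₀ (Nat.cast_nonneg _)
      exact_mod_cast hj.2.le
    have h3 : 0 < q F ^ j := by positivity
    have h4 : 0 < q F ^ (2 * M) := by positivity
    rw [div_mul_eq_mul_div]
    exact div_le_div_of_nonneg_right (mul_le_mul_of_nonneg_right h2 h3.le) h4.le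
  have h2 : ∑ j ∈ Ico 1 R, q F ^ j ≤ q F ^ R := by
    have h3 : ∑ j ∈ Ico 1 R, q F ^ j ≤ ∑ j ∈ range R, q F ^ j := by
      apply sum_le_sum_of_subset_of_nonneg
      · intro j hj
        rw [mem_Ico] at hj
        rw [mem_range]
        exact hj.2
      · intro j _ _
        positivity
    have h4 := geom_sum_mul (q F) R
    have h5 : 0 ≤ ∑ j ∈ range R, q F ^ j := by positivity
    nlinarith
  refine (sum_le_sum h1).trans ?_
  rw [← mul_sum]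
  have h3 : 0 ≤ (R : ℝ) ^ 2 / q F ^ (2 * M) := by positivity
  have hM0 : (0 : ℝ) < M := by exact_mod_cast hM
  have e : q F ^ (2 * M) = q F ^ R * q F ^ (2 * M - R) := by
    rw [← pow_add]
    congr 1
    omega
  have h4 : (R : ℝ) ≤ 2 * M := by exact_mod_cast hR
  have h5 : (0 : ℝ) ≤ R := Nat.cast_nonneg R
  calc (R : ℝ) ^ 2 / q F ^ (2 * M) * ∑ j ∈ Ico 1 R, q F ^ j
      ≤ (R : ℝ) ^ 2 / q F ^ (2 * M) * q F ^ R := mul_le_mul_of_nonneg_left h2 h3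
    _ = (R : ℝ) ^ 2 / q F ^ (2 * M - R) := by
        rw [e]
        field_simp
    _ ≤ (R : ℝ) ^ 2 / M := div_le_div_of_nonneg_left (by positivity) hM0 hr
    _ ≤ 2 * R := by
        rw [div_le_iff₀ hM0]
        nlinarith

variable (F) in
/-- the normalised critical zeros -/
noncomputable def nz (a : ℂ[X]) : Multiset ℂ := (crit F a).map (fun z => ((√(q F) : ℝ) : ℂ) * z)

theorem nz_norm (a : ℂ[X]) : ∀ z ∈ nz F a, ‖z‖ = 1 := by
  classical
  intro z hz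
  unfold nz at hz
  obtain ⟨w, hw, rfl⟩ := Multiset.mem_map.1 hz
  unfold crit at hw
  rw [Multiset.mem_filter] at hw
  have hr : 0 < √(q F) := Real.sqrt_pos.2 (q_pos F)
  rw [norm_mul, Complex.norm_real, Real.norm_eq_abs, abs_of_pos hr]
  exact hw.2

theorem nz_pow (a : ℂ[X]) (n : ℕ) : ((nz F a).map (fun z => z ^ n)).sum = SF F n a := by
  unfold nz SF
  rw [Multiset.map_map]
  rfl

theorem nz_card (a : ℂ[X]) : (nz F a).card = (crit F a).card := by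
  unfold nz
  rw [Multiset.card_map]

theorem nz_nsim (a : ℂ[X]) : nsim (nz F a) = nsim (crit F a) := by
  classical
  have hr : ((√(q F) : ℝ) : ℂ) ≠ 0 := by
    have : 0 < √(q F) := Real.sqrt_pos.2 (q_pos F)
    exact_mod_cast this.ne'
  unfold nsim nz
  rw [Multiset.filter_map, Multiset.card_map]
  congr 1
  apply Multiset.filter_congr
  intro z _
  rw [Function.comp_apply, Multiset.count_map_eq_count' _ _ (mul_right_injective₀ hr)]

theorem crit_card_le {M : ℕ} (hM : 1 ≤ M) (χ : F[X] → ℂ) : (crit F (Lp M χ)).card ≤ M := by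
  unfold crit
  refine (Multiset.card_le_card (Multiset.filter_le _ _)).trans ?_
  exact ((card_roots' _).trans (Lp_natDegree_le hM χ)).trans (by omega)

variable (F) in
theorem m2_avg {M R : ℕ} (hM : 1 ≤ M) (hMR : M ≤ R) (hR : R ≤ 2 * M)
    (hr : (M : ℝ) ≤ q F ^ (2 * M - R)) :
    ∑ Q ∈ Mon F M, Av Q (fun χ => m2 (nz F (Lp M (fn χ)))) ≤
      q F ^ M * (13 / 12 * M + ((2 * M - R : ℕ) : ℝ) / 3 + 6 * (75 + 62 * C0)) := by
  classical
  have hq := q_pos F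
  have hC := C0_pos
  set c2 : ℝ := 75 + 62 * C0 with hc2
  have hc20 : 0 < c2 := by positivity
  have hR0 : (1 : ℝ) ≤ R := by exact_mod_cast hM.trans hMR
  have hM0 : (1 : ℝ) ≤ M := by exact_mod_cast hM
  have hqM : 0 < q F ^ M := by positivity
  set TS : ℕ → ℝ := fun j => ∑ Q ∈ Mon F M, Av Q (fun χ => ‖SF F j (Lp M (fn χ))‖ ^ 2) with hTS
  have h1 : ∀ Q ∈ Mon F M, (R : ℝ) ^ 2 * Av Q (fun χ => m2 (nz F (Lp M (fn χ)))) ≤
      R * (M : ℝ) ^ 2 + 2 * ∑ j ∈ Ico 1 R, ((R : ℝ) - j) *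
        Av Q (fun χ => ‖SF F j (Lp M (fn χ))‖ ^ 2) := by
    intro Q hQ
    have hQm := (mem_Mon.1 hQ).1
    have h2 : Av Q (fun χ => (R : ℝ) ^ 2 * m2 (nz F (Lp M (fn χ)))) ≤
        Av Q (fun χ => R * (M : ℝ) ^ 2 * 1 + 2 * ∑ j ∈ Ico 1 R, ((R : ℝ) - j) *
          ‖SF F j (Lp M (fn χ))‖ ^ 2) := by
      apply Av_mono hQm
      intro χ _
      have h3 := m2_le (nz F (Lp M (fn χ))) (nz_norm _) R
      simp only [nz_pow, nz_card] at h3
      have h4 : ((crit F (Lp M (fn χ))).card : ℝ) ^ 2 ≤ (M : ℝ) ^ 2 := by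
        apply pow_le_pow_left₀ (Nat.cast_nonneg _)
        exact_mod_cast crit_card_le hM (fn χ)
      have h5 : (R : ℝ) * ((crit F (Lp M (fn χ))).card : ℝ) ^ 2 ≤ R * (M : ℝ) ^ 2 :=
        mul_le_mul_of_nonneg_left h4 (by linarith)
      linarith
    rw [Av_mul hQm, Av_add hQm, Av_mul hQm, Av_mul hQm, Av_sum hQm, Av_one hQm] at h2
    have h6 : ∀ j ∈ Ico 1 R, Av Q (fun χ => ((R : ℝ) - j) * ‖SF F j (Lp M (fn χ))‖ ^ 2) =
        ((R : ℝ) - j) * Av Q (fun χ => ‖SF F j (Lp M (fn χ))‖ ^ 2) := fun j _ => Av_mul hQm _ _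
    rw [sum_congr rfl h6] at h2
    have h7 : (R : ℝ) * (M : ℝ) ^ 2 * (1 - 1 / phi Q) ≤ R * (M : ℝ) ^ 2 := by
      have h8 : (0 : ℝ) ≤ 1 / phi Q := by positivity
      have h9 : (0 : ℝ) ≤ R * (M : ℝ) ^ 2 := by positivity
      nlinarith
    linarith
  have h2 : (R : ℝ) ^ 2 * ∑ Q ∈ Mon F M, Av Q (fun χ => m2 (nz F (Lp M (fn χ)))) ≤
      q F ^ M * (R * (M : ℝ) ^ 2) + 2 * ∑ j ∈ Ico 1 R, ((R : ℝ) - j) * TS j := by
    rw [mul_sum]
    refine (sum_le_sum h1).trans (le_of_eq ?_)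
    rw [sum_add_distrib, sum_const, nsmul_eq_mul, card_Mon_q, ← mul_sum, sum_comm]
    congr 2
    apply sum_congr rfl
    intro j _
    rw [hTS, mul_sum]
  have h3 : ∀ j ∈ Ico 1 R, ((R : ℝ) - j) * TS j ≤ q F ^ M * (((R : ℝ) - j) * ((min j M : ℕ) : ℝ) +
      c2 * (R + R * ((j : ℝ) ^ 2 * q F ^ j / q F ^ (2 * M)))) := by
    intro j hj
    rw [mem_Ico] at hj
    have h4 := (abs_le.1 (form F M hj.1)).2
    change TS j - _ ≤ _ at h4
    have hjR : (j : ℝ) ≤ R := by exact_mod_cast hj.2.le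
    have hj0 : (0 : ℝ) ≤ j := Nat.cast_nonneg j
    have h5 : TS j ≤ q F ^ M * (((min j M : ℕ) : ℝ) + c2 * (1 + (j : ℝ) ^ 2 * q F ^ j / q F ^ (2 * M))) := by
      rw [mul_add]
      linarith
    have h6 : 0 ≤ (j : ℝ) ^ 2 * q F ^ j / q F ^ (2 * M) := by positivity
    calc ((R : ℝ) - j) * TS j ≤ ((R : ℝ) - j) *
          (q F ^ M * (((min j M : ℕ) : ℝ) + c2 * (1 + (j : ℝ) ^ 2 * q F ^ j / q F ^ (2 * M)))) :=
          mul_le_mul_of_nonneg_left h5 (by linarith)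
      _ = q F ^ M * (((R : ℝ) - j) * ((min j M : ℕ) : ℝ) +
          ((R : ℝ) - j) * (c2 * (1 + (j : ℝ) ^ 2 * q F ^ j / q F ^ (2 * M)))) := by ring
      _ ≤ q F ^ M * (((R : ℝ) - j) * ((min j M : ℕ) : ℝ) +
          R * (c2 * (1 + (j : ℝ) ^ 2 * q F ^ j / q F ^ (2 * M)))) := by
          apply mul_le_mul_of_nonneg_left _ hqM.le
          have : ((R : ℝ) - j) * (c2 * (1 + (j : ℝ) ^ 2 * q F ^ j / q F ^ (2 * M))) ≤
              R * (c2 * (1 + (j : ℝ) ^ 2 * q F ^ j / q F ^ (2 * M))) :=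
            mul_le_mul_of_nonneg_right (by linarith) (by positivity)
          linarith
      _ = _ := by ring
  have h4 := WW_min_le hMR
  have h5 := X_sum F hM hR hr
  have h6 : 2 * ∑ j ∈ Ico 1 R, ((R : ℝ) - j) * TS j ≤ q F ^ M *
      (M * (R : ℝ) ^ 2 - R * (M : ℝ) ^ 2 + (M : ℝ) ^ 3 / 3 + 6 * c2 * (R : ℝ) ^ 2) := by
    have h7 := sum_le_sum h3
    rw [← mul_sum, sum_add_distrib, ← mul_sum, sum_add_distrib, ← mul_sum, sum_const, nsmul_eq_mul,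
      Nat.card_Ico] at h7
    have h8 : (((R - 1 : ℕ)) : ℝ) * R ≤ (R : ℝ) ^ 2 := by
      have h9 : (((R - 1 : ℕ)) : ℝ) ≤ R := by exact_mod_cast Nat.sub_le R 1
      nlinarith
    have h9 : (R : ℝ) * ∑ j ∈ Ico 1 R, (j : ℝ) ^ 2 * q F ^ j / q F ^ (2 * M) ≤ 2 * (R : ℝ) ^ 2 := by
      nlinarith
    have h10 : c2 * ((((R - 1 : ℕ)) : ℝ) * R + R * ∑ j ∈ Ico 1 R, (j : ℝ) ^ 2 * q F ^ j / q F ^ (2 * M)) ≤
        c2 * (3 * (R : ℝ) ^ 2) := mul_le_mul_of_nonneg_left (by linarith) hc20.le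
    have h11 : ∑ j ∈ Ico 1 R, ((R : ℝ) - j) * ((min j M : ℕ) : ℝ) +
        c2 * ((((R - 1 : ℕ)) : ℝ) * R + R * ∑ j ∈ Ico 1 R, (j : ℝ) ^ 2 * q F ^ j / q F ^ (2 * M)) ≤
        (M * (R : ℝ) ^ 2 - R * (M : ℝ) ^ 2 + (M : ℝ) ^ 3 / 3 + 6 * c2 * (R : ℝ) ^ 2) / 2 := by
      linarith
    have h12 := mul_le_mul_of_nonneg_left h11 hqM.le
    linarith
  have h7 : (R : ℝ) ^ 2 * ∑ Q ∈ Mon F M, Av Q (fun χ => m2 (nz F (Lp M (fn χ)))) ≤
      q F ^ M * (M * (R : ℝ) ^ 2 + (M : ℝ) ^ 3 / 3 + 6 * c2 * (R : ℝ) ^ 2) := by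
    have e : q F ^ M * (M * (R : ℝ) ^ 2 + (M : ℝ) ^ 3 / 3 + 6 * c2 * (R : ℝ) ^ 2) =
        q F ^ M * (R * (M : ℝ) ^ 2) + q F ^ M *
        (M * (R : ℝ) ^ 2 - R * (M : ℝ) ^ 2 + (M : ℝ) ^ 3 / 3 + 6 * c2 * (R : ℝ) ^ 2) := by ring
    rw [e]
    linarith
  have h8 : (M : ℝ) ^ 3 / 3 ≤ (M / 12 + ((2 * M - R : ℕ) : ℝ) / 3) * (R : ℝ) ^ 2 := by
    obtain ⟨r, hrr⟩ : ∃ r, 2 * M - R = r := ⟨_, rfl⟩
    rw [hrr]
    have h9 : (R : ℝ) = 2 * M - r := by
      have : R + r = 2 * M := by omega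
      have h10 : (R : ℝ) + r = 2 * M := by exact_mod_cast this
      linarith
    have h11 : (r : ℝ) ≤ M := by exact_mod_cast (by omega : r ≤ M)
    have h12 : (0 : ℝ) ≤ r := Nat.cast_nonneg r
    rw [h9]
    have h13 : 0 ≤ (r : ℝ) * (12 * (M : ℝ) ^ 2 - 15 * M * r + 4 * (r : ℝ) ^ 2) := by
      apply mul_nonneg h12
      nlinarith
    nlinarith
  have h9 : q F ^ M * (M * (R : ℝ) ^ 2 + (M : ℝ) ^ 3 / 3 + 6 * c2 * (R : ℝ) ^ 2) ≤
      (R : ℝ) ^ 2 * (q F ^ M * (13 / 12 * M + ((2 * M - R : ℕ) : ℝ) / 3 + 6 * c2)) := by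
    have h10 : M * (R : ℝ) ^ 2 + (M : ℝ) ^ 3 / 3 + 6 * c2 * (R : ℝ) ^ 2 ≤
        (R : ℝ) ^ 2 * (13 / 12 * M + ((2 * M - R : ℕ) : ℝ) / 3 + 6 * c2) := by
      have : (R : ℝ) ^ 2 * (13 / 12 * M + ((2 * M - R : ℕ) : ℝ) / 3 + 6 * c2) =
          M * (R : ℝ) ^ 2 + (M / 12 + ((2 * M - R : ℕ) : ℝ) / 3) * (R : ℝ) ^ 2 +
          6 * c2 * (R : ℝ) ^ 2 := by ring
      rw [this]
      linarith
    have h11 := mul_le_mul_of_nonneg_left h10 hqM.le
    linarith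
  have hR2 : (0 : ℝ) < (R : ℝ) ^ 2 := by positivity
  exact le_of_mul_le_mul_left (h7.trans h9) hR2

variable (F) in
/-- the mean number of critical zeros -/
theorem N_avg {M : ℕ} : q F ^ M * (M - 50 * (1 + C0)) ≤
    ∑ Q ∈ Mon F M, Av Q (fun χ => ((crit F (Lp M (fn χ))).card : ℝ)) := by
  classical
  have hq := q_pos F
  have hC := C0_pos
  have hexc : ∀ Q : F[X], ∃ D : MulChar (AdjoinRoot Q) ℂ → F[X], Q ∈ Mon F M →
      ∀ χ : MulChar (AdjoinRoot Q) ℂ, χ ≠ 1 →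
      NT Q (fn χ) ∧ (∃ χ', Ind Q (fn χ) (D χ) χ') ∧
      (∀ z ∈ (Lp M (fn χ)).roots, √(q F) * ‖z‖ = 1 ∨ ‖z‖ = 1) ∧
      (Lp M (fn χ)).roots.card + (D χ).natDegree ≤ (crit F (Lp M (fn χ))).card + M + 1 ∧
      (D χ).natDegree ≤ (crit F (Lp M (fn χ))).card + 2 := by
    intro Q
    by_cases hQ : Q ∈ Mon F M
    · obtain ⟨D, hD⟩ := exists_cond (mem_Mon.1 hQ).1 (mem_Mon.1 hQ).2
      exact ⟨D, fun _ => hD⟩
    · exact ⟨fun _ => 1, fun h => absurd h hQ⟩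
  choose D hD using hexc
  have hE2 := cond_avg F M D (fun Q hQ χ hχ => (hD Q hQ χ hχ).2.1)
  have h1 : ∀ Q ∈ Mon F M, M * (1 - 1 / phi Q) ≤
      Av Q (fun χ => ((crit F (Lp M (fn χ))).card : ℝ)) +
      2 * Av Q (fun χ => (((M - (D Q χ).natDegree : ℕ) : ℝ) + 1) ^ 2) := by
    intro Q hQ
    have hQm := (mem_Mon.1 hQ).1
    rw [← Av_one hQm, ← Av_mul hQm, ← Av_mul hQm, ← Av_add hQm]
    apply Av_mono hQm
    intro χ hχ
    obtain ⟨_, _, _, _, h5⟩ := hD Q hQ χ hχ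
    have h6 : (M : ℝ) ≤ (crit F (Lp M (fn χ))).card + 2 + ((M - (D Q χ).natDegree : ℕ) : ℝ) := by
      exact_mod_cast (by omega : M ≤ (crit F (Lp M (fn χ))).card + 2 + (M - (D Q χ).natDegree))
    have h7 : (0 : ℝ) ≤ ((M - (D Q χ).natDegree : ℕ) : ℝ) := Nat.cast_nonneg _
    nlinarith
  have h2 := sum_le_sum h1
  rw [sum_add_distrib, ← mul_sum, ← mul_sum, sum_sub_distrib, sum_const, nsmul_eq_mul, mul_one,
    card_Mon_q] at h2
  change M * (q F ^ M - AA F M) ≤ _ at h2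
  have h3 := AA_le F M
  have h4 := nat_le_pow F M
  have h5 : (M : ℝ) * AA F M ≤ q F ^ M * (2 * (1 + C0)) :=
    mul_le_mul h4 h3 (AA_nonneg F M) (by positivity)
  have e : (M : ℝ) * (q F ^ M - AA F M) = q F ^ M * M - M * AA F M := by ring
  rw [e] at h2
  have e2 : q F ^ M * (M - 50 * (1 + C0)) = q F ^ M * M - q F ^ M * (2 * (1 + C0)) -
      2 * (24 * (1 + C0) * q F ^ M) := by ring
  rw [e2]
  linarith

variable (F) in
/-- **Eleven twelfths of the zeros are simple.** -/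
theorem eleven {M : ℕ} (hM : 1 ≤ M) :
    q F ^ M * (11 / 12 * M - (6 * (75 + 62 * C0) + 100 * (1 + C0) + 1) * (1 + Real.log M)) ≤
    ∑ Q ∈ Mon F M, Av Q (fun χ => (nsim (crit F (Lp M (fn χ))) : ℝ)) := by
  have hq := q_pos F
  have hC := C0_pos
  set r := Nat.log 2 M + 1 with hr
  have hrM : r ≤ M := Nat.log_lt_self 2 (by omega)
  have h1 : (M : ℝ) ≤ q F ^ r := by
    have h2 : M ≤ 2 ^ r := (Nat.lt_pow_succ_log_self (by norm_num) M).le
    have h3 : (M : ℝ) ≤ 2 ^ r := by exact_mod_cast h2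
    exact h3.trans (pow_le_pow_left₀ (by norm_num) (two_le_q F) r)
  have hsub : 2 * M - (2 * M - r) = r := by omega
  have h2 := m2_avg F (R := 2 * M - r) hM (by omega) (by omega) (by rw [hsub]; exact h1)
  rw [hsub] at h2
  have h3 := N_avg F (M := M)
  have h4 : ∀ Q ∈ Mon F M, 2 * Av Q (fun χ => ((crit F (Lp M (fn χ))).card : ℝ)) ≤
      Av Q (fun χ => (nsim (crit F (Lp M (fn χ))) : ℝ)) +
      Av Q (fun χ => m2 (nz F (Lp M (fn χ)))) := by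
    intro Q hQ
    have hQm := (mem_Mon.1 hQ).1
    rw [← Av_mul hQm, ← Av_add hQm]
    apply Av_mono hQm
    intro χ _
    have h5 := nsim_ge (nz F (Lp M (fn χ)))
    rw [nz_card, nz_nsim] at h5
    linarith
  have h5 := sum_le_sum h4
  rw [← mul_sum, sum_add_distrib] at h5
  have h6 : (r : ℝ) / 3 ≤ 1 + Real.log M := by
    have h7 : ((Nat.log 2 M : ℕ) : ℝ) ≤ Real.logb 2 M := by
      have := Real.natLog_le_logb M 2
      exact_mod_cast this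
    have h8 : Real.logb 2 M ≤ 2 * Real.log M := by
      have h9 : (0 : ℝ) ≤ Real.log M := Real.log_natCast_nonneg M
      have h10 := Real.log_two_gt_d9
      unfold Real.logb
      rw [div_le_iff₀ (by linarith)]
      nlinarith
    have h9 : (0 : ℝ) ≤ Real.log M := Real.log_natCast_nonneg M
    rw [hr]
    push_cast
    linarith
  have hqM : 0 < q F ^ M := by positivity
  have h9 : (0 : ℝ) ≤ Real.log M := Real.log_natCast_nonneg M
  have h7 : q F ^ M * (11 / 12 * M - (6 * (75 + 62 * C0) + 100 * (1 + C0) + 1) * (1 + Real.log M)) ≤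
      2 * (q F ^ M * (M - 50 * (1 + C0))) -
      q F ^ M * (13 / 12 * M + (r : ℝ) / 3 + 6 * (75 + 62 * C0)) := by
    have h8 : 11 / 12 * M - (6 * (75 + 62 * C0) + 100 * (1 + C0) + 1) * (1 + Real.log M) ≤
        2 * (M - 50 * (1 + C0)) - (13 / 12 * M + (r : ℝ) / 3 + 6 * (75 + 62 * C0)) := by
      have h10 : 0 ≤ (6 * (75 + 62 * C0) + 100 * (1 + C0)) * Real.log M := by positivity
      nlinarith
    have h11 := mul_le_mul_of_nonneg_left h8 hqM.le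
    linarith
  linarith

end Pool.Agent.H23.PC
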