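import Pool.Agent.H23.PC.Crit
import Mathlib.NumberTheory.MulChar.Duality

/-!
# The family of all Dirichlet characters modulo `Q`
-/

set_option autoImplicit false

open Finset Polynomial ComplexConjugate
open Pool.Agent.H341R2.Sharp (Mon mem_Mon)
open Pool.Agent.Q284.PS (Hay PD)
open Pool.Agent.H23.FF

namespace Pool.Agent.H23.PC

variable {F : Type} [Field F] [Fintype F]

theorem card_units {Q : F[X]} (hQ : Q.Monic) : Nat.card (AdjoinRoot Q)ˣ = phi Q := by
  classical
  have hfin := finite_adj hQ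
  have hft : Fintype (AdjoinRoot Q)ˣ := Fintype.ofFinite _
  rw [Nat.card_eq_fintype_card, ← Finset.card_univ]
  unfold phi
  symm
  refine Finset.card_nbij (fun b => un Q b) ?_ ?_ ?_
  · intro _ _
    exact mem_univ _
  · intro b hb b' hb' e
    rw [mem_coe, mem_filter] at hb hb'
    have h1 := (un_eq_iff hb.2 hb'.2).1 e
    have h2 := mod_eq hQ rfl hb'.1 h1
    have h3 := mod_eq hQ rfl hb.1 (a := b) (x := b) (by rw [sub_self]; exact dvd_zero _)
    rw [← h3, h2]
  · intro u _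
    have h1 : IsUnit (AdjoinRoot.mk Q (rep Q (u : AdjoinRoot Q))) := by
      rw [mk_rep]
      exact u.isUnit
    have h2 := coprime_of_isUnit_mk h1
    have h3 : Q ∣ rep Q (u : AdjoinRoot Q) %ₘ Q - rep Q (u : AdjoinRoot Q) := dvd_mod_sub _
    have h4 : IsCoprime (rep Q (u : AdjoinRoot Q) %ₘ Q) Q := by
      obtain ⟨y, hy⟩ := h3
      have : rep Q (u : AdjoinRoot Q) %ₘ Q = rep Q (u : AdjoinRoot Q) + Q * y := by rw [← hy]; ring
      rw [this]
      exact h2.add_mul_left_left _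
    refine ⟨rep Q (u : AdjoinRoot Q) %ₘ Q, ?_, ?_⟩
    · rw [mem_coe, mem_filter]
      exact ⟨mod_mem_Lo hQ rfl _, h4⟩
    · apply Units.ext
      change ((un Q (rep Q (u : AdjoinRoot Q) %ₘ Q) : (AdjoinRoot Q)ˣ) : AdjoinRoot Q) = u
      rw [un_coe h4, AdjoinRoot.mk_eq_mk.2 h3, mk_rep]

/-- the function of a character -/
noncomputable def fn {Q : F[X]} (χ : MulChar (AdjoinRoot Q) ℂ) (f : F[X]) : ℂ :=
  χ (AdjoinRoot.mk Q f)

omit [Fintype F] in
theorem dc_fn {Q : F[X]} (hQ : Q.Monic) (χ : MulChar (AdjoinRoot Q) ℂ) : DC Q (fn χ) :=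
  dc_of_char hQ χ

theorem card_char {Q : F[X]} (hQ : Q.Monic) : Nat.card (MulChar (AdjoinRoot Q) ℂ) = phi Q := by
  have hfin := finite_adj hQ
  rw [MulChar.card_eq_card_units_of_hasEnoughRootsOfUnity, card_units hQ]

theorem finite_char {Q : F[X]} (hQ : Q.Monic) : Finite (MulChar (AdjoinRoot Q) ℂ) := by
  have hfin := finite_adj hQ
  infer_instance

theorem sum_char_unit {Q : F[X]} (hQ : Q.Monic) [Fintype (MulChar (AdjoinRoot Q) ℂ)]
    (u : (AdjoinRoot Q)ˣ) :
    ∑ χ : MulChar (AdjoinRoot Q) ℂ, χ (u : AdjoinRoot Q) =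
      open Classical in if u = 1 then (phi Q : ℂ) else 0 := by
  classical
  have hfin := finite_adj hQ
  by_cases hu : u = 1
  · rw [if_pos hu, hu, Units.val_one]
    simp only [map_one]
    rw [sum_const, nsmul_eq_mul, mul_one, card_univ, ← card_char hQ, Nat.card_eq_fintype_card]
  · rw [if_neg hu]
    have hu' : (u : AdjoinRoot Q) ≠ 1 := fun h => hu (Units.ext h)
    obtain ⟨χ0, h0⟩ := MulChar.exists_apply_ne_one_of_hasEnoughRootsOfUnity (AdjoinRoot Q) ℂ hu'
    have h1 : ∑ χ : MulChar (AdjoinRoot Q) ℂ, χ (u : AdjoinRoot Q) =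
        χ0 (u : AdjoinRoot Q) * ∑ χ : MulChar (AdjoinRoot Q) ℂ, χ (u : AdjoinRoot Q) := by
      rw [mul_sum]
      symm
      apply Fintype.sum_equiv (Equiv.mulLeft χ0)
      intro χ
      rw [Equiv.coe_mulLeft, MulChar.mul_apply]
    have h2 : (χ0 (u : AdjoinRoot Q) - 1) * ∑ χ : MulChar (AdjoinRoot Q) ℂ, χ (u : AdjoinRoot Q) = 0 := by
      rw [sub_mul, one_mul, ← h1, sub_self]
    rcases mul_eq_zero.1 h2 with h3 | h3
    · exact absurd (sub_eq_zero.1 h3) h0
    · exact h3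

open Classical in
theorem or_char {Q : F[X]} (hQ : Q.Monic) [Fintype (MulChar (AdjoinRoot Q) ℂ)] (f g : F[X]) :
    ∑ χ : MulChar (AdjoinRoot Q) ℂ, fn χ f * conj (fn χ g) =
      if IsCoprime f Q ∧ Q ∣ f - g then (phi Q : ℂ) else 0 := by
  by_cases hf : IsCoprime f Q
  · by_cases hg : IsCoprime g Q
    · have h1 : ∀ χ : MulChar (AdjoinRoot Q) ℂ, fn χ f * conj (fn χ g) =
          χ ((un Q f * (un Q g)⁻¹ : (AdjoinRoot Q)ˣ) : AdjoinRoot Q) := by
        intro χ
        have h2 : χ ((un Q f * (un Q g)⁻¹ : (AdjoinRoot Q)ˣ) : AdjoinRoot Q) * fn χ g = fn χ f := by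
          unfold fn
          rw [← un_coe hg, ← map_mul, ← Units.val_mul, inv_mul_cancel_right, un_coe hf]
        have h3 : fn χ g * conj (fn χ g) = 1 := by
          rw [Complex.mul_conj', (dc_fn hQ χ).norm hg]
          norm_num
        rw [← h2, mul_assoc, h3, mul_one]
      rw [sum_congr rfl fun χ _ => h1 χ, sum_char_unit hQ]
      congr 1
      rw [mul_inv_eq_one, un_eq_iff hf hg, eq_iff_iff]
      exact ⟨fun h => ⟨hf, h⟩, fun h => h.2⟩
    · rw [if_neg, sum_eq_zero]
      · intro χ _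
        rw [(dc_fn hQ χ).zero g hg, map_zero, mul_zero]
      · rintro ⟨_, y, hy⟩
        apply hg
        have : g = f + Q * (-y) := by
          have : g = f - (f - g) := by ring
          rw [this, hy]; ring
        rw [this]
        exact hf.add_mul_left_left _
  · rw [if_neg (fun h => hf h.1), sum_eq_zero]
    intro χ _
    rw [(dc_fn hQ χ).zero f hf, zero_mul]

open Classical in
/-- pairs of prime powers in the reduced classes -/
noncomputable def P2 (n : ℕ) (Q : F[X]) : ℝ :=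
  ∑ f ∈ Mon F n, ∑ g ∈ Mon F n, if IsCoprime f Q ∧ Q ∣ f - g then vM f * vM g else 0

theorem par_char {Q : F[X]} (hQ : Q.Monic) [Fintype (MulChar (AdjoinRoot Q) ℂ)] (n : ℕ) :
    ∑ χ : MulChar (AdjoinRoot Q) ℂ, ‖ps (fn χ) n‖ ^ 2 = phi Q * P2 n Q := by
  classical
  have h1 : ∀ χ : MulChar (AdjoinRoot Q) ℂ, ((‖ps (fn χ) n‖ ^ 2 : ℝ) : ℂ) =
      ∑ f ∈ Mon F n, ∑ g ∈ Mon F n, (vM f : ℂ) * vM g * (fn χ f * conj (fn χ g)) := by
    intro χ
    have h2 : ((‖ps (fn χ) n‖ ^ 2 : ℝ) : ℂ) = ps (fn χ) n * conj (ps (fn χ) n) := by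
      rw [Complex.mul_conj']
      push_cast
      rfl
    rw [h2]
    unfold ps
    rw [map_sum, sum_mul_sum]
    apply sum_congr rfl
    intro f _
    apply sum_congr rfl
    intro g _
    rw [map_mul, Complex.conj_ofReal]
    ring
  have h2 : ((∑ χ : MulChar (AdjoinRoot Q) ℂ, ‖ps (fn χ) n‖ ^ 2 : ℝ) : ℂ) =
      ((phi Q * P2 n Q : ℝ) : ℂ) := by
    rw [Complex.ofReal_sum, sum_congr rfl fun χ _ => h1 χ, sum_comm]
    unfold P2
    rw [Complex.ofReal_mul, Complex.ofReal_sum, mul_sum]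
    apply sum_congr rfl
    intro f _
    rw [sum_comm, Complex.ofReal_sum, mul_sum]
    apply sum_congr rfl
    intro g _
    rw [← mul_sum, or_char hQ]
    split_ifs
    · push_cast
      ring
    · simp
  exact_mod_cast h2

theorem fn_one {Q : F[X]} (f : F[X]) :
    fn (1 : MulChar (AdjoinRoot Q) ℂ) f = open Classical in if IsCoprime f Q then 1 else 0 := by
  classical
  unfold fn
  by_cases h : IsCoprime f Q
  · rw [if_pos h, ← un_coe h, MulChar.one_apply_coe]
  · rw [if_neg h]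
    apply MulChar.map_nonunit
    intro hu
    exact h (coprime_of_isUnit_mk hu)

theorem ps_one {Q : F[X]} (n : ℕ) : ps (fn (1 : MulChar (AdjoinRoot Q) ℂ)) n = (Vc n Q : ℂ) := by
  classical
  unfold ps Vc
  rw [Complex.ofReal_sum]
  apply sum_congr rfl
  intro f _
  rw [fn_one]
  split_ifs
  · rw [mul_one]
  · rw [mul_zero, Complex.ofReal_zero]

/-- the normalised sum over the nontrivial characters -/
noncomputable def Av (Q : F[X]) (G : MulChar (AdjoinRoot Q) ℂ → ℝ) : ℝ :=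
  (∑ᶠ χ ∈ {χ : MulChar (AdjoinRoot Q) ℂ | χ ≠ 1}, G χ) / phi Q

open Classical in
theorem Av_eq {Q : F[X]} [Fintype (MulChar (AdjoinRoot Q) ℂ)] (G : MulChar (AdjoinRoot Q) ℂ → ℝ) :
    Av Q G = (∑ χ ∈ univ.filter (fun χ : MulChar (AdjoinRoot Q) ℂ => χ ≠ 1), G χ) / phi Q := by
  unfold Av
  congr 1
  have h1 : {χ : MulChar (AdjoinRoot Q) ℂ | χ ≠ 1} =
      ((univ.filter (fun χ : MulChar (AdjoinRoot Q) ℂ => χ ≠ 1) : Finset _) : Set _) := by
    ext χ
    simp
  rw [h1, finsum_mem_coe_finset]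

theorem Av_ps {Q : F[X]} (hQ : Q.Monic) (n : ℕ) :
    Av Q (fun χ => ‖ps (fn χ) n‖ ^ 2) = P2 n Q - Vc n Q ^ 2 / phi Q := by
  classical
  have hfin := finite_char hQ
  have hft : Fintype (MulChar (AdjoinRoot Q) ℂ) := Fintype.ofFinite _
  have hphi : (phi Q : ℝ) ≠ 0 := by
    have := phi_pos hQ
    exact_mod_cast this.ne'
  rw [Av_eq]
  have h1 := par_char hQ n
  rw [← sum_filter_add_sum_filter_not univ (fun χ : MulChar (AdjoinRoot Q) ℂ => χ ≠ 1)] at h1
  have h2 : univ.filter (fun χ : MulChar (AdjoinRoot Q) ℂ => ¬ χ ≠ 1) = {1} := by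
    ext χ
    simp
  rw [h2, sum_singleton, ps_one, Complex.norm_real, Real.norm_eq_abs, sq_abs] at h1
  have h3 : ∑ χ ∈ univ.filter (fun χ : MulChar (AdjoinRoot Q) ℂ => χ ≠ 1), ‖ps (fn χ) n‖ ^ 2 =
      phi Q * P2 n Q - Vc n Q ^ 2 := by linarith
  rw [h3]
  field_simp

/-- the classes when the modulus has smaller degree -/
theorem P2_large {n M m : ℕ} {Q : F[X]} (hQ : Q.Monic) (hM : Q.natDegree = M) (hn : n = M + m) :
    P2 n Q = BB n m Q - ep n Q := by
  classical
  have h1 : ∀ f ∈ Mon F n, ∀ g, (g ∈ Mon F n ∧ Q ∣ f - g) ↔ g ∈ (Lo F m).image (fun u => f + Q * u) := by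
    intro f hf g
    rw [mem_image]
    constructor
    · rintro ⟨hg, y, hy⟩
      refine ⟨-y, ?_, ?_⟩
      · have h2 := mem_Lo_iff_sub hg hf
        have h3 : g - f = Q * (-y) := by
          have : g - f = -(f - g) := by ring
          rw [this, hy]; ring
        rw [h3, hn] at h2
        have h4 := div_mem_Lo hQ hM h2
        rwa [mul_divByMonic_cancel_left _ hQ] at h4
      · have : g = f - (f - g) := by ring
        rw [this, hy]; ring
    · rintro ⟨u, hu, rfl⟩
      refine ⟨add_mem_Mon hf ?_, ⟨-u, by ring⟩⟩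
      rw [hn]
      exact mul_mem_Lo hQ hM hu
  have h2 : ∀ f ∈ Mon F n, ∑ g ∈ Mon F n, (if IsCoprime f Q ∧ Q ∣ f - g then vM f * vM g else 0) =
      if IsCoprime f Q then ∑ u ∈ Lo F m, vM f * vM (f + Q * u) else 0 := by
    intro f hf
    by_cases hc : IsCoprime f Q
    · rw [if_pos hc]
      have h3 : ∑ g ∈ Mon F n, (if IsCoprime f Q ∧ Q ∣ f - g then vM f * vM g else 0) =
          ∑ g ∈ (Mon F n).filter (fun g => Q ∣ f - g), vM f * vM g := by
        rw [sum_filter]
        apply sum_congr rfl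
        intro g _
        by_cases h : Q ∣ f - g
        · rw [if_pos ⟨hc, h⟩, if_pos h]
        · rw [if_neg (fun h' => h h'.2), if_neg h]
      have h4 : (Mon F n).filter (fun g => Q ∣ f - g) = (Lo F m).image (fun u => f + Q * u) := by
        ext g
        rw [mem_filter]
        exact h1 f hf g
      rw [h3, h4, sum_image (fun u _ v _ e => inj_mul hQ e)]
    · rw [if_neg hc]
      apply sum_eq_zero
      intro g _
      rw [if_neg (fun h => hc h.1)]
  have h3 : BB n m Q = ∑ f ∈ Mon F n, ∑ u ∈ Lo F m, vM f * vM (f + Q * u) := by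
    unfold BB co
    exact sum_comm
  unfold P2 ep
  rw [sum_congr rfl h2, h3, ← sum_sub_distrib]
  apply sum_congr rfl
  intro f hf
  by_cases hc : IsCoprime f Q
  · rw [if_pos hc, if_pos hc, sub_zero]
  · rw [if_neg hc, if_neg hc]
    have h4 : ∀ u ∈ Lo F m, u ≠ 0 → vM f * vM (f + Q * u) = 0 := by
      intro u hu hu0
      by_contra h5
      have h6 := left_ne_zero_of_mul h5
      have h7 := right_ne_zero_of_mul h5
      apply hc
      have h8 : f + Q * u ∈ Mon F n := by
        apply add_mem_Mon hf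
        rw [hn]
        exact mul_mem_Lo hQ hM hu
      apply coprime_of_pair (mem_Mon.1 hf) (mem_Mon.1 h8) h6 h7 ⟨u, by ring⟩
      intro e
      apply hu0
      have h9 : Q * u = 0 := by
        have : f + Q * u = f + 0 := by rw [← e, add_zero]
        exact add_left_cancel this
      exact (mul_eq_zero.1 h9).resolve_left hQ.ne_zero
    rw [sum_eq_single_of_mem 0 (zero_mem_Lo m) h4, mul_zero, add_zero]
    ring

/-- the classes when the modulus has larger degree -/
theorem P2_small {n M : ℕ} {Q : F[X]} (hQ : Q.Monic) (hM : Q.natDegree = M) (hn : n ≤ M) :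
    P2 n Q = co n (0 : F[X]) - ep n Q := by
  classical
  rw [co_zero]
  unfold P2 ep
  rw [← sum_sub_distrib]
  apply sum_congr rfl
  intro f hf
  have h1 : ∀ g ∈ Mon F n, g ≠ f → (if IsCoprime f Q ∧ Q ∣ f - g then vM f * vM g else 0) = 0 := by
    intro g hg hne
    rw [if_neg]
    rintro ⟨_, h2⟩
    have h3 := mem_Lo_iff_sub hf hg
    rw [mem_Lo] at h3
    have h4 : f - g ≠ 0 := fun h => hne (sub_eq_zero.1 h).symm
    have h5 := natDegree_le_of_dvd h2 h4
    rw [degree_eq_natDegree h4] at h3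
    have h6 : (f - g).natDegree < n := by exact_mod_cast h3
    omega
  rw [sum_eq_single_of_mem f hf h1]
  by_cases hc : IsCoprime f Q
  · rw [if_pos ⟨hc, by rw [sub_self]; exact dvd_zero _⟩, if_pos hc]
    ring
  · rw [if_neg (fun h => hc h.1), if_neg hc]
    ring

end Pool.Agent.H23.PC
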