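import Pool.Agent.H23.PC.Wsq

/-!
# The form factor of the zeros
-/

set_option autoImplicit false

open Finset Polynomial ComplexConjugate
open Pool.Agent.H341R2.Sharp (Mon mem_Mon)
open Pool.Agent.H23.FF

namespace Pool.Agent.H23.PC

variable {F : Type} [Field F] [Fintype F]

theorem Av_mono {Q : F[X]} (hQ : Q.Monic) {G H : MulChar (AdjoinRoot Q) ℂ → ℝ}
    (h : ∀ χ : MulChar (AdjoinRoot Q) ℂ, χ ≠ 1 → G χ ≤ H χ) : Av Q G ≤ Av Q H := by
  classical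
  have hfin := finite_char hQ
  have hft : Fintype (MulChar (AdjoinRoot Q) ℂ) := Fintype.ofFinite _
  rw [Av_eq, Av_eq]
  apply div_le_div_of_nonneg_right _ (Nat.cast_nonneg _)
  apply sum_le_sum
  intro χ hχ
  exact h χ (mem_filter.1 hχ).2

theorem Av_add {Q : F[X]} (hQ : Q.Monic) (G H : MulChar (AdjoinRoot Q) ℂ → ℝ) :
    Av Q (fun χ => G χ + H χ) = Av Q G + Av Q H := by
  classical
  have hfin := finite_char hQ
  have hft : Fintype (MulChar (AdjoinRoot Q) ℂ) := Fintype.ofFinite _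
  rw [Av_eq, Av_eq, Av_eq, sum_add_distrib, add_div]

theorem Av_mul {Q : F[X]} (hQ : Q.Monic) (c : ℝ) (G : MulChar (AdjoinRoot Q) ℂ → ℝ) :
    Av Q (fun χ => c * G χ) = c * Av Q G := by
  classical
  have hfin := finite_char hQ
  have hft : Fintype (MulChar (AdjoinRoot Q) ℂ) := Fintype.ofFinite _
  rw [Av_eq, Av_eq, ← mul_sum, mul_div_assoc]

theorem Av_nonneg {Q : F[X]} (hQ : Q.Monic) {G : MulChar (AdjoinRoot Q) ℂ → ℝ}
    (h : ∀ χ : MulChar (AdjoinRoot Q) ℂ, χ ≠ 1 → 0 ≤ G χ) : 0 ≤ Av Q G := by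
  classical
  have hfin := finite_char hQ
  have hft : Fintype (MulChar (AdjoinRoot Q) ℂ) := Fintype.ofFinite _
  rw [Av_eq]
  apply div_nonneg _ (Nat.cast_nonneg _)
  apply sum_nonneg
  intro χ hχ
  exact h χ (mem_filter.1 hχ).2

/-- the mass of the nontrivial characters -/
theorem Av_one {Q : F[X]} (hQ : Q.Monic) : Av Q (fun _ => 1) = 1 - 1 / phi Q := by
  classical
  have hfin := finite_char hQ
  have hft : Fintype (MulChar (AdjoinRoot Q) ℂ) := Fintype.ofFinite _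
  have hphi := one_le_phi hQ
  rw [Av_eq, sum_const, nsmul_eq_mul, mul_one]
  have h1 : univ.filter (fun χ : MulChar (AdjoinRoot Q) ℂ => χ ≠ 1) = univ.erase 1 := by
    ext χ
    simp
  rw [h1, card_erase_of_mem (mem_univ _), card_univ, ← Nat.card_eq_fintype_card, card_char hQ,
    Nat.cast_sub (phi_pos hQ)]
  field_simp
  push_cast
  ring

variable (F) in
/-- the power sums of the normalised critical zeros -/
noncomputable def SF (n : ℕ) (a : ℂ[X]) : ℂ := ((crit F a).map (fun z => (((√(q F) : ℝ) : ℂ) * z) ^ n)).sum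

theorem sq_near (a b : ℂ) {t : ℝ} (ht : 0 < t) :
    |‖a + b‖ ^ 2 - ‖a‖ ^ 2| ≤ ‖a‖ ^ 2 / t + (1 + t) * ‖b‖ ^ 2 := by
  have h1 := norm_add_le a b
  have h2 : ‖a‖ ≤ ‖a + b‖ + ‖b‖ := by
    calc ‖a‖ = ‖(a + b) - b‖ := by rw [add_sub_cancel_right]
      _ ≤ _ := norm_sub_le _ _
  have ha := norm_nonneg a
  have hb := norm_nonneg b
  have hab := norm_nonneg (a + b)
  have h3 : 2 * (‖a‖ * ‖b‖) ≤ ‖a‖ ^ 2 / t + t * ‖b‖ ^ 2 := by
    have h4 : 0 ≤ (‖a‖ - t * ‖b‖) ^ 2 / t := by positivity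
    have h5 : (‖a‖ - t * ‖b‖) ^ 2 / t = ‖a‖ ^ 2 / t + t * ‖b‖ ^ 2 - 2 * (‖a‖ * ‖b‖) := by
      field_simp
      ring
    linarith
  have h4 : ‖a + b‖ ^ 2 ≤ ‖a‖ ^ 2 + 2 * (‖a‖ * ‖b‖) + ‖b‖ ^ 2 := by
    calc ‖a + b‖ ^ 2 ≤ (‖a‖ + ‖b‖) ^ 2 := pow_le_pow_left₀ hab h1 2
      _ = _ := by ring
  have h5 : ‖a‖ ^ 2 - 2 * (‖a‖ * ‖b‖) ≤ ‖a + b‖ ^ 2 := by
    rcases le_total ‖a‖ ‖b‖ with h6 | h6
    · have : ‖a‖ ^ 2 - 2 * (‖a‖ * ‖b‖) ≤ 0 := by nlinarith
      have := sq_nonneg ‖a + b‖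
      linarith
    · have h7 : (‖a‖ - ‖b‖) ^ 2 ≤ ‖a + b‖ ^ 2 := pow_le_pow_left₀ (by linarith) (by linarith) 2
      nlinarith
  rw [abs_le]
  have := sq_nonneg ‖b‖
  constructor <;> nlinarith

open Classical in
theorem SF_ps {M n : ℕ} {Q : F[X]} {χ : F[X] → ℂ} (h : DC Q χ) (hM : Q.natDegree = M)
    (hn : NT Q χ) (hn1 : 1 ≤ n)
    (hz : ∀ z ∈ (Lp M χ).roots, √(q F) * ‖z‖ = 1 ∨ ‖z‖ = 1) {w : ℕ}
    (hw : (Lp M χ).roots.card ≤ (crit F (Lp M χ)).card + w) :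
    |q F ^ n * ‖SF F n (Lp M χ)‖ ^ 2 - ‖ps χ n‖ ^ 2| ≤
      ‖ps χ n‖ ^ 2 / n + (1 + n) * (w : ℝ) ^ 2 := by
  have hq := q_pos F
  have hr : 0 < √(q F) := Real.sqrt_pos.2 hq
  set a := Lp M χ with ha
  set nc := a.roots.filter (fun z => ¬ √(q F) * ‖z‖ = 1) with hnc
  have hsplit : crit F a + nc = a.roots := by
    unfold crit
    rw [hnc]
    exact Multiset.filter_add_not _ _
  have hp := ps_roots h hM hn hn1
  rw [← ha, ← hsplit, Multiset.map_add, Multiset.sum_add] at hp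
  set Z := (nc.map (fun z => (z⁻¹) ^ n)).sum with hZ
  have hcrit : ((crit F a).map (fun z => (z⁻¹) ^ n)).sum =
      (((√(q F)) ^ n : ℝ) : ℂ) * conj (SF F n a) := by
    unfold SF
    rw [map_multiset_sum, ← Multiset.sum_map_mul_left, Multiset.map_map]
    congr 1
    apply Multiset.map_congr rfl
    intro z hz
    unfold crit at hz
    rw [Multiset.mem_filter] at hz
    change (z⁻¹) ^ n = (((√(q F)) ^ n : ℝ) : ℂ) * conj ((((√(q F) : ℝ) : ℂ) * z) ^ n)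
    rw [map_pow, Complex.ofReal_pow, ← mul_pow]
    congr 1
    have h1 : ‖((√(q F) : ℝ) : ℂ) * z‖ = 1 := by
      rw [norm_mul, Complex.norm_real, Real.norm_eq_abs, abs_of_pos hr]
      exact hz.2
    have h2 : (((√(q F) : ℝ) : ℂ) * z) * conj (((√(q F) : ℝ) : ℂ) * z) = 1 := by
      rw [Complex.mul_conj', h1]
      norm_num
    have h3 : z ≠ 0 := by
      rintro rfl
      rw [mul_zero, norm_zero] at h1
      exact zero_ne_one h1
    rw [inv_eq_iff_eq_inv, eq_comm]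
    apply inv_eq_of_mul_eq_one_right
    rw [← h2]
    ring
  have hZn : ‖Z‖ ≤ w := by
    have h1 : ∀ s : Multiset ℂ, (∀ z ∈ s, ‖z‖ = 1) → ‖(s.map (fun z => (z⁻¹) ^ n)).sum‖ ≤ s.card := by
      intro s
      induction s using Multiset.induction_on with
      | empty => intro _; simp
      | cons b s ih =>
        intro h
        rw [Multiset.map_cons, Multiset.sum_cons, Multiset.card_cons]
        refine (norm_add_le _ _).trans ?_
        have h2 := ih (fun z hz => h z (Multiset.mem_cons_of_mem hz))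
        rw [norm_pow, norm_inv, h b (Multiset.mem_cons_self _ _), inv_one, one_pow]
        push_cast
        linarith
    have h2 : (nc.card : ℝ) ≤ w := by
      have h3 := congrArg Multiset.card hsplit
      rw [Multiset.card_add] at h3
      exact_mod_cast (by omega : nc.card ≤ w)
    refine (h1 nc ?_).trans h2
    intro z hzn
    rw [hnc, Multiset.mem_filter] at hzn
    exact (hz z hzn.1).resolve_left hzn.2
  have h1 : q F ^ n * ‖SF F n a‖ ^ 2 = ‖ps χ n + Z‖ ^ 2 := by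
    have h2 : ps χ n + Z = -((((√(q F)) ^ n : ℝ) : ℂ) * conj (SF F n a)) := by
      rw [hp, hcrit]
      ring
    rw [h2, norm_neg, norm_mul, Complex.norm_real, Real.norm_eq_abs, abs_of_pos (pow_pos hr n),
      Complex.norm_conj, mul_pow, ← pow_mul, mul_comm n 2, pow_mul, Real.sq_sqrt hq.le]
  rw [h1]
  have hn0 : (0 : ℝ) < n := by exact_mod_cast hn1
  refine (sq_near _ _ hn0).trans ?_
  have h3 : ‖Z‖ ^ 2 ≤ (w : ℝ) ^ 2 := pow_le_pow_left₀ (norm_nonneg _) hZn 2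
  have h4 : (1 + (n : ℝ)) * ‖Z‖ ^ 2 ≤ (1 + n) * (w : ℝ) ^ 2 :=
    mul_le_mul_of_nonneg_left h3 (by positivity)
  linarith

variable (F) in
/-- **The form factor.** -/
theorem form {n : ℕ} (M : ℕ) (hn1 : 1 ≤ n) :
    |∑ Q ∈ Mon F M, Av Q (fun χ => ‖SF F n (Lp M (fn χ))‖ ^ 2) - q F ^ M * (min n M : ℕ)| ≤
      q F ^ M * ((75 + 62 * C0) * (1 + (n : ℝ) ^ 2 * q F ^ n / q F ^ (2 * M))) := by
  classical
  have hq := q_pos F
  have hC := C0_pos
  have hn0 : (1 : ℝ) ≤ n := by exact_mod_cast hn1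
  have hexc : ∀ Q : F[X], ∃ D : MulChar (AdjoinRoot Q) ℂ → F[X], Q ∈ Mon F M →
      ∀ χ : MulChar (AdjoinRoot Q) ℂ, χ ≠ 1 →
      NT Q (fn χ) ∧ (∃ χ', Ind Q (fn χ) (D χ) χ') ∧
      (∀ z ∈ (Lp M (fn χ)).roots, √(q F) * ‖z‖ = 1 ∨ ‖z‖ = 1) ∧
      (Lp M (fn χ)).roots.card + (D χ).natDegree ≤ (crit F (Lp M (fn χ))).card + M + 1 ∧
      (D χ).natDegree ≤ (crit F (Lp M (fn χ))).card + 2 := by
    intro Q
    by_cases hQ : Q ∈ Mon F M
    · obtain ⟨D, hD⟩ := exists_cond (mem_Mon.1 hQ).1 (mem_Mon.1 hQ).2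
      exact ⟨D, fun _ => hD⟩
    · exact ⟨fun _ => 1, fun h => absurd h hQ⟩
  choose D hD using hexc
  have hE2 := cond_avg F M D (fun Q hQ χ hχ => (hD Q hQ χ hχ).2.1)
  have hE1 := Av_all F M hn1
  set E1 := ∑ Q ∈ Mon F M, Av Q (fun χ => ‖ps (fn χ) n‖ ^ 2) with hE1d
  set E2 := ∑ Q ∈ Mon F M, Av Q (fun χ => (((M - (D Q χ).natDegree : ℕ) : ℝ) + 1) ^ 2) with hE2d
  set TS := ∑ Q ∈ Mon F M, Av Q (fun χ => ‖SF F n (Lp M (fn χ))‖ ^ 2) with hTS
  have hpt : ∀ Q ∈ Mon F M, ∀ χ : MulChar (AdjoinRoot Q) ℂ, χ ≠ 1 →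
      |q F ^ n * ‖SF F n (Lp M (fn χ))‖ ^ 2 - ‖ps (fn χ) n‖ ^ 2| ≤
      1 / (n : ℝ) * ‖ps (fn χ) n‖ ^ 2 + (1 + n) * (((M - (D Q χ).natDegree : ℕ) : ℝ) + 1) ^ 2 := by
    intro Q hQ χ hχ
    obtain ⟨h1, ⟨χ', h2⟩, h3, h4, h5⟩ := hD Q hQ χ hχ
    rw [mem_Mon] at hQ
    have hle : (D Q χ).natDegree ≤ M := by
      rw [← hQ.2]
      exact natDegree_le_of_dvd h2.1 hQ.1.ne_zero
    have h6 := SF_ps (dc_fn hQ.1 χ) hQ.2 h1 hn1 h3 (w := M - (D Q χ).natDegree + 1) (by omega)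
    refine h6.trans (le_of_eq ?_)
    push_cast
    ring
  have hup : q F ^ n * TS ≤ E1 + (1 / (n : ℝ) * E1 + (1 + n) * E2) := by
    rw [hTS, hE1d, hE2d, mul_sum, mul_sum, mul_sum, ← sum_add_distrib, ← sum_add_distrib]
    apply sum_le_sum
    intro Q hQ
    have hQm := (mem_Mon.1 hQ).1
    rw [← Av_mul hQm, ← Av_mul hQm, ← Av_mul hQm, ← Av_add hQm, ← Av_add hQm]
    apply Av_mono hQm
    intro χ hχ
    have := (abs_le.1 (hpt Q hQ χ hχ)).2
    linarith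
  have hlow : E1 ≤ q F ^ n * TS + (1 / (n : ℝ) * E1 + (1 + n) * E2) := by
    rw [hTS, hE1d, hE2d, mul_sum, mul_sum, mul_sum, ← sum_add_distrib, ← sum_add_distrib]
    apply sum_le_sum
    intro Q hQ
    have hQm := (mem_Mon.1 hQ).1
    rw [← Av_mul hQm, ← Av_mul hQm, ← Av_mul hQm, ← Av_add hQm, ← Av_add hQm]
    apply Av_mono hQm
    intro χ hχ
    have := (abs_le.1 (hpt Q hQ χ hχ)).1
    linarith
  set X := (n : ℝ) ^ 2 * q F ^ n / q F ^ (2 * M) with hX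
  have hX0 : 0 ≤ X := by positivity
  have hmin : ((min n M : ℕ) : ℝ) ≤ n := by exact_mod_cast min_le_left n M
  have hnM : 0 < q F ^ (n + M) := by positivity
  have hb1 : 1 / (n : ℝ) * E1 ≤ q F ^ (n + M) * (14 + 7 * C0 + 8 * X) := by
    have h1 : E1 ≤ q F ^ (n + M) * (n + (13 + 7 * C0 + 8 * X)) := by
      have h2 := (abs_le.1 hE1).2
      have h3 : q F ^ (n + M) * ((min n M : ℕ) : ℝ) ≤ q F ^ (n + M) * n :=
        mul_le_mul_of_nonneg_left hmin hnM.le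
      rw [mul_add]
      linarith
    have h2 : n + (13 + 7 * C0 + 8 * X) ≤ n * (14 + 7 * C0 + 8 * X) := by
      have h3 : 0 ≤ 13 + 7 * C0 + 8 * X := by positivity
      nlinarith
    rw [one_div, inv_mul_le_iff₀ (by linarith)]
    calc E1 ≤ q F ^ (n + M) * (n + (13 + 7 * C0 + 8 * X)) := h1
      _ ≤ q F ^ (n + M) * (n * (14 + 7 * C0 + 8 * X)) := mul_le_mul_of_nonneg_left h2 hnM.le
      _ = _ := by ring
  have hb2 : (1 + (n : ℝ)) * E2 ≤ 48 * (1 + C0) * q F ^ (n + M) := by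
    have h1 := nat_le_pow F n
    have h2 := one_le_pow_q F n
    have h3 : (1 + (n : ℝ)) ≤ 2 * q F ^ n := by linarith
    have hM0 : 0 < q F ^ M := by positivity
    calc (1 + (n : ℝ)) * E2 ≤ (1 + (n : ℝ)) * (24 * (1 + C0) * q F ^ M) :=
          mul_le_mul_of_nonneg_left hE2 (by positivity)
      _ ≤ (2 * q F ^ n) * (24 * (1 + C0) * q F ^ M) := mul_le_mul_of_nonneg_right h3 (by positivity)
      _ = _ := by rw [pow_add]; ring
  have hmain : |q F ^ n * TS - q F ^ (n + M) * (min n M : ℕ)| ≤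
      q F ^ (n + M) * ((75 + 62 * C0) * (1 + X)) := by
    have h1 := abs_le.1 hE1
    have h2 : q F ^ (n + M) * (13 + 7 * C0 + 8 * X) + q F ^ (n + M) * (14 + 7 * C0 + 8 * X) +
        48 * (1 + C0) * q F ^ (n + M) ≤ q F ^ (n + M) * ((75 + 62 * C0) * (1 + X)) := by
      have h3 : 13 + 7 * C0 + 8 * X + (14 + 7 * C0 + 8 * X) + 48 * (1 + C0) ≤
          (75 + 62 * C0) * (1 + X) := by nlinarith [mul_nonneg hC.le hX0]
      have h4 := mul_le_mul_of_nonneg_left h3 hnM.le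
      linarith
    rw [abs_le]
    constructor <;> linarith [h1.1, h1.2]
  have hqn : 0 < q F ^ n := by positivity
  have e : q F ^ n * TS - q F ^ (n + M) * (min n M : ℕ) =
      q F ^ n * (TS - q F ^ M * (min n M : ℕ)) := by
    rw [pow_add]
    ring
  rw [e, abs_mul, abs_of_pos hqn, pow_add, mul_assoc] at hmain
  exact le_of_mul_le_mul_left hmain hqn

end Pool.Agent.H23.PC
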