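import Pool.Agent.H23.PC.DC

/-!
# Gauss sums of primitive Dirichlet characters of `F[X]`
-/

set_option autoImplicit false

open Finset Polynomial ComplexConjugate
open Pool.Agent.H341R2.Sharp (Mon mem_Mon)
open Pool.Agent.H23.FF

namespace Pool.Agent.H23.PC

variable {F : Type} [Field F] [Fintype F]

omit [Fintype F] in
theorem dvd_mod_sub {D : F[X]} (x : F[X]) : D ∣ x %ₘ D - x := by
  have h := modByMonic_add_div x D
  refine ⟨-(x /ₘ D), ?_⟩
  nth_rewrite 2 [← h]
  ring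

theorem mod_eq {d : ℕ} {D a x : F[X]} (hD : D.Monic) (hd : D.natDegree = d) (ha : a ∈ Lo F d)
    (h : D ∣ x - a) : x %ₘ D = a := by
  rw [modByMonic_eq_of_dvd_sub hD h, modByMonic_eq_self_iff hD, degree_eq_natDegree hD.ne_zero, hd]
  exact mem_Lo.1 ha

/-- reindexing by a unit -/
theorem sum_mul_unit {M : Type*} [AddCommMonoid M] {d : ℕ} {D b : F[X]} (hD : D.Monic)
    (hd : D.natDegree = d) (hb : IsCoprime b D) (G : F[X] → M) (hG : ∀ x y, D ∣ x - y → G x = G y) :
    ∑ a ∈ Lo F d, G (a * b) = ∑ a ∈ Lo F d, G a := by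
  obtain ⟨u, v, huv⟩ := hb
  refine sum_nbij' (fun a => (a * b) %ₘ D) (fun a => (a * u) %ₘ D) ?_ ?_ ?_ ?_ ?_
  · intro a _
    exact mod_mem_Lo hD hd _
  · intro a _
    exact mod_mem_Lo hD hd _
  · intro a ha
    apply mod_eq hD hd ha
    have e : (a * b) %ₘ D * u - a = ((a * b) %ₘ D - a * b) * u - a * v * D := by
      have : a * v * D = a * (1 - u * b) := by rw [← huv]; ring
      rw [this]
      ring
    rw [e]
    exact dvd_sub ((dvd_mod_sub _).mul_right _) (dvd_mul_left _ _)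
  · intro a ha
    apply mod_eq hD hd ha
    have e : (a * u) %ₘ D * b - a = ((a * u) %ₘ D - a * u) * b - a * v * D := by
      have : a * v * D = a * (1 - u * b) := by rw [← huv]; ring
      rw [this]
      ring
    rw [e]
    exact dvd_sub ((dvd_mod_sub _).mul_right _) (dvd_mul_left _ _)
  · intro a _
    apply hG
    rw [← dvd_neg, neg_sub]
    exact dvd_mod_sub _

/-- the additive character modulo `D` -/
noncomputable def eD (ψ : AddChar F ℂ) (D f : F[X]) : ℂ := ψ ((f %ₘ D).coeff (D.natDegree - 1))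

omit [Fintype F] in
theorem eD_add (ψ : AddChar F ℂ) (D a b : F[X]) : eD ψ D (a + b) = eD ψ D a * eD ψ D b := by
  unfold eD
  rw [add_modByMonic, coeff_add, AddChar.map_add_eq_mul]

omit [Fintype F] in
theorem eD_per (ψ : AddChar F ℂ) {D a b : F[X]} (hD : D.Monic) (h : D ∣ a - b) :
    eD ψ D a = eD ψ D b := by
  unfold eD
  rw [modByMonic_eq_of_dvd_sub hD h]

theorem eD_norm (ψ : AddChar F ℂ) (D a : F[X]) : ‖eD ψ D a‖ = 1 := ψ.norm_apply _

theorem eD_conj (ψ : AddChar F ℂ) (D a : F[X]) : conj (eD ψ D a) = eD ψ D (-a) := by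
  unfold eD
  rw [neg_modByMonic, coeff_neg, AddChar.map_neg_eq_conj]

theorem orth {d : ℕ} {D : F[X]} (hD : D.Monic) (hd : D.natDegree = d) (hd1 : 1 ≤ d)
    {ψ : AddChar F ℂ} (hψ : ∃ x, ψ x ≠ 1) (a : F[X]) (ha : ¬ D ∣ a) :
    ∑ b ∈ Lo F d, eD ψ D (a * b) = 0 := by
  obtain ⟨x, hx⟩ := hψ
  set a0 := a %ₘ D with ha0
  have hne : a0 ≠ 0 := by
    intro h
    apply ha
    rwa [← modByMonic_eq_zero_iff_dvd hD]
  have hmem : a0 ∈ Lo F d := mod_mem_Lo hD hd a
  rw [mem_Lo, degree_eq_natDegree hne] at hmem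
  have hj : a0.natDegree < d := by exact_mod_cast hmem
  have hl : a0.leadingCoeff ≠ 0 := leadingCoeff_ne_zero.2 hne
  set b0 : F[X] := C (x / a0.leadingCoeff) * X ^ (d - 1 - a0.natDegree) with hb0
  have hdeg : ∀ N : ℕ, d - 1 - a0.natDegree < N → b0 ∈ Lo F N := by
    intro N hN
    rw [mem_Lo]
    refine (degree_C_mul_X_pow_le _ _).trans_lt ?_
    exact_mod_cast hN
  have hb0m : b0 ∈ Lo F d := hdeg d (by omega)
  have hprod : a0 * b0 ∈ Lo F d := by
    have h1 : a0 ∈ Lo F (a0.natDegree + 1) := by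
      rw [mem_Lo, degree_eq_natDegree hne]
      exact_mod_cast Nat.lt_succ_self _
    have h2 := mul_mem_Lo' h1 (hdeg (d - 1 - a0.natDegree + 1) (by omega))
    exact Lo_mono (by omega) h2
  have hw : eD ψ D (a * b0) = ψ x := by
    have h1 : (a * b0) %ₘ D = a0 * b0 := by
      apply mod_eq hD hd hprod
      have e : a * b0 - a0 * b0 = -((a0 - a) * b0) := by ring
      rw [e, dvd_neg]
      exact (dvd_mod_sub _).mul_right _
    unfold eD
    rw [h1, hd, hb0]
    have h2 : (a0 * (C (x / a0.leadingCoeff) * X ^ (d - 1 - a0.natDegree))).coeff (d - 1) = x := by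
      rw [← mul_assoc, mul_comm a0 (C _), mul_assoc, coeff_C_mul, coeff_mul_X_pow',
        if_pos (by omega)]
      have h3 : d - 1 - (d - 1 - a0.natDegree) = a0.natDegree := by omega
      rw [h3]
      change x / a0.leadingCoeff * a0.leadingCoeff = x
      field_simp
    rw [h2]
  have h1 := sum_Lo_add hb0m (fun b => eD ψ D (a * b))
  have h2 : ∀ b ∈ Lo F d, eD ψ D (a * (b + b0)) = eD ψ D (a * b) * ψ x := by
    intro b _
    rw [mul_add, eD_add, hw]
  rw [sum_congr rfl h2, ← sum_mul] at h1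
  have h3 : (∑ b ∈ Lo F d, eD ψ D (a * b)) * (ψ x - 1) = 0 := by
    rw [mul_sub, mul_one, h1, sub_self]
  rcases mul_eq_zero.1 h3 with h4 | h4
  · exact h4
  · exact absurd (sub_eq_zero.1 h4) hx

/-- Gauss sums -/
noncomputable def GS (χ : F[X] → ℂ) (ψ : AddChar F ℂ) (D b : F[X]) : ℂ :=
  ∑ a ∈ Lo F D.natDegree, χ a * eD ψ D (a * b)

theorem GS_parseval {d : ℕ} {D : F[X]} {χ : F[X] → ℂ} (h : DC D χ) (hd : D.natDegree = d)
    (hd1 : 1 ≤ d) {ψ : AddChar F ℂ} (hψ : ∃ x, ψ x ≠ 1) :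
    ∑ b ∈ Lo F d, ‖GS χ ψ D b‖ ^ 2 = q F ^ d * phi D := by
  classical
  have hD := h.monic
  have h1 : ∀ b ∈ Lo F d, ((‖GS χ ψ D b‖ ^ 2 : ℝ) : ℂ) =
      ∑ a ∈ Lo F d, ∑ a' ∈ Lo F d, χ a * conj (χ a') * eD ψ D ((a - a') * b) := by
    intro b _
    have h2 : ((‖GS χ ψ D b‖ ^ 2 : ℝ) : ℂ) = GS χ ψ D b * conj (GS χ ψ D b) := by
      rw [Complex.mul_conj']
      push_cast
      rfl
    rw [h2]
    unfold GS
    rw [hd, map_sum, sum_mul_sum]
    apply sum_congr rfl
    intro a _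
    apply sum_congr rfl
    intro a' _
    rw [map_mul, eD_conj]
    have e : (a - a') * b = a * b + -(a' * b) := by ring
    rw [e, eD_add]
    ring
  have h2 : ((∑ b ∈ Lo F d, ‖GS χ ψ D b‖ ^ 2 : ℝ) : ℂ) = ((q F ^ d * phi D : ℝ) : ℂ) := by
    rw [Complex.ofReal_sum, sum_congr rfl h1, sum_comm]
    have h3 : ∀ a ∈ Lo F d, ∑ b ∈ Lo F d, ∑ a' ∈ Lo F d, χ a * conj (χ a') * eD ψ D ((a - a') * b) =
        (q F : ℂ) ^ d * (if IsCoprime a D then 1 else 0) := by
      intro a ha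
      rw [sum_comm]
      have h4 : ∀ a' ∈ Lo F d, a' ≠ a → ∑ b ∈ Lo F d, χ a * conj (χ a') * eD ψ D ((a - a') * b) = 0 := by
        intro a' ha' hne
        rw [← mul_sum, orth hD hd hd1 hψ, mul_zero]
        intro hdvd
        apply hne
        have h5 := mod_eq hD hd ha' hdvd
        have h6 : a %ₘ D = a := by
          rw [modByMonic_eq_self_iff hD, degree_eq_natDegree hD.ne_zero, hd]
          exact mem_Lo.1 ha
        rw [← h5, h6]
      rw [sum_eq_single_of_mem a ha h4]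
      have h5 : ∀ b ∈ Lo F d, χ a * conj (χ a) * eD ψ D ((a - a) * b) = χ a * conj (χ a) := by
        intro b _
        have e : (a - a) * b = 0 := by ring
        rw [e]
        unfold eD
        rw [zero_modByMonic, coeff_zero, AddChar.map_zero_eq_one, mul_one]
      rw [sum_congr rfl h5, sum_const, nsmul_eq_mul, card_Lo]
      have h6 : (((Fintype.card F ^ d : ℕ)) : ℂ) = (q F : ℂ) ^ d := by
        unfold q
        push_cast
        rfl
      rw [h6]
      congr 1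
      rw [Complex.mul_conj']
      by_cases hc : IsCoprime a D
      · rw [if_pos hc, h.norm hc]
        norm_num
      · rw [if_neg hc, h.zero a hc, norm_zero]
        norm_num
    rw [sum_congr rfl h3, ← mul_sum, ← sum_filter, sum_const, nsmul_eq_mul, mul_one]
    unfold phi
    rw [hd]
    push_cast
    rfl
  exact_mod_cast h2

theorem GS_unit {d : ℕ} {D b : F[X]} {χ : F[X] → ℂ} (h : DC D χ) (hd : D.natDegree = d)
    (ψ : AddChar F ℂ) (hb : IsCoprime b D) : ‖GS χ ψ D b‖ = ‖GS χ ψ D 1‖ := by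
  have hD := h.monic
  have h1 : χ b * GS χ ψ D b = GS χ ψ D 1 := by
    unfold GS
    rw [mul_sum, hd]
    have h2 := sum_mul_unit hD hd hb (fun x => χ x * eD ψ D (x * 1)) (by
      intro x y hxy
      change χ x * eD ψ D (x * 1) = χ y * eD ψ D (y * 1)
      rw [h.per x y hxy, mul_one, mul_one, eD_per ψ hD hxy])
    rw [← h2]
    apply sum_congr rfl
    intro a _
    change χ b * (χ a * eD ψ D (a * b)) = χ (a * b) * eD ψ D (a * b * 1)
    rw [h.mul, mul_one]
    ring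
  rw [← h1, norm_mul, h.norm hb, one_mul]

theorem GS_nonunit {d : ℕ} {D b : F[X]} {χ : F[X] → ℂ} (h : DC D χ) (hp : Pri D χ)
    (hd : D.natDegree = d) (ψ : AddChar F ℂ) (hb : ¬ IsCoprime b D) : GS χ ψ D b = 0 := by
  have hD := h.monic
  obtain ⟨P, hP, hP', hPb, hPD⟩ := exists_prime_of_not_coprime hb hD.ne_zero
  obtain ⟨D', hD'⟩ := hPD
  have hm : D'.Monic := by
    apply hP.of_mul_monic_left
    rw [← hD']
    exact hD
  have hne : D' ≠ D := by
    intro e
    have h1 := congrArg natDegree hD'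
    rw [hP.natDegree_mul hm, e] at h1
    have := hP'.natDegree_pos
    omega
  obtain ⟨f, hf1, hf2, hf3⟩ := hp D' hm ⟨P, by rw [hD']; ring⟩ hne
  have h1 : χ f * GS χ ψ D b = GS χ ψ D b := by
    unfold GS
    rw [mul_sum, hd]
    have h2 := sum_mul_unit hD hd hf2 (fun x => χ x * eD ψ D (x * b)) (by
      intro x y hxy
      change χ x * eD ψ D (x * b) = χ y * eD ψ D (y * b)
      rw [h.per x y hxy, eD_per ψ hD (a := x * b) (b := y * b) (by
        rw [← sub_mul]
        exact hxy.mul_right _)])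
    rw [← h2]
    apply sum_congr rfl
    intro a _
    change χ f * (χ a * eD ψ D (a * b)) = χ (a * f) * eD ψ D (a * f * b)
    rw [h.mul, eD_per ψ hD (a := a * b) (b := a * f * b)]
    · ring
    · obtain ⟨y, hy⟩ := hf1
      obtain ⟨z, hz⟩ := hPb
      refine ⟨-(a * y * z), ?_⟩
      have e : a * b - a * f * b = -(a * ((f - 1) * b)) := by ring
      rw [e, hy, hz, hD']
      ring
  have h2 : (χ f - 1) * GS χ ψ D b = 0 := by
    rw [sub_mul, h1, one_mul, sub_self]
  rcases mul_eq_zero.1 h2 with h3 | h3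
  · exact absurd (sub_eq_zero.1 h3) hf3
  · exact h3

/-- **The absolute value of the Gauss sum.** -/
theorem gauss {d : ℕ} {D : F[X]} {χ : F[X] → ℂ} (h : DC D χ) (hp : Pri D χ)
    (hd : D.natDegree = d) (hd1 : 1 ≤ d) {ψ : AddChar F ℂ} (hψ : ∃ x, ψ x ≠ 1) :
    ‖GS χ ψ D 1‖ ^ 2 = q F ^ d := by
  classical
  have h1 := GS_parseval h hd hd1 hψ
  have h2 : ∀ b ∈ Lo F d, ‖GS χ ψ D b‖ ^ 2 = if IsCoprime b D then ‖GS χ ψ D 1‖ ^ 2 else 0 := by
    intro b _
    by_cases hb : IsCoprime b D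
    · rw [if_pos hb, GS_unit h hd ψ hb]
    · rw [if_neg hb, GS_nonunit h hp hd ψ hb, norm_zero]
      norm_num
  rw [sum_congr rfl h2, ← sum_filter, sum_const, nsmul_eq_mul] at h1
  have h3 : (((Lo F d).filter (fun b => IsCoprime b D)).card : ℝ) = phi D := by
    unfold phi
    rw [hd]
  rw [h3] at h1
  have h4 : (0 : ℝ) < phi D := by exact_mod_cast phi_pos h.monic
  nlinarith

/-! ## The top coefficient -/

/-- the coefficients of the L-function -/
noncomputable def cf (χ : F[X] → ℂ) (k : ℕ) : ℂ := ∑ f ∈ Mon F k, χ f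

theorem split_Lo {M : Type*} [AddCommMonoid M] (K : ℕ) (G : F[X] → M) :
    ∑ a ∈ Lo F (K + 1), G a = ∑ c : F, ∑ v ∈ Lo F K, G (X ^ K * C c + v) := by
  rw [sum_Lo_dec (monic_X_pow K) (natDegree_X_pow K) G]
  refine sum_nbij' (fun u => u.coeff 0) (fun c => C c) ?_ ?_ ?_ ?_ ?_
  · intro _ _
    exact mem_univ _
  · intro c _
    rw [mem_Lo]
    exact degree_C_le.trans_lt (by norm_num)
  · intro u hu
    rw [mem_Lo] at hu
    symm
    apply eq_C_of_degree_le_zero
    exact Order.le_of_lt_succ hu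
  · intro c _
    exact coeff_C_zero
  · intro u hu
    rw [mem_Lo] at hu
    have h1 : u = C (u.coeff 0) := eq_C_of_degree_le_zero (Order.le_of_lt_succ hu)
    change ∑ b ∈ Lo F K, G (X ^ K * u + b) = ∑ v ∈ Lo F K, G (X ^ K * C (u.coeff 0) + v)
    rw [← h1]

theorem sum_Mon_eq {M : Type*} [AddCommMonoid M] (K : ℕ) (G : F[X] → M) :
    ∑ f ∈ Mon F K, G f = ∑ v ∈ Lo F K, G (X ^ K + v) := by
  refine sum_nbij' (fun f => f - X ^ K) (fun v => X ^ K + v) ?_ ?_ ?_ ?_ ?_
  · intro f hf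
    exact mem_Lo_iff_sub hf (X_pow_mem_Mon K)
  · intro v hv
    exact add_mem_Mon (X_pow_mem_Mon K) hv
  · intro f _
    ring
  · intro v _
    ring
  · intro f _
    congr 1
    ring

theorem sum_scaled {D : F[X]} {χ : F[X] → ℂ} (h : DC D χ) (K : ℕ) {c : F} (hc : c ≠ 0) :
    ∑ v ∈ Lo F K, χ (X ^ K * C c + v) = χ (C c) * cf χ K := by
  unfold cf
  rw [sum_Mon_eq, mul_sum]
  refine sum_nbij' (fun v => C c⁻¹ * v) (fun v => C c * v) ?_ ?_ ?_ ?_ ?_
  · intro v hv
    rw [mem_Lo] at hv ⊢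
    rwa [degree_C_mul (inv_ne_zero hc)]
  · intro v hv
    rw [mem_Lo] at hv ⊢
    rwa [degree_C_mul hc]
  · intro v _
    change C c * (C c⁻¹ * v) = v
    rw [← mul_assoc, ← C_mul, mul_inv_cancel₀ hc, C_1, one_mul]
  · intro v _
    change C c⁻¹ * (C c * v) = v
    rw [← mul_assoc, ← C_mul, inv_mul_cancel₀ hc, C_1, one_mul]
  · intro v _
    rw [← h.mul]
    congr 1
    calc X ^ K * C c + v = C c * X ^ K + (C c * C c⁻¹) * v := by
          rw [← C_mul, mul_inv_cancel₀ hc, C_1]; ring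
      _ = _ := by ring

open Classical in
theorem sum_w {D : F[X]} {χ : F[X] → ℂ} (h : DC D χ) (K : ℕ) (w : F → ℂ) :
    ∑ a ∈ Lo F (K + 1), χ a * w (a.coeff K) =
      w 0 * ∑ a ∈ Lo F K, χ a + (∑ c ∈ univ.filter (fun c : F => c ≠ 0), w c * χ (C c)) * cf χ K := by
  rw [split_Lo K (fun a => χ a * w (a.coeff K))]
  have h1 : ∀ c : F, ∑ v ∈ Lo F K, χ (X ^ K * C c + v) * w ((X ^ K * C c + v).coeff K) =
      w c * ∑ v ∈ Lo F K, χ (X ^ K * C c + v) := by
    intro c
    rw [mul_sum]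
    apply sum_congr rfl
    intro v hv
    have h2 : (X ^ K * C c + v).coeff K = c := by
      rw [coeff_add, coeff_mul_C, coeff_X_pow, if_pos rfl, one_mul, coeff_eq_zero_of_degree_lt, add_zero]
      exact mem_Lo.1 hv
    rw [h2]
    ring
  rw [sum_congr rfl fun c _ => h1 c, ← sum_filter_add_sum_filter_not univ (fun c : F => c ≠ 0), add_comm]
  congr 1
  · have h2 : univ.filter (fun c : F => ¬ c ≠ 0) = {0} := by
      ext c
      simp
    rw [h2, sum_singleton, map_zero, mul_zero]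
    congr 1
    apply sum_congr rfl
    intro v _
    rw [zero_add]
  · rw [sum_mul]
    apply sum_congr rfl
    intro c hc
    rw [mem_filter] at hc
    rw [sum_scaled h K hc.2]
    ring

/-- the sum over the constants -/
noncomputable def sc (χ : F[X] → ℂ) : ℂ := open Classical in
  ∑ c ∈ univ.filter (fun c : F => c ≠ 0), χ (C c)

theorem sum_Lo_succ {D : F[X]} {χ : F[X] → ℂ} (h : DC D χ) (K : ℕ) :
    ∑ a ∈ Lo F (K + 1), χ a = ∑ a ∈ Lo F K, χ a + sc χ * cf χ K := by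
  classical
  have h1 := sum_w h K (fun _ => 1)
  simp only [mul_one, one_mul] at h1
  rw [h1]
  rfl

theorem sum_Lo_all {D : F[X]} {χ : F[X] → ℂ} (h : DC D χ) (hd : 1 ≤ D.natDegree) (K : ℕ) :
    ∑ a ∈ Lo F K, χ a = sc χ * ∑ k ∈ range K, cf χ k := by
  induction K with
  | zero =>
    rw [range_zero, sum_empty, mul_zero]
    apply sum_eq_zero
    intro a ha
    rw [mem_Lo] at ha
    have h1 : a = 0 := by
      rw [← degree_eq_bot]
      exact Order.lt_succ_bot_iff.1 (by simpa using ha)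
    rw [h1]
    apply h.zero
    intro hc
    rw [isCoprime_zero_left] at hc
    have := natDegree_eq_zero_of_isUnit hc
    omega
  | succ K ih => rw [sum_Lo_succ h, ih, sum_range_succ, mul_add]

theorem sum_Lo_zero {d : ℕ} {D : F[X]} {χ : F[X] → ℂ} (h : DC D χ) (hd : D.natDegree = d)
    (hn : ∃ f, IsCoprime f D ∧ χ f ≠ 1) : ∑ a ∈ Lo F d, χ a = 0 := by
  obtain ⟨f, hf, hf1⟩ := hn
  have h2 := sum_mul_unit h.monic hd hf χ h.per
  have h3 : ∀ a ∈ Lo F d, χ (a * f) = χ a * χ f := fun a _ => h.mul _ _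
  rw [sum_congr rfl h3, ← sum_mul] at h2
  have h4 : (∑ a ∈ Lo F d, χ a) * (χ f - 1) = 0 := by
    rw [mul_sub, h2, mul_one, sub_self]
  rcases mul_eq_zero.1 h4 with h5 | h5
  · exact h5
  · exact absurd (sub_eq_zero.1 h5) hf1

open Classical in
/-- the Gauss sum in terms of the top coefficient -/
theorem GS_top {K : ℕ} {D : F[X]} {χ : F[X] → ℂ} (h : DC D χ) (hd : D.natDegree = K + 1)
    (ψ : AddChar F ℂ) :
    GS χ ψ D 1 = ∑ a ∈ Lo F K, χ a +
      (∑ c ∈ univ.filter (fun c : F => c ≠ 0), ψ c * χ (C c)) * cf χ K := by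
  have h1 := sum_w h K (fun c => ψ c)
  rw [AddChar.map_zero_eq_one, one_mul] at h1
  rw [← h1]
  unfold GS
  rw [hd]
  apply sum_congr rfl
  intro a ha
  congr 1
  unfold eD
  rw [mul_one, hd, Nat.add_sub_cancel]
  have h6 : a %ₘ D = a := by
    rw [modByMonic_eq_self_iff h.monic, degree_eq_natDegree h.monic.ne_zero, hd]
    exact mem_Lo.1 ha
  rw [h6]

end Pool.Agent.H23.PC
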