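import Pool.Agent.H23.PC.Arith3

/-!
# The von Mangoldt function of `F[X]`
-/

set_option autoImplicit false

open Finset Polynomial ComplexConjugate
open Pool.Agent.H341R2.Sharp (Mon mem_Mon)
open Pool.Agent.Q284.PS (Hay PD)
open Pool.Agent.Q284.WE (trc NonPr)
open Pool.Agent.H23.FF

namespace Pool.Agent.H23.PC

variable {F : Type} [Field F] [Fintype F]

open Classical in
/-- the von Mangoldt function: `deg P` at the powers of the monic irreducible polynomials `P` -/
noncomputable def vM {F : Type} [Field F] (f : F[X]) : ℝ :=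
  if h : ∃ P : F[X], P.Monic ∧ Irreducible P ∧ ∃ k : ℕ, 1 ≤ k ∧ f = P ^ k then
    (h.choose.natDegree : ℝ) else 0

omit [Fintype F] in
theorem pow_unique {P R : F[X]} (hP : P.Monic) (hP' : Irreducible P) (hR : R.Monic)
    (hR' : Irreducible R) {a b : ℕ} (ha : 1 ≤ a) (h : P ^ a = R ^ b) : P = R := by
  apply monic_irr_dvd_eq hP hP' hR hR'
  apply hP'.prime.dvd_of_dvd_pow (n := b)
  rw [← h]
  exact dvd_pow_self P (by omega)

omit [Fintype F] in
theorem vM_pow {P : F[X]} (hP : P.Monic) (hP' : Irreducible P) {k : ℕ} (hk : 1 ≤ k) :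
    vM (P ^ k) = P.natDegree := by
  have h : ∃ R : F[X], R.Monic ∧ Irreducible R ∧ ∃ j : ℕ, 1 ≤ j ∧ P ^ k = R ^ j :=
    ⟨P, hP, hP', k, hk, rfl⟩
  unfold vM
  rw [dif_pos h]
  obtain ⟨h1, h2, j, _, h4⟩ := h.choose_spec
  rw [← pow_unique hP hP' h1 h2 hk h4]

omit [Fintype F] in
theorem vM_ne {f : F[X]} (h : vM f ≠ 0) :
    ∃ P : F[X], P.Monic ∧ Irreducible P ∧ ∃ k : ℕ, 1 ≤ k ∧ f = P ^ k := by
  by_contra hc
  apply h
  unfold vM
  rw [dif_neg hc]

omit [Fintype F] in
theorem vM_nonneg (f : F[X]) : 0 ≤ vM f := by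
  unfold vM
  split_ifs
  · exact Nat.cast_nonneg _
  · exact le_rfl

omit [Fintype F] in
theorem vM_le {n : ℕ} {f : F[X]} (hf : f.natDegree = n) : vM f ≤ n := by
  by_cases h : vM f = 0
  · rw [h]
    exact Nat.cast_nonneg n
  · obtain ⟨P, h1, h2, k, hk, rfl⟩ := vM_ne h
    rw [vM_pow h1 h2 hk]
    rw [natDegree_pow] at hf
    have : P.natDegree ≤ n := by nlinarith
    exact_mod_cast this

theorem sum_pp {M : Type*} [AddCommMonoid M] {n : ℕ} (hn : 1 ≤ n) (H : F[X] → M)
    (hH : ∀ f ∈ Mon F n, vM f = 0 → H f = 0) :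
    ∑ f ∈ Mon F n, H f = ∑ P ∈ PD F n, H (P ^ (n / P.natDegree)) := by
  classical
  have hdeg : ∀ P ∈ PD F n, 1 ≤ P.natDegree ∧ P.natDegree * (n / P.natDegree) = n := by
    intro P hP
    rw [mem_PD hn] at hP
    exact ⟨hP.2.1.natDegree_pos, Nat.mul_div_cancel' hP.2.2⟩
  have hk : ∀ P ∈ PD F n, 1 ≤ n / P.natDegree := by
    intro P hP
    have h1 := hdeg P hP
    by_contra h
    push Not at h
    have h2 : n / P.natDegree = 0 := Nat.lt_one_iff.1 h
    rw [h2] at h1
    omega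
  have hinj : Set.InjOn (fun P : F[X] => P ^ (n / P.natDegree)) (PD F n : Set F[X]) := by
    intro P hP R hR h
    have hP' := (mem_PD hn).1 hP
    have hR' := (mem_PD hn).1 hR
    exact pow_unique hP'.1 hP'.2.1 hR'.1 hR'.2.1 (hk P hP) h
  rw [← sum_image (f := H) hinj]
  symm
  apply sum_subset
  · intro f hf
    rw [mem_image] at hf
    obtain ⟨P, hP, rfl⟩ := hf
    have h1 := (mem_PD hn).1 hP
    rw [mem_Mon]
    refine ⟨h1.1.pow _, ?_⟩
    rw [h1.1.natDegree_pow, mul_comm]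
    exact (hdeg P hP).2
  · intro f hf hfi
    apply hH f hf
    by_contra h
    obtain ⟨P, h1, h2, k, hk', rfl⟩ := vM_ne h
    apply hfi
    rw [mem_image]
    rw [mem_Mon, h1.natDegree_pow] at hf
    have h3 := h2.natDegree_pos
    have h4 : n / P.natDegree = k := by
      rw [← hf.2]
      exact Nat.mul_div_cancel k h3
    refine ⟨P, (mem_PD hn).2 ⟨h1, h2, ⟨k, by rw [← hf.2]; ring⟩⟩, ?_⟩
    change P ^ (n / P.natDegree) = P ^ k
    rw [h4]

/-- the value at `P ^ (n / deg P)` -/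
theorem vM_PD {n : ℕ} (hn : 1 ≤ n) {P : F[X]} (hP : P ∈ PD F n) :
    vM (P ^ (n / P.natDegree)) = P.natDegree := by
  rw [mem_PD hn] at hP
  apply vM_pow hP.1 hP.2.1
  obtain ⟨c, hc⟩ := hP.2.2
  have h1 := hP.2.1.natDegree_pos
  rw [hc, Nat.mul_div_cancel_left _ h1]
  by_contra h
  have : c = 0 := by omega
  subst this
  omega

theorem sum_vM {n : ℕ} (hn : 1 ≤ n) : ∑ f ∈ Mon F n, vM f = q F ^ n := by
  rw [sum_pp hn _ (fun f _ h => h), sum_congr rfl (fun P hP => vM_PD hn hP)]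
  have := Pool.Agent.Q53.PS.t_CPR F n hn
  unfold q
  exact_mod_cast this

theorem sum_vM_ch {n : ℕ} (hn : 1 ≤ n) (χ : F[X] → ℂ) (hχ : ∀ P ∈ PD F n, ∀ k : ℕ,
    χ (P ^ k) = χ P ^ k) : ∑ f ∈ Mon F n, (vM f : ℂ) * χ f = trc χ n := by
  rw [sum_pp hn _ (fun f _ h => by rw [h, Complex.ofReal_zero, zero_mul])]
  unfold trc
  apply sum_congr rfl
  intro P hP
  rw [vM_PD hn hP, hχ P hP]
  push_cast
  rfl

omit [Fintype F] in
theorem dvd_of_not_coprime {g f : F[X]} {P : F[X]} (hP' : Irreducible P) {k : ℕ}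
    (hf : f = P ^ k) (h : ¬ IsCoprime f g) : P ∣ g := by
  by_contra hc
  apply h
  rw [hf]
  exact ((hP'.coprime_iff_not_dvd).2 hc).pow_left

omit [Fintype F] in
/-- different prime powers of the same degree in one class are coprime to the modulus -/
theorem coprime_of_pair {n : ℕ} {g f f' : F[X]} (hf : f.Monic ∧ f.natDegree = n)
    (hf' : f'.Monic ∧ f'.natDegree = n) (h1 : vM f ≠ 0) (h2 : vM f' ≠ 0) (hd : g ∣ f' - f)
    (hne : f ≠ f') : IsCoprime f g := by
  by_contra hc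
  obtain ⟨P, hP, hPi, k, hk, e1⟩ := vM_ne h1
  obtain ⟨R, hR, hRi, j, hj, e2⟩ := vM_ne h2
  have h3 : P ∣ g := dvd_of_not_coprime hPi e1 hc
  have h4 : P ∣ f' := by
    have h5 : P ∣ f' - f := h3.trans hd
    have h6 : P ∣ f := by
      rw [e1]
      exact dvd_pow_self P (by omega)
    have := dvd_add h5 h6
    rwa [sub_add_cancel] at this
  have h5 : P = R := by
    apply monic_irr_dvd_eq hP hPi hR hRi
    rw [e2] at h4
    exact hPi.prime.dvd_of_dvd_pow h4
  subst h5
  apply hne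
  rw [e1, e2]
  congr 1
  have h6 : k * P.natDegree = j * P.natDegree := by
    rw [← hP.natDegree_pow, ← hP.natDegree_pow, ← e1, ← e2, hf.2, hf'.2]
  exact Nat.eq_of_mul_eq_mul_right hPi.natDegree_pos h6

open Classical in
/-- the primes of degree dividing `n` which divide `g` -/
theorem sum_deg_le {g : F[X]} (hg : g.Monic) (n : ℕ) (hn : 1 ≤ n) :
    ∑ P ∈ PD F n with P ∣ g, P.natDegree ≤ g.natDegree := by
  set T := (PD F n).filter (fun P => P ∣ g) with hT
  have hT2 : ∀ P ∈ T, P.Monic ∧ Irreducible P := by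
    intro P hP
    rw [hT, mem_filter, mem_PD hn] at hP
    exact ⟨hP.1.1, hP.1.2.1⟩
  have h1 : ∏ P ∈ T, P ∣ g := by
    apply Finset.prod_dvd_of_coprime
    · intro P hP R hR hPR
      exact pair_cop (hT2 P hP) (hT2 R hR) hPR
    · intro P hP
      exact (mem_filter.1 hP).2
  have h2 := natDegree_le_of_dvd h1 hg.ne_zero
  rwa [natDegree_prod_of_monic T (fun P => P) (fun P hP => (hT2 P hP).1)] at h2

open Classical in
/-- the part of the sum of the von Mangoldt function coprime to `g` -/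
theorem sum_vM_cop {g : F[X]} (hg : g.Monic) {n : ℕ} (hn : 1 ≤ n) :
    ∑ f ∈ Mon F n, (if IsCoprime f g then vM f else 0) ≤ q F ^ n ∧
    q F ^ n - g.natDegree ≤ ∑ f ∈ Mon F n, (if IsCoprime f g then vM f else 0) := by
  have h1 : ∑ f ∈ Mon F n, (if IsCoprime f g then vM f else 0) =
      q F ^ n - ∑ f ∈ Mon F n, (if IsCoprime f g then 0 else vM f) := by
    rw [← sum_vM hn, ← sum_sub_distrib]
    apply sum_congr rfl
    intro f _
    split_ifs <;> ring
  have h2 : ∑ f ∈ Mon F n, (if IsCoprime f g then 0 else vM f) ≤ g.natDegree := by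
    rw [sum_pp hn _ (fun f _ h => by rw [h, ite_self])]
    have h3 : ∀ P ∈ PD F n, (if IsCoprime (P ^ (n / P.natDegree)) g then 0 else
        vM (P ^ (n / P.natDegree))) ≤ if P ∣ g then (P.natDegree : ℝ) else 0 := by
      intro P hP
      rw [vM_PD hn hP]
      by_cases h : IsCoprime (P ^ (n / P.natDegree)) g
      · rw [if_pos h]
        split_ifs
        · exact Nat.cast_nonneg _
        · exact le_rfl
      · rw [if_neg h, if_pos]
        exact dvd_of_not_coprime ((mem_PD hn).1 hP).2.1 rfl h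
    refine (sum_le_sum h3).trans ?_
    rw [← sum_filter]
    exact_mod_cast sum_deg_le hg n hn
  have h3 : 0 ≤ ∑ f ∈ Mon F n, (if IsCoprime f g then 0 else vM f) := by
    apply sum_nonneg
    intro f _
    split_ifs
    · exact le_rfl
    · exact vM_nonneg f
  rw [h1]
  constructor <;> linarith

open Classical in
/-- the terms which are not coprime to `g` -/
theorem sum_vM_sq_noncop {g : F[X]} (hg : g.Monic) {n : ℕ} (hn : 1 ≤ n) :
    ∑ f ∈ Mon F n, (if IsCoprime f g then 0 else vM f ^ 2) ≤ (g.natDegree : ℝ) ^ 2 := by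
  rw [sum_pp hn _ (fun f _ h => by rw [h]; simp)]
  have h3 : ∀ P ∈ PD F n, (if IsCoprime (P ^ (n / P.natDegree)) g then 0 else
      vM (P ^ (n / P.natDegree)) ^ 2) ≤ g.natDegree * if P ∣ g then (P.natDegree : ℝ) else 0 := by
    intro P hP
    rw [vM_PD hn hP]
    by_cases h : IsCoprime (P ^ (n / P.natDegree)) g
    · rw [if_pos h]
      split_ifs
      · positivity
      · simp
    · have h4 := dvd_of_not_coprime ((mem_PD hn).1 hP).2.1 rfl h
      rw [if_neg h, if_pos h4]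
      have h5 : (P.natDegree : ℝ) ≤ g.natDegree := by
        exact_mod_cast natDegree_le_of_dvd h4 hg.ne_zero
      have h6 : (0 : ℝ) ≤ P.natDegree := Nat.cast_nonneg _
      nlinarith
  refine (sum_le_sum h3).trans ?_
  rw [← mul_sum, ← sum_filter, sq]
  apply mul_le_mul_of_nonneg_left _ (Nat.cast_nonneg _)
  exact_mod_cast sum_deg_le hg n hn

/-- the second moment -/
theorem sum_vM_sq {n : ℕ} (hn : 1 ≤ n) :
    |∑ f ∈ Mon F n, vM f ^ 2 - n * q F ^ n| ≤ 2 * n * (√(q F)) ^ n := by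
  classical
  have h1 : ∑ f ∈ Mon F n, vM f ^ 2 = ∑ P ∈ PD F n, (P.natDegree : ℝ) ^ 2 := by
    rw [sum_pp hn _ (fun f _ h => by rw [h]; norm_num)]
    apply sum_congr rfl
    intro P hP
    rw [vM_PD hn hP]
  have h2 : ∑ P ∈ PD F n, (P.natDegree : ℝ) = q F ^ n := by
    have := Pool.Agent.Q53.PS.t_CPR F n hn
    unfold q
    exact_mod_cast this
  have h3 := small_primes (F := F) n hn
  have hle : ∀ P ∈ PD F n, (P.natDegree : ℝ) ≤ n := by
    intro P hP
    have := Nat.le_of_dvd (by omega) ((mem_PD hn).1 hP).2.2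
    exact_mod_cast this
  have h4 : n * q F ^ n - ∑ P ∈ PD F n, (P.natDegree : ℝ) ^ 2 =
      ∑ P ∈ PD F n, (n - (P.natDegree : ℝ)) * P.natDegree := by
    rw [← h2, mul_sum, ← sum_sub_distrib]
    apply sum_congr rfl
    intro P _
    ring
  have h5 : ∑ P ∈ PD F n, (n - (P.natDegree : ℝ)) * P.natDegree =
      ∑ P ∈ (PD F n).filter (fun P => P.natDegree ≠ n), (n - (P.natDegree : ℝ)) * P.natDegree := by
    rw [sum_filter]
    apply sum_congr rfl
    intro P _
    by_cases h : P.natDegree = n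
    · rw [if_neg (fun h' => h' h), h]
      ring
    · rw [if_pos h]
  have h6 : ∑ P ∈ (PD F n).filter (fun P => P.natDegree ≠ n), (n - (P.natDegree : ℝ)) * P.natDegree ≤
      n * ∑ P ∈ (PD F n).filter (fun P => P.natDegree ≠ n), (P.natDegree : ℝ) := by
    rw [mul_sum]
    apply sum_le_sum
    intro P _
    have h7 : (0 : ℝ) ≤ P.natDegree := Nat.cast_nonneg _
    nlinarith
  have h7 : 0 ≤ ∑ P ∈ PD F n, (n - (P.natDegree : ℝ)) * P.natDegree := by
    apply sum_nonneg
    intro P hP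
    have := hle P hP
    have h8 : (0 : ℝ) ≤ P.natDegree := Nat.cast_nonneg _
    nlinarith
  have hn0 : (0 : ℝ) ≤ n := Nat.cast_nonneg n
  rw [h1, abs_le]
  have h8 := mul_le_mul_of_nonneg_left h3 hn0
  constructor <;> nlinarith

end Pool.Agent.H23.PC
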