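import Pool.Agent.H23.PC.Fam

/-!
# The mean square of the sums over the prime powers, over all characters and moduli
-/

set_option autoImplicit false

open Finset Polynomial ComplexConjugate
open Pool.Agent.H341R2.Sharp (Mon mem_Mon)
open Pool.Agent.Q284.PS (Hay PD)
open Pool.Agent.H23.FF

namespace Pool.Agent.H23.PC

variable {F : Type} [Field F] [Fintype F]

theorem one_le_phi {Q : F[X]} (hQ : Q.Monic) : (1 : ℝ) ≤ phi Q := by
  have := phi_pos hQ
  exact_mod_cast this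

theorem Av_large {n M m : ℕ} (hn1 : 1 ≤ n) (hn : n = M + m) :
    |∑ Q ∈ Mon F M, Av Q (fun χ => ‖ps (fn χ) n‖ ^ 2) - q F ^ (n + M) * M| ≤
      (13 + 7 * C0) * q F ^ (n + M) + 8 * (n : ℝ) ^ 2 * q F ^ (n + m) := by
  have hq := q_pos F
  have h1 : ∀ Q ∈ Mon F M, |Av Q (fun χ => ‖ps (fn χ) n‖ ^ 2) - VV n m Q / q F ^ m| ≤ 4 * q F ^ n := by
    intro Q hQ
    rw [mem_Mon] at hQ
    rw [Av_ps hQ.1, P2_large hQ.1 hQ.2 hn, VV_eq hQ.1 hQ.2 (l := 0) (by omega)]
    have hqm : q F ^ m ≠ 0 := by positivity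
    have hphi := one_le_phi hQ.1
    obtain ⟨h2, h3⟩ := sum_vM_cop hQ.1 hn1
    change Vc n Q ≤ q F ^ n at h2
    change q F ^ n - Q.natDegree ≤ Vc n Q at h3
    rw [hQ.2] at h3
    obtain ⟨h4, h5⟩ := ep_bd hQ.1 hn1
    rw [hQ.2] at h5
    have e1 : q F ^ (M + m) = q F ^ n := by rw [hn]
    have e2 : q F ^ (n + M + m) = q F ^ n * q F ^ n := by
      rw [add_assoc, pow_add, e1]
    rw [mul_div_cancel_left₀ _ hqm, e1, e2]
    have e3 : BB n m Q - ep n Q - Vc n Q ^ 2 / phi Q - (BB n m Q - 2 * (q F ^ n / phi Q) * Vc n Q +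
        q F ^ n * q F ^ n / phi Q) = -(ep n Q + (q F ^ n - Vc n Q) ^ 2 / phi Q) := by
      field_simp
      ring
    rw [e3, abs_neg, abs_of_nonneg (by positivity)]
    have h6 : (q F ^ n - Vc n Q) ^ 2 / phi Q ≤ (M : ℝ) ^ 2 := by
      rw [div_le_iff₀ (by linarith)]
      have h7 : (q F ^ n - Vc n Q) ^ 2 ≤ (M : ℝ) ^ 2 := pow_le_pow_left₀ (by linarith) (by linarith) 2
      have h8 : (0 : ℝ) ≤ (M : ℝ) ^ 2 := by positivity
      nlinarith
    have h7 := sq_le_two_pow (F := F) M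
    have h8 : q F ^ M ≤ q F ^ n := pow_le_pow_right₀ (by have := two_le_q F; linarith) (by omega)
    linarith
  have h2 := core' F (n := n) (r := M) (m := m) hn1 (by omega)
  have h3 : |∑ Q ∈ Mon F M, Av Q (fun χ => ‖ps (fn χ) n‖ ^ 2) - ∑ Q ∈ Mon F M, VV n m Q / q F ^ m| ≤
      4 * q F ^ (n + M) := by
    rw [← sum_sub_distrib]
    refine (abs_sum_le_sum_abs _ _).trans ((sum_le_sum h1).trans ?_)
    rw [sum_const, nsmul_eq_mul, card_Mon_q, pow_add]
    apply le_of_eq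
    ring
  have e : (n : ℝ) - m = M := by
    rw [hn]
    push_cast
    ring
  rw [e] at h2
  rw [abs_le] at h2 h3 ⊢
  constructor <;> linarith [h2.1, h2.2, h3.1, h3.2]

theorem sum_small (n : ℕ) (hn : 1 ≤ n) :
    ∑ P ∈ PD F n, (P.natDegree : ℝ) ^ 2 / nrm P ≤ (n : ℝ) ^ 2 := by
  classical
  have hq := q_pos F
  have h1 : ∀ P ∈ PD F n, P.natDegree ∈ Icc 1 n := by
    intro P hP
    rw [mem_PD hn] at hP
    rw [mem_Icc]
    exact ⟨hP.2.1.natDegree_pos, Nat.le_of_dvd (by omega) hP.2.2⟩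
  rw [← sum_fiberwise_of_maps_to h1]
  have h2 : ∀ d ∈ Icc 1 n, ∑ P ∈ PD F n with P.natDegree = d, (P.natDegree : ℝ) ^ 2 / nrm P ≤ n := by
    intro d hd
    rw [mem_Icc] at hd
    have h3 : ∑ P ∈ PD F n with P.natDegree = d, (P.natDegree : ℝ) ^ 2 / nrm P =
        d / q F ^ d * ∑ P ∈ PD F n with P.natDegree = d, (P.natDegree : ℝ) := by
      rw [mul_sum]
      apply sum_congr rfl
      intro P hP
      rw [mem_filter] at hP
      unfold nrm
      rw [hP.2]
      ring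
    have h4 : ∑ P ∈ PD F n with P.natDegree = d, (P.natDegree : ℝ) ≤ q F ^ d := by
      have h5 : ∑ P ∈ PD F d, (P.natDegree : ℝ) = q F ^ d := by
        have := Pool.Agent.Q53.PS.t_CPR F d hd.1
        unfold q
        exact_mod_cast this
      rw [← h5]
      apply sum_le_sum_of_subset_of_nonneg
      · intro P hP
        rw [mem_filter, mem_PD hn] at hP
        rw [mem_PD hd.1]
        exact ⟨hP.1.1, hP.1.2.1, by rw [hP.2]⟩
      · intro _ _ _
        exact Nat.cast_nonneg _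
    rw [h3]
    have h5 : 0 < q F ^ d := by positivity
    calc d / q F ^ d * ∑ P ∈ PD F n with P.natDegree = d, (P.natDegree : ℝ)
        ≤ d / q F ^ d * q F ^ d := mul_le_mul_of_nonneg_left h4 (by positivity)
      _ = d := by field_simp
      _ ≤ n := by exact_mod_cast hd.2
  refine (sum_le_sum h2).trans ?_
  rw [sum_const, nsmul_eq_mul, Nat.card_Icc, Nat.add_sub_cancel, sq]

theorem ep_avg {n M : ℕ} (hn1 : 1 ≤ n) (hM : n ≤ M) :
    ∑ Q ∈ Mon F M, ep n Q ≤ 2 * q F ^ (n + M) := by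
  classical
  have hq := q_pos F
  unfold ep
  rw [sum_comm, sum_pp hn1 (fun f => ∑ Q ∈ Mon F M, (if IsCoprime f Q then 0 else vM f ^ 2))]
  · have h1 : ∀ P ∈ PD F n, ∑ Q ∈ Mon F M, (if IsCoprime (P ^ (n / P.natDegree)) Q then 0 else
        vM (P ^ (n / P.natDegree)) ^ 2) ≤ q F ^ M * ((P.natDegree : ℝ) ^ 2 / nrm P) := by
      intro P hP
      have hP0 := (mem_PD hn1).1 hP
      have hdeg : P.natDegree ≤ M := (Nat.le_of_dvd (by omega) hP0.2.2).trans hM
      have h2 : ∀ Q ∈ Mon F M, (if IsCoprime (P ^ (n / P.natDegree)) Q then 0 else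
          vM (P ^ (n / P.natDegree)) ^ 2) ≤ if P ∣ Q + 0 then (P.natDegree : ℝ) ^ 2 else 0 := by
        intro Q _
        rw [vM_PD hn1 hP, add_zero]
        by_cases h : IsCoprime (P ^ (n / P.natDegree)) Q
        · rw [if_pos h]
          split_ifs
          · positivity
          · exact le_rfl
        · rw [if_neg h, if_pos (dvd_of_not_coprime hP0.2.1 rfl h)]
      refine (sum_le_sum h2).trans ?_
      rw [← sum_filter, sum_const, nsmul_eq_mul, card_class hP0.1 rfl hdeg]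
      apply le_of_eq
      ring
    refine (sum_le_sum h1).trans ?_
    rw [← mul_sum]
    have h2 := sum_small (F := F) n hn1
    have h3 := sq_le_two_pow (F := F) n
    calc q F ^ M * ∑ P ∈ PD F n, (P.natDegree : ℝ) ^ 2 / nrm P ≤ q F ^ M * (2 * q F ^ n) :=
          mul_le_mul_of_nonneg_left (h2.trans h3) (by positivity)
      _ = _ := by rw [pow_add]; ring
  · intro f _ h0
    apply sum_eq_zero
    intro Q _
    rw [h0]
    simp

theorem Av_small {n M : ℕ} (hn1 : 1 ≤ n) (hM : n ≤ M) :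
    |∑ Q ∈ Mon F M, Av Q (fun χ => ‖ps (fn χ) n‖ ^ 2) - q F ^ (n + M) * n| ≤
      (13 + 7 * C0) * q F ^ (n + M) := by
  have hq := q_pos F
  have hC := C0_pos
  have h1 : ∀ Q ∈ Mon F M, Av Q (fun χ => ‖ps (fn χ) n‖ ^ 2) =
      co n (0 : F[X]) - ep n Q - Vc n Q ^ 2 / phi Q := by
    intro Q hQ
    rw [mem_Mon] at hQ
    rw [Av_ps hQ.1, P2_small hQ.1 hQ.2 hM]
  rw [sum_congr rfl h1, sum_sub_distrib, sum_sub_distrib, sum_const, nsmul_eq_mul, card_Mon_q]
  have h2 : 0 ≤ ∑ Q ∈ Mon F M, ep n Q := by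
    apply sum_nonneg
    intro Q hQ
    exact (ep_bd (mem_Mon.1 hQ).1 hn1).1
  have h3 := ep_avg (F := F) hn1 hM
  have h4 : 0 ≤ ∑ Q ∈ Mon F M, Vc n Q ^ 2 / (phi Q : ℝ) := by positivity
  have h5 : ∑ Q ∈ Mon F M, Vc n Q ^ 2 / (phi Q : ℝ) ≤ 2 * (1 + C0) * q F ^ (n + M) := by
    have h6 : ∀ Q ∈ Mon F M, Vc n Q ^ 2 / (phi Q : ℝ) ≤ q F ^ (n + M) * (1 / (phi Q : ℝ)) := by
      intro Q hQ
      obtain ⟨h2, h3⟩ := sum_vM_cop (mem_Mon.1 hQ).1 hn1
      change Vc n Q ≤ q F ^ n at h2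
      have h0 : 0 ≤ Vc n Q := by
        unfold Vc
        apply sum_nonneg
        intro f _
        split_ifs
        · exact vM_nonneg f
        · exact le_rfl
      have h7 : Vc n Q ^ 2 ≤ q F ^ (n + M) := by
        have h8 : q F ^ n ≤ q F ^ M := pow_le_pow_right₀ (by have := two_le_q F; linarith) hM
        calc Vc n Q ^ 2 ≤ (q F ^ n) ^ 2 := pow_le_pow_left₀ h0 h2 2
          _ = q F ^ n * q F ^ n := by ring
          _ ≤ q F ^ n * q F ^ M := mul_le_mul_of_nonneg_left h8 (by positivity)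
          _ = _ := by rw [pow_add]
      rw [mul_one_div]
      exact div_le_div_of_nonneg_right h7 (Nat.cast_nonneg _)
    refine (sum_le_sum h6).trans ?_
    rw [← mul_sum]
    have h7 := AA_le F M
    have h8 := AA_nonneg F M
    change q F ^ (n + M) * AA F M ≤ _
    calc q F ^ (n + M) * AA F M ≤ q F ^ (n + M) * (2 * (1 + C0)) :=
          mul_le_mul_of_nonneg_left h7 (by positivity)
      _ = _ := by ring
  have h6 : |q F ^ M * co n (0 : F[X]) - q F ^ (n + M) * n| ≤ 3 * q F ^ (n + M) := by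
    have h7 : q F ^ M * co n (0 : F[X]) - q F ^ (n + M) * n =
        q F ^ M * (co n (0 : F[X]) - n * q F ^ n) := by
      rw [pow_add]
      ring
    have h8 : 0 < q F ^ M := by positivity
    rw [h7, abs_mul, abs_of_pos h8]
    calc q F ^ M * |co n (0 : F[X]) - n * q F ^ n| ≤ q F ^ M * (3 * q F ^ n) :=
          mul_le_mul_of_nonneg_left (co_zero_near F hn1) h8.le
      _ = _ := by rw [pow_add]; ring
  have h7 : 0 < q F ^ (n + M) := by positivity
  have h8 : 0 < C0 * q F ^ (n + M) := by positivity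
  rw [abs_le] at h6 ⊢
  constructor <;> nlinarith [h6.1, h6.2]

variable (F) in
/-- **The mean square of the character sums over prime powers.** -/
theorem Av_all {n : ℕ} (M : ℕ) (hn1 : 1 ≤ n) :
    |∑ Q ∈ Mon F M, Av Q (fun χ => ‖ps (fn χ) n‖ ^ 2) - q F ^ (n + M) * (min n M : ℕ)| ≤
      q F ^ (n + M) * (13 + 7 * C0 + 8 * ((n : ℝ) ^ 2 * q F ^ n / q F ^ (2 * M))) := by
  have hq := q_pos F
  have hC := C0_pos
  rcases le_total n M with h | h
  · rw [min_eq_left h]
    refine (Av_small hn1 h).trans ?_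
    have h1 : 0 ≤ q F ^ (n + M) * (8 * ((n : ℝ) ^ 2 * q F ^ n / q F ^ (2 * M))) := by positivity
    nlinarith
  · obtain ⟨m, hm⟩ := Nat.exists_eq_add_of_le h
    rw [min_eq_right h]
    refine (Av_large hn1 hm).trans (le_of_eq ?_)
    have e : q F ^ (n + m) = q F ^ (n + M) * (q F ^ n / q F ^ (2 * M)) := by
      have h1 : q F ^ (2 * M) ≠ 0 := by positivity
      rw [← mul_div_assoc, eq_div_iff h1, ← pow_add, ← pow_add]
      congr 1
      omega
    rw [e]
    ring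

end Pool.Agent.H23.PC
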