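import Pool.Agent.H23.PC.Form

/-!
# Simple zeros
-/

set_option autoImplicit false

open Finset Polynomial ComplexConjugate
open Pool.Agent.H341R2.Sharp (Mon mem_Mon)
open Pool.Agent.H23.FF

namespace Pool.Agent.H23.PC

open Classical in
/-- the number of pairs of equal elements -/
noncomputable def m2 (s : Multiset ℂ) : ℝ := (s.map (fun z => (s.count z : ℝ))).sum

open Classical in
/-- the number of simple elements -/
noncomputable def nsim (s : Multiset ℂ) : ℕ := (s.filter (fun z => s.count z = 1)).card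

theorem sum_ind (s : Multiset ℂ) (p : ℂ → Prop) [DecidablePred p] :
    (s.map (fun z => if p z then (1 : ℝ) else 0)).sum = (s.filter p).card := by
  induction s using Multiset.induction_on with
  | empty => simp
  | cons a s ih =>
    rw [Multiset.map_cons, Multiset.sum_cons, ih, Multiset.filter_cons, Multiset.card_add]
    split_ifs <;> simp

theorem nsim_ge (s : Multiset ℂ) : 2 * (s.card : ℝ) - m2 s ≤ nsim s := by
  classical
  unfold m2 nsim
  rw [← sum_ind]
  have h1 : 2 * (s.card : ℝ) - (s.map (fun z => (s.count z : ℝ))).sum =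
      (s.map (fun z => 2 - (s.count z : ℝ))).sum := by
    rw [Multiset.sum_map_sub, Multiset.map_const', Multiset.sum_replicate, nsmul_eq_mul]
    ring
  rw [h1]
  apply Multiset.sum_map_le_sum_map
  intro z hz
  have h2 : 1 ≤ s.count z := Multiset.one_le_count_iff_mem.2 hz
  by_cases h3 : s.count z = 1
  · rw [if_pos h3, h3]
    norm_num
  · rw [if_neg h3]
    have : (2 : ℝ) ≤ s.count z := by exact_mod_cast (by omega : 2 ≤ s.count z)
    linarith

theorem idx (s : Multiset ℂ) : ∃ (N : ℕ) (z : Fin N → ℂ), (∀ i, z i ∈ s) ∧ ∀ {M : Type}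
    [AddCommMonoid M] (f : ℂ → M), (s.map f).sum = ∑ i, f (z i) := by
  refine ⟨s.toList.length, fun j => s.toList.get j, fun i => ?_, ?_⟩
  · exact Multiset.mem_toList.1 (List.get_mem _ _)
  · intro M _ f
    conv_lhs => rw [← Multiset.coe_toList s]
    rw [Multiset.map_coe, Multiset.sum_coe, ← List.sum_ofFn]
    congr 1
    apply List.ext_get
    · simp
    · intro n h1 h2
      simp

theorem fejer {N : ℕ} (z : Fin N → ℂ) (hz : ∀ i, ‖z i‖ = 1) (R : ℕ) :
    (R : ℝ) ^ 2 * ∑ i, ∑ j, (open Classical in if z i = z j then (1 : ℝ) else 0) ≤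
      ∑ k ∈ range R, ∑ l ∈ range R, ‖∑ i, z i ^ k * conj (z i) ^ l‖ ^ 2 := by
  classical
  have h1 : ∑ k ∈ range R, ∑ l ∈ range R, ‖∑ i, z i ^ k * conj (z i) ^ l‖ ^ 2 =
      ∑ i, ∑ j, ‖∑ k ∈ range R, (z i * conj (z j)) ^ k‖ ^ 2 := by
    have h2 : ((∑ k ∈ range R, ∑ l ∈ range R, ‖∑ i, z i ^ k * conj (z i) ^ l‖ ^ 2 : ℝ) : ℂ) =
        ((∑ i, ∑ j, ‖∑ k ∈ range R, (z i * conj (z j)) ^ k‖ ^ 2 : ℝ) : ℂ) := by
      have h3 : ∀ x : ℂ, ((‖x‖ ^ 2 : ℝ) : ℂ) = x * conj x := by
        intro x
        rw [Complex.mul_conj']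
        push_cast
        rfl
      simp only [Complex.ofReal_sum, h3, map_sum, map_mul, map_pow, Complex.conj_conj]
      have h4 : ∀ i j : Fin N, (∑ k ∈ range R, (z i * conj (z j)) ^ k) *
          (∑ k ∈ range R, (conj (z i) * z j) ^ k) = ∑ k ∈ range R, ∑ l ∈ range R,
          (z i ^ k * conj (z i) ^ l) * (conj (z j) ^ k * z j ^ l) := by
        intro i j
        rw [sum_mul_sum]
        apply sum_congr rfl
        intro k _
        apply sum_congr rfl
        intro l _
        rw [mul_pow, mul_pow]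
        ring
      simp only [h4, sum_mul_sum]
      have h5 : ∀ G : ℕ → ℕ → Fin N → Fin N → ℂ, ∑ y ∈ range R, ∑ x ∈ range R, ∑ i, ∑ j, G y x i j =
          ∑ i, ∑ j, ∑ k ∈ range R, ∑ l ∈ range R, G k l i j := by
        intro G
        calc ∑ y ∈ range R, ∑ x ∈ range R, ∑ i, ∑ j, G y x i j
            = ∑ y ∈ range R, ∑ i, ∑ x ∈ range R, ∑ j, G y x i j :=
              sum_congr rfl fun y _ => sum_comm
          _ = ∑ i, ∑ y ∈ range R, ∑ x ∈ range R, ∑ j, G y x i j := sum_comm
          _ = ∑ i, ∑ y ∈ range R, ∑ j, ∑ x ∈ range R, G y x i j :=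
              sum_congr rfl fun i _ => sum_congr rfl fun y _ => sum_comm
          _ = ∑ i, ∑ j, ∑ k ∈ range R, ∑ l ∈ range R, G k l i j :=
              sum_congr rfl fun i _ => sum_comm
      exact h5 _
    exact_mod_cast h2
  rw [h1, mul_sum]
  apply sum_le_sum
  intro i _
  rw [mul_sum]
  apply sum_le_sum
  intro j _
  split_ifs with h2
  · have h3 : z i * conj (z j) = 1 := by
      rw [h2, Complex.mul_conj', hz j]
      norm_num
    rw [h3]
    simp
  · rw [mul_zero]
    positivity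

theorem dist_sum (g : ℕ → ℝ) (R : ℕ) :
    ∑ k ∈ range R, ∑ l ∈ range R, g (Nat.dist k l) + R * g 0 =
      2 * ∑ j ∈ range R, ((R : ℝ) - j) * g j := by
  induction R with
  | zero => simp
  | succ R ih =>
    have h1 : ∑ k ∈ range (R + 1), ∑ l ∈ range (R + 1), g (Nat.dist k l) =
        ∑ k ∈ range R, ∑ l ∈ range R, g (Nat.dist k l) + 2 * ∑ j ∈ range R, g (j + 1) + g 0 := by
      have h2 : ∑ k ∈ range R, g (Nat.dist k R) = ∑ j ∈ range R, g (j + 1) := by
        rw [← sum_range_reflect]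
        apply sum_congr rfl
        intro j hj
        rw [mem_range] at hj
        congr 1
        rw [Nat.dist_eq_sub_of_le (by omega)]
        omega
      have h3 : ∑ l ∈ range R, g (Nat.dist R l) = ∑ j ∈ range R, g (j + 1) := by
        rw [← h2]
        apply sum_congr rfl
        intro l _
        rw [Nat.dist_comm]
      rw [sum_range_succ]
      have h4 : ∀ k ∈ range R, ∑ l ∈ range (R + 1), g (Nat.dist k l) =
          ∑ l ∈ range R, g (Nat.dist k l) + g (Nat.dist k R) := fun k _ => sum_range_succ _ _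
      rw [sum_congr rfl h4, sum_add_distrib, h2, sum_range_succ, h3, Nat.dist_self]
      ring
    have h5 : ∑ j ∈ range (R + 1), (((R + 1 : ℕ) : ℝ) - j) * g j =
        ∑ j ∈ range R, ((R : ℝ) - j) * g j + (g 0 + ∑ j ∈ range R, g (j + 1)) := by
      have h6 : g 0 + ∑ j ∈ range R, g (j + 1) = ∑ j ∈ range (R + 1), g j := by
        rw [sum_range_succ' (fun j => g j) R]
        ring
      rw [h6, sum_range_succ, sum_range_succ (fun j => g j)]
      have h7 : ∑ j ∈ range R, (((R + 1 : ℕ) : ℝ) - j) * g j =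
          ∑ j ∈ range R, ((R : ℝ) - j) * g j + ∑ j ∈ range R, g j := by
        rw [← sum_add_distrib]
        apply sum_congr rfl
        intro j _
        push_cast
        ring
      rw [h7]
      push_cast
      ring
    rw [h1, h5]
    push_cast
    linarith

/-- the inequality for one multiset of points of the unit circle -/
theorem m2_le (s : Multiset ℂ) (hs : ∀ z ∈ s, ‖z‖ = 1) (R : ℕ) :
    (R : ℝ) ^ 2 * m2 s ≤ R * (s.card : ℝ) ^ 2 +
      2 * ∑ j ∈ Ico 1 R, ((R : ℝ) - j) * ‖(s.map (fun z => z ^ j)).sum‖ ^ 2 := by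
  classical
  obtain ⟨N, z, hz, hsum⟩ := idx s
  have hzn : ∀ i, ‖z i‖ = 1 := fun i => hs _ (hz i)
  have hm2 : m2 s = ∑ i, ∑ j, (if z i = z j then (1 : ℝ) else 0) := by
    unfold m2
    rw [hsum]
    apply sum_congr rfl
    intro i _
    have h1 : (s.count (z i) : ℝ) = (s.map (fun w => if z i = w then (1 : ℝ) else 0)).sum := by
      rw [sum_ind s (fun w => z i = w), Multiset.count_eq_card_filter_eq]
    rw [h1, hsum]
  have hcard : (s.card : ℝ) = N := by
    have h1 := hsum (fun _ => (1 : ℝ))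
    rw [Multiset.map_const', Multiset.sum_replicate, nsmul_eq_mul, mul_one] at h1
    rw [h1]
    simp
  set g : ℕ → ℝ := fun n => ‖∑ i, z i ^ n‖ ^ 2 with hg
  have h1 := fejer z hzn R
  have h2 : ∑ k ∈ range R, ∑ l ∈ range R, ‖∑ i, z i ^ k * conj (z i) ^ l‖ ^ 2 =
      ∑ k ∈ range R, ∑ l ∈ range R, g (Nat.dist k l) := by
    have hone : ∀ i, z i * conj (z i) = 1 := by
      intro i
      rw [Complex.mul_conj', hzn i]
      norm_num
    apply sum_congr rfl
    intro k _
    apply sum_congr rfl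
    intro l _
    rw [hg]
    change ‖∑ i, z i ^ k * conj (z i) ^ l‖ ^ 2 = ‖∑ i, z i ^ (Nat.dist k l)‖ ^ 2
    rcases le_total l k with h | h
    · rw [Nat.dist_eq_sub_of_le_right h]
      congr 2
      apply sum_congr rfl
      intro i _
      obtain ⟨m, rfl⟩ := Nat.exists_eq_add_of_le h
      rw [Nat.add_sub_cancel_left, pow_add]
      calc z i ^ l * z i ^ m * conj (z i) ^ l = (z i * conj (z i)) ^ l * z i ^ m := by
            rw [mul_pow]; ring
        _ = _ := by rw [hone, one_pow, one_mul]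
    · rw [Nat.dist_eq_sub_of_le h]
      have h3 : ‖∑ i, z i ^ (l - k)‖ = ‖conj (∑ i, z i ^ (l - k))‖ := (Complex.norm_conj _).symm
      rw [h3, map_sum]
      congr 2
      apply sum_congr rfl
      intro i _
      obtain ⟨m, rfl⟩ := Nat.exists_eq_add_of_le h
      rw [Nat.add_sub_cancel_left, pow_add, map_pow]
      calc z i ^ k * (conj (z i) ^ k * conj (z i) ^ m) = (z i * conj (z i)) ^ k * conj (z i) ^ m := by
            rw [mul_pow]; ring
        _ = _ := by rw [hone, one_pow, one_mul]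
  have h3 := dist_sum g R
  rw [hm2]
  rw [h2] at h1
  have h4 : g 0 = (s.card : ℝ) ^ 2 := by
    rw [hg, hcard]
    simp
  have h5 : ∑ j ∈ Ico 1 R, ((R : ℝ) - j) * ‖(s.map (fun z => z ^ j)).sum‖ ^ 2 =
      ∑ j ∈ Ico 1 R, ((R : ℝ) - j) * g j := by
    apply sum_congr rfl
    intro j _
    rw [hsum]
  rw [h5, ← h4]
  rcases Nat.eq_zero_or_pos R with h6 | h6
  · subst h6
    simp
  · have h7 : ∑ j ∈ range R, ((R : ℝ) - j) * g j = R * g 0 + ∑ j ∈ Ico 1 R, ((R : ℝ) - j) * g j := by
      rw [range_eq_Ico, ← sum_Ico_consecutive _ (Nat.zero_le 1) h6]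
      simp
    rw [h7] at h3
    linarith

end Pool.Agent.H23.PC
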