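import Pool.Agent.H23.PC.Vari

/-!
# Pairs of prime powers and the switching of the divisors
-/

set_option autoImplicit false

open Finset Polynomial ComplexConjugate
open Pool.Agent.H341R2.Sharp (Mon mem_Mon)
open Pool.Agent.Q284.PS (Hay PD)
open Pool.Agent.H23.FF

namespace Pool.Agent.H23.PC

variable {F : Type} [Field F] [Fintype F]

/-- the correlations of the von Mangoldt function -/
noncomputable def co (n : ℕ) (a : F[X]) : ℝ := ∑ f ∈ Mon F n, vM f * vM (f + a)

/-- pairs with difference in `S * Lo j` -/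
noncomputable def BB (n j : ℕ) (S : F[X]) : ℝ := ∑ v ∈ Lo F j, co n (S * v)

open Classical in
/-- the mean square of the sums over the classes -/
noncomputable def VV (n m : ℕ) (g : F[X]) : ℝ :=
  ∑ f ∈ Mon F n, (∑ u ∈ Lo F m, vM (f + g * u) -
    if IsCoprime f g then q F ^ (g.natDegree + m) / phi g else 0) ^ 2

open Classical in
/-- the coprime part of the mean -/
noncomputable def Vc (n : ℕ) (g : F[X]) : ℝ := ∑ f ∈ Mon F n, (if IsCoprime f g then vM f else 0)

open Classical in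
/-- the part of the diagonal which is not coprime -/
noncomputable def ep (n : ℕ) (g : F[X]) : ℝ := ∑ f ∈ Mon F n, (if IsCoprime f g then 0 else vM f ^ 2)

theorem VV_eq {n k m l : ℕ} {g : F[X]} (hg : g.Monic) (hk : g.natDegree = k) (hn : n = k + m + l) :
    VV n m g = q F ^ m * (BB n m g - 2 * (q F ^ (k + m) / phi g) * Vc n g +
      q F ^ (n + k + m) / phi g) := by
  classical
  have hphi : (phi g : ℝ) ≠ 0 := by
    have := phi_pos hg
    exact_mod_cast this.ne'
  have hq := q_pos F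
  set c : ℝ := q F ^ (k + m) / phi g with hc
  have hgu : ∀ u ∈ Lo F m, g * u ∈ Lo F n := fun u hu =>
    Lo_mono (by omega) (mul_mem_Lo hg hk hu)
  have h1 : VV n m g = ∑ f ∈ Mon F n, ((∑ u ∈ Lo F m, vM (f + g * u)) ^ 2 -
      2 * c * (if IsCoprime f g then ∑ u ∈ Lo F m, vM (f + g * u) else 0) +
      (if IsCoprime f g then c ^ 2 else 0)) := by
    unfold VV
    apply sum_congr rfl
    intro f _
    rw [hk, ← hc]
    split_ifs <;> ring
  rw [h1, sum_add_distrib, sum_sub_distrib, ← mul_sum]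
  have h2 : ∑ f ∈ Mon F n, (∑ u ∈ Lo F m, vM (f + g * u)) ^ 2 = q F ^ m * BB n m g := by
    have h3 : ∀ f : F[X], (∑ u ∈ Lo F m, vM (f + g * u)) ^ 2 =
        ∑ u ∈ Lo F m, ∑ w ∈ Lo F m, vM (f + g * u) * vM (f + g * u + g * w) := by
      intro f
      rw [sq, sum_mul]
      apply sum_congr rfl
      intro u hu
      rw [mul_sum, ← sum_Lo_add hu (fun w => vM (f + g * u) * vM (f + g * w))]
      apply sum_congr rfl
      intro w _
      congr 2
      ring
    rw [sum_congr rfl fun f _ => h3 f, sum_comm]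
    have h4 : ∀ u ∈ Lo F m, ∑ f ∈ Mon F n, ∑ w ∈ Lo F m, vM (f + g * u) * vM (f + g * u + g * w) =
        BB n m g := by
      intro u hu
      rw [sum_comm]
      unfold BB co
      apply sum_congr rfl
      intro w _
      exact sum_Mon_add (hgu u hu) (fun f => vM f * vM (f + g * w))
    rw [sum_congr rfl h4, sum_const, card_Lo, nsmul_eq_mul]
    unfold q
    push_cast
    rfl
  have h3 : ∑ f ∈ Mon F n, (if IsCoprime f g then ∑ u ∈ Lo F m, vM (f + g * u) else 0) =
      q F ^ m * Vc n g := by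
    have h4 : ∀ f : F[X], (if IsCoprime f g then ∑ u ∈ Lo F m, vM (f + g * u) else 0) =
        ∑ u ∈ Lo F m, (if IsCoprime (f + g * u) g then vM (f + g * u) else 0) := by
      intro f
      by_cases h : IsCoprime f g
      · rw [if_pos h]
        apply sum_congr rfl
        intro u _
        rw [if_pos (h.add_mul_left_left _)]
      · rw [if_neg h]
        symm
        apply sum_eq_zero
        intro u _
        rw [if_neg (fun h' => h (IsCoprime.add_mul_left_left_iff.1 h'))]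
    rw [sum_congr rfl fun f _ => h4 f, sum_comm]
    have h5 : ∀ u ∈ Lo F m, ∑ f ∈ Mon F n, (if IsCoprime (f + g * u) g then vM (f + g * u) else 0) =
        Vc n g := by
      intro u hu
      exact sum_Mon_add (hgu u hu) (fun f => if IsCoprime f g then vM f else 0)
    rw [sum_congr rfl h5, sum_const, card_Lo, nsmul_eq_mul]
    unfold q
    push_cast
    rfl
  have h4 : ∑ f ∈ Mon F n, (if IsCoprime f g then c ^ 2 else 0) =
      q F ^ m * (q F ^ (n + k + m) / phi g) := by
    rw [← sum_filter, sum_const, nsmul_eq_mul]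
    have h5 := card_coprime (m := m + l) hg hk
    rw [← add_assoc, ← hn] at h5
    rw [h5, hc, hn]
    push_cast
    have h6 : (Fintype.card F : ℝ) = q F := rfl
    rw [h6]
    field_simp
    ring
  rw [h2, h3, h4]
  ring

theorem VV_wL {n k m l : ℕ} {g : F[X]} (hg : g.Monic) (hk : g.natDegree = k) (hn : n = k + m + l) :
    VV n m g = ∑ f ∈ Mon F n, (∑ u ∈ Lo F m, wL g (f + g * u)) ^ 2 + q F ^ m * ep n g := by
  classical
  have hgu : ∀ u ∈ Lo F m, g * u ∈ Lo F n := fun u hu =>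
    Lo_mono (by omega) (mul_mem_Lo hg hk hu)
  have hsingle : ∀ f ∈ Mon F n, ¬ IsCoprime f g →
      (∑ u ∈ Lo F m, vM (f + g * u)) ^ 2 = ∑ u ∈ Lo F m, vM (f + g * u) ^ 2 := by
    intro f hf hc
    have hex : (∀ u ∈ Lo F m, vM (f + g * u) = 0) ∨ ∃ u ∈ Lo F m, ∀ v ∈ Lo F m, v ≠ u →
        vM (f + g * v) = 0 := by
      by_cases h : ∀ u ∈ Lo F m, vM (f + g * u) = 0
      · exact Or.inl h
      · right
        push Not at h
        obtain ⟨u, hu, h1⟩ := h
        refine ⟨u, hu, fun v hv hvu => ?_⟩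
        by_contra h2
        have h3 := add_mem_Mon hf (hgu u hu)
        have h4 := add_mem_Mon hf (hgu v hv)
        have h5 : g ∣ f + g * v - (f + g * u) := ⟨v - u, by ring⟩
        have h6 := coprime_of_pair (mem_Mon.1 h3) (mem_Mon.1 h4) h1 h2 h5 (by
          intro e
          exact hvu (inj_mul hg e).symm)
        exact hc (IsCoprime.add_mul_left_left_iff.1 h6)
    rcases hex with h | ⟨u, hu, h⟩
    · have e1 : ∑ u ∈ Lo F m, vM (f + g * u) = 0 := sum_eq_zero h
      have e2 : ∑ u ∈ Lo F m, vM (f + g * u) ^ 2 = 0 := sum_eq_zero fun u hu => by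
        rw [h u hu]
        norm_num
      rw [e1, e2]
      norm_num
    · rw [sum_eq_single_of_mem u hu h, sum_eq_single_of_mem u hu (fun v hv hvu => by
        rw [h v hv hvu]; norm_num)]
  have h1 : q F ^ m * ep n g = ∑ f ∈ Mon F n,
      (if IsCoprime f g then 0 else (∑ u ∈ Lo F m, vM (f + g * u)) ^ 2) := by
    have h2 : ∀ f ∈ Mon F n, (if IsCoprime f g then 0 else (∑ u ∈ Lo F m, vM (f + g * u)) ^ 2) =
        ∑ u ∈ Lo F m, (if IsCoprime (f + g * u) g then 0 else vM (f + g * u) ^ 2) := by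
      intro f hf
      by_cases h : IsCoprime f g
      · rw [if_pos h]
        symm
        apply sum_eq_zero
        intro u _
        rw [if_pos (h.add_mul_left_left _)]
      · rw [if_neg h, hsingle f hf h]
        apply sum_congr rfl
        intro u _
        rw [if_neg (fun h' => h (IsCoprime.add_mul_left_left_iff.1 h'))]
    rw [sum_congr rfl h2, sum_comm]
    have h5 : ∀ u ∈ Lo F m, ∑ f ∈ Mon F n, (if IsCoprime (f + g * u) g then 0 else
        vM (f + g * u) ^ 2) = ep n g := by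
      intro u hu
      exact sum_Mon_add (hgu u hu) (fun f => if IsCoprime f g then 0 else vM f ^ 2)
    rw [sum_congr rfl h5, sum_const, card_Lo, nsmul_eq_mul]
    unfold q
    push_cast
    rfl
  rw [h1, ← sum_add_distrib]
  unfold VV
  apply sum_congr rfl
  intro f hf
  by_cases h : IsCoprime f g
  · rw [if_pos h, if_pos h, add_zero]
    congr 1
    unfold wL
    have h2 : ∀ u ∈ Lo F m, (if IsCoprime (f + g * u) g then
        vM (f + g * u) - q F ^ g.natDegree / phi g else 0) =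
        vM (f + g * u) - q F ^ g.natDegree / phi g := by
      intro u _
      rw [if_pos (h.add_mul_left_left _)]
    rw [sum_congr rfl h2, sum_sub_distrib, sum_const, card_Lo, nsmul_eq_mul]
    congr 1
    rw [pow_add]
    unfold q
    push_cast
    ring
  · rw [if_neg h, if_neg h, sub_zero]
    have h2 : ∑ u ∈ Lo F m, wL g (f + g * u) = 0 := by
      apply sum_eq_zero
      intro u _
      unfold wL
      rw [if_neg (fun h' => h (IsCoprime.add_mul_left_left_iff.1 h'))]
    rw [h2]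
    ring

theorem ep_bd {n : ℕ} {g : F[X]} (hg : g.Monic) (hn : 1 ≤ n) :
    0 ≤ ep n g ∧ ep n g ≤ (g.natDegree : ℝ) ^ 2 := by
  classical
  refine ⟨?_, sum_vM_sq_noncop hg hn⟩
  apply sum_nonneg
  intro f _
  split_ifs
  · exact le_rfl
  · positivity

theorem VV_nonneg (n m : ℕ) (g : F[X]) : 0 ≤ VV n m g := by
  unfold VV
  positivity

theorem sq_le_two_pow (n : ℕ) : (n : ℝ) ^ 2 ≤ 2 * q F ^ n := by
  have h1 : n ^ 2 ≤ 2 * 2 ^ n := by
    induction n with
    | zero => norm_num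
    | succ n ih =>
      by_cases h : n ≤ 2
      · interval_cases n <;> norm_num
      · push Not at h
        have : (n + 1) ^ 2 ≤ 2 * n ^ 2 := by nlinarith
        calc (n + 1) ^ 2 ≤ 2 * n ^ 2 := this
          _ ≤ 2 * (2 * 2 ^ n) := by omega
          _ = 2 * 2 ^ (n + 1) := by ring
  have h2 : (n : ℝ) ^ 2 ≤ 2 * 2 ^ n := by exact_mod_cast h1
  have h3 : (2 : ℝ) ^ n ≤ q F ^ n := pow_le_pow_left₀ (by norm_num) (two_le_q F) n
  linarith

/-- Weil's bound for the mean square -/
theorem VV_le {n k m l : ℕ} {g : F[X]} (hg : g.Monic) (hk : g.natDegree = k) (hn : n = k + m + l)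
    (hml : 1 ≤ m + l) : VV n m g ≤ q F ^ m * (2 * (n : ℝ) ^ 2 * q F ^ n) := by
  have hq := q_pos F
  have hn1 : 1 ≤ n := by omega
  rw [VV_wL hg hk hn]
  have h1 := varL hg hk hml
  rw [← hn] at h1
  have h2 := (ep_bd hg hn1).2
  rw [hk] at h2
  have hkn : (k : ℝ) ≤ n := by exact_mod_cast (by omega : k ≤ n)
  have hkl : (k : ℝ) + l ≤ n := by exact_mod_cast (by omega : k + l ≤ n)
  have hk0 : (0 : ℝ) ≤ k := Nat.cast_nonneg k
  have hl0 : (0 : ℝ) ≤ l := Nat.cast_nonneg l
  have hqn : 1 ≤ q F ^ n := one_le_pow₀ (by have := two_le_q F; linarith)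
  have hqm : 0 < q F ^ m := by positivity
  have h3 : (k + l : ℝ) ^ 2 * q F ^ n ≤ (n : ℝ) ^ 2 * q F ^ n := by
    apply mul_le_mul_of_nonneg_right _ (by positivity)
    exact pow_le_pow_left₀ (by positivity) hkl 2
  have h4 : ep n g ≤ (n : ℝ) ^ 2 * q F ^ n := by
    have h5 : (k : ℝ) ^ 2 ≤ (n : ℝ) ^ 2 := pow_le_pow_left₀ hk0 hkn 2
    have h6 : (n : ℝ) ^ 2 * 1 ≤ (n : ℝ) ^ 2 * q F ^ n :=
      mul_le_mul_of_nonneg_left hqn (by positivity)
    linarith
  have h5 := mul_le_mul_of_nonneg_left h3 hqm.le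
  have h6 := mul_le_mul_of_nonneg_left h4 hqm.le
  nlinarith

/-- the pairs in the classes, by Weil's bound -/
theorem BB_near {n k m l : ℕ} {g : F[X]} (hg : g.Monic) (hk : g.natDegree = k)
    (hn : n = k + m + l) (hml : 1 ≤ m + l) :
    |BB n m g - q F ^ (n + k + m) / phi g| ≤ 4 * (n : ℝ) ^ 2 * q F ^ n := by
  have hq := q_pos F
  have hn1 : 1 ≤ n := by omega
  have h1 := VV_eq hg hk hn
  have h2 := VV_le hg hk hn hml
  have h3 := VV_nonneg n m g
  have hqm : 0 < q F ^ m := by positivity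
  obtain ⟨h4, h5⟩ := sum_vM_cop hg hn1
  change Vc n g ≤ q F ^ n at h4
  change q F ^ n - g.natDegree ≤ Vc n g at h5
  rw [hk] at h5
  have hphi : (1 : ℝ) ≤ phi g := by
    have := phi_pos hg
    exact_mod_cast this
  set c : ℝ := q F ^ (k + m) / phi g with hc
  have hc0 : 0 ≤ c := by positivity
  have hc1 : c ≤ q F ^ n := by
    rw [hc, div_le_iff₀ (by linarith)]
    have h6 : q F ^ (k + m) ≤ q F ^ n := pow_le_pow_right₀ (by have := two_le_q F; linarith) (by omega)
    have h7 : 0 < q F ^ n := by positivity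
    nlinarith
  have e1 : q F ^ (n + k + m) / phi g = q F ^ n * c := by
    rw [hc, add_assoc, pow_add]
    ring
  rw [e1] at h1 ⊢
  have h6 : VV n m g / q F ^ m = BB n m g - 2 * c * Vc n g + q F ^ n * c := by
    rw [h1]
    field_simp
  have h7 : 0 ≤ VV n m g / q F ^ m := by positivity
  have h8 : VV n m g / q F ^ m ≤ 2 * (n : ℝ) ^ 2 * q F ^ n := by
    rw [div_le_iff₀ hqm]
    linarith
  have hkn : (k : ℝ) ≤ n := by exact_mod_cast (by omega : k ≤ n)
  have hn2 : (1 : ℝ) ≤ n := by exact_mod_cast hn1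
  have hk0 : (0 : ℝ) ≤ k := Nat.cast_nonneg k
  have h9 : BB n m g - q F ^ n * c = VV n m g / q F ^ m - 2 * c * (q F ^ n - Vc n g) := by
    rw [h6]
    ring
  rw [h9, abs_le]
  have h10 : 0 ≤ q F ^ n - Vc n g := by linarith
  have h11 : q F ^ n - Vc n g ≤ n := by linarith
  have h12 : c * (q F ^ n - Vc n g) ≤ q F ^ n * n := mul_le_mul hc1 h11 h10 (by positivity)
  have h13 : 0 ≤ c * (q F ^ n - Vc n g) := mul_nonneg hc0 h10
  have h14 : q F ^ n * n ≤ (n : ℝ) ^ 2 * q F ^ n := by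
    have : 0 < q F ^ n := by positivity
    nlinarith
  constructor <;> nlinarith

/-- the monic polynomials of degree less than `m` -/
noncomputable def MM (F : Type) [Field F] [Fintype F] (m : ℕ) : Finset F[X] :=
  open Classical in (range m).biUnion (fun s => Mon F s)

theorem mem_MM {m : ℕ} {S : F[X]} : S ∈ MM F m ↔ S.Monic ∧ S.natDegree < m := by
  classical
  unfold MM
  rw [mem_biUnion]
  constructor
  · rintro ⟨s, hs, h⟩
    rw [mem_Mon] at h
    rw [mem_range] at hs
    exact ⟨h.1, by omega⟩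
  · rintro ⟨h1, h2⟩
    exact ⟨S.natDegree, mem_range.2 h2, mem_Mon.2 ⟨h1, rfl⟩⟩

theorem sum_MM {M : Type*} [AddCommMonoid M] (m : ℕ) (G : F[X] → M) :
    ∑ S ∈ MM F m, G S = ∑ s ∈ range m, ∑ S ∈ Mon F s, G S := by
  classical
  unfold MM
  rw [sum_biUnion]
  intro i _ j _ hij
  change Disjoint _ _
  rw [disjoint_left]
  intro P hP hP'
  rw [mem_Mon] at hP hP'
  apply hij
  rw [← hP.2, ← hP'.2]

open Classical in
theorem mem_sdiff_Lo {r : ℕ} {v : F[X]} : v ∈ Lo F (r + 1) \ Lo F r ↔ v ≠ 0 ∧ v.natDegree = r := by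
  rw [mem_sdiff, mem_Lo, mem_Lo]
  rcases eq_or_ne v 0 with rfl | h0
  · rw [degree_zero]
    simp
  · rw [degree_eq_natDegree h0]
    constructor
    · rintro ⟨h1, h2⟩
      have h3 : v.natDegree < r + 1 := by exact_mod_cast h1
      have h4 : ¬ v.natDegree < r := by
        intro h
        exact h2 (by exact_mod_cast h)
      exact ⟨h0, by omega⟩
    · rintro ⟨_, h2⟩
      rw [h2]
      constructor
      · exact_mod_cast Nat.lt_succ_self r
      · exact lt_irrefl _

open Classical in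
/-- **The switching of the divisors.** -/
theorem switch (r m : ℕ) (c : F[X] → ℝ) :
    ∑ R ∈ Mon F r, ∑ u ∈ (Lo F m).erase 0, c (R * u) =
      ∑ S ∈ MM F m, ∑ v ∈ Lo F (r + 1) \ Lo F r, c (S * v) := by
  classical
  rw [← sum_product' (Mon F r) ((Lo F m).erase 0) (fun R u => c (R * u)),
    ← sum_product' (MM F m) (Lo F (r + 1) \ Lo F r) (fun S v => c (S * v))]
  refine sum_nbij' (fun x => (C x.2.leadingCoeff⁻¹ * x.2, C x.2.leadingCoeff * x.1))
    (fun x => (C x.2.leadingCoeff⁻¹ * x.2, C x.2.leadingCoeff * x.1)) ?_ ?_ ?_ ?_ ?_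
  · rintro ⟨R, u⟩ hx
    rw [mem_product, mem_erase, mem_Mon, mem_Lo] at hx
    obtain ⟨⟨hR, hRr⟩, hu0, hu⟩ := hx
    change R.natDegree = r at hRr
    change u ≠ 0 at hu0
    change u.degree < _ at hu
    have hl : u.leadingCoeff ≠ 0 := leadingCoeff_ne_zero.2 hu0
    rw [mem_product, mem_MM, mem_sdiff_Lo]
    refine ⟨⟨?_, ?_⟩, ?_, ?_⟩
    · change (C u.leadingCoeff⁻¹ * u).Monic
      rw [Monic, leadingCoeff_mul, leadingCoeff_C, inv_mul_cancel₀ hl]
    · change (C u.leadingCoeff⁻¹ * u).natDegree < m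
      rw [natDegree_C_mul (inv_ne_zero hl)]
      rw [degree_eq_natDegree hu0] at hu
      exact_mod_cast hu
    · exact mul_ne_zero (C_ne_zero.2 hl) hR.ne_zero
    · change (C u.leadingCoeff * R).natDegree = r
      rw [natDegree_C_mul hl, hRr]
  · rintro ⟨S, v⟩ hx
    rw [mem_product, mem_MM, mem_sdiff_Lo] at hx
    obtain ⟨⟨hS, hSm⟩, hv0, hv⟩ := hx
    change S.natDegree < m at hSm
    change v ≠ 0 at hv0
    change v.natDegree = r at hv
    have hl : v.leadingCoeff ≠ 0 := leadingCoeff_ne_zero.2 hv0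
    rw [mem_product, mem_erase, mem_Mon, mem_Lo]
    refine ⟨⟨?_, ?_⟩, ?_, ?_⟩
    · change (C v.leadingCoeff⁻¹ * v).Monic
      rw [Monic, leadingCoeff_mul, leadingCoeff_C, inv_mul_cancel₀ hl]
    · change (C v.leadingCoeff⁻¹ * v).natDegree = r
      rw [natDegree_C_mul (inv_ne_zero hl), hv]
    · exact mul_ne_zero (C_ne_zero.2 hl) hS.ne_zero
    · change (C v.leadingCoeff * S).degree < _
      rw [degree_eq_natDegree (mul_ne_zero (C_ne_zero.2 hl) hS.ne_zero), natDegree_C_mul hl]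
      exact_mod_cast hSm
  · rintro ⟨R, u⟩ hx
    rw [mem_product, mem_erase, mem_Mon, mem_Lo] at hx
    obtain ⟨⟨hR, hRr⟩, hu0, hu⟩ := hx
    change u ≠ 0 at hu0
    change R.Monic at hR
    have hl : u.leadingCoeff ≠ 0 := leadingCoeff_ne_zero.2 hu0
    change (C (C u.leadingCoeff * R).leadingCoeff⁻¹ * (C u.leadingCoeff * R),
      C (C u.leadingCoeff * R).leadingCoeff * (C u.leadingCoeff⁻¹ * u)) = (R, u)
    rw [leadingCoeff_mul, leadingCoeff_C, hR.leadingCoeff, mul_one, ← mul_assoc, ← mul_assoc,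
      ← C_mul, ← C_mul, inv_mul_cancel₀ hl, mul_inv_cancel₀ hl, C_1, one_mul, one_mul]
  · rintro ⟨S, v⟩ hx
    rw [mem_product, mem_MM, mem_sdiff_Lo] at hx
    obtain ⟨⟨hS, hSm⟩, hv0, hv⟩ := hx
    change v ≠ 0 at hv0
    change S.Monic at hS
    have hl : v.leadingCoeff ≠ 0 := leadingCoeff_ne_zero.2 hv0
    change (C (C v.leadingCoeff * S).leadingCoeff⁻¹ * (C v.leadingCoeff * S),
      C (C v.leadingCoeff * S).leadingCoeff * (C v.leadingCoeff⁻¹ * v)) = (S, v)
    rw [leadingCoeff_mul, leadingCoeff_C, hS.leadingCoeff, mul_one, ← mul_assoc, ← mul_assoc,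
      ← C_mul, ← C_mul, inv_mul_cancel₀ hl, mul_inv_cancel₀ hl, C_1, one_mul, one_mul]
  · rintro ⟨R, u⟩ hx
    rw [mem_product, mem_erase, mem_Mon, mem_Lo] at hx
    obtain ⟨⟨hR, hRr⟩, hu0, hu⟩ := hx
    change u ≠ 0 at hu0
    have hl : u.leadingCoeff ≠ 0 := leadingCoeff_ne_zero.2 hu0
    change c (R * u) = c (C u.leadingCoeff⁻¹ * u * (C u.leadingCoeff * R))
    congr 1
    calc R * u = (C u.leadingCoeff⁻¹ * C u.leadingCoeff) * (R * u) := by
          rw [← C_mul, inv_mul_cancel₀ hl, C_1, one_mul]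
      _ = _ := by ring

theorem co_zero (n : ℕ) : co n (0 : F[X]) = ∑ f ∈ Mon F n, vM f ^ 2 := by
  unfold co
  apply sum_congr rfl
  intro f _
  rw [add_zero, sq]

theorem switch_BB (F : Type) [Field F] [Fintype F] (n r m : ℕ) :
    ∑ R ∈ Mon F r, (BB n m R - co n (0 : F[X])) =
      ∑ s ∈ range m, ∑ S ∈ Mon F s, (BB n (r + 1) S - BB n r S) := by
  classical
  have h1 : ∀ R ∈ Mon F r, BB n m R - co n (0 : F[X]) = ∑ u ∈ (Lo F m).erase 0, co n (R * u) := by
    intro R _
    unfold BB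
    rw [← add_sum_erase (Lo F m) _ (zero_mem_Lo m), mul_zero]
    ring
  have h2 : ∀ S ∈ MM F m, BB n (r + 1) S - BB n r S = ∑ v ∈ Lo F (r + 1) \ Lo F r, co n (S * v) := by
    intro S _
    unfold BB
    rw [← sum_sdiff (s₁ := Lo F r) (s₂ := Lo F (r + 1)) (fun v hv => Lo_mono (by omega) hv)]
    ring
  rw [sum_congr rfl h1, switch, ← sum_congr rfl h2, sum_MM]

end Pool.Agent.H23.PC
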