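import Pool.Agent.H23.PC.Gauss

/-!
# The top coefficient of the L-function of a primitive character
-/

set_option autoImplicit false

open Finset Polynomial ComplexConjugate
open Pool.Agent.H341R2.Sharp (Mon mem_Mon)
open Pool.Agent.H23.FF

namespace Pool.Agent.H23.PC

variable {F : Type} [Field F] [Fintype F]

theorem sc_odd {D : F[X]} {χ : F[X] → ℂ} (h : DC D χ) {c0 : F} (hc0 : c0 ≠ 0)
    (h1 : χ (C c0) ≠ 1) : sc χ = 0 := by
  classical
  have h2 : χ (C c0) * sc χ = sc χ := by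
    unfold sc
    rw [mul_sum]
    refine sum_nbij' (fun c => c0 * c) (fun c => c0⁻¹ * c) ?_ ?_ ?_ ?_ ?_
    · intro c hc
      rw [mem_filter] at hc ⊢
      exact ⟨mem_univ _, mul_ne_zero hc0 hc.2⟩
    · intro c hc
      rw [mem_filter] at hc ⊢
      exact ⟨mem_univ _, mul_ne_zero (inv_ne_zero hc0) hc.2⟩
    · intro c _
      change c0⁻¹ * (c0 * c) = c
      rw [← mul_assoc, inv_mul_cancel₀ hc0, one_mul]
    · intro c _
      change c0 * (c0⁻¹ * c) = c
      rw [← mul_assoc, mul_inv_cancel₀ hc0, one_mul]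
    · intro c _
      rw [← h.mul, ← C_mul]
  have h3 : (χ (C c0) - 1) * sc χ = 0 := by
    rw [sub_mul, h2, one_mul, sub_self]
  rcases mul_eq_zero.1 h3 with h4 | h4
  · exact absurd (sub_eq_zero.1 h4) h1
  · exact h4

theorem card_ne_zero' : ((open Classical in (univ.filter (fun c : F => c ≠ 0)).card : ℕ) : ℝ) = q F - 1 := by
  classical
  have h1 : univ.filter (fun c : F => c ≠ 0) = univ.erase 0 := by
    ext c
    simp
  rw [h1, card_erase_of_mem (mem_univ _), card_univ, Nat.cast_sub Fintype.card_pos]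
  unfold q
  push_cast
  rfl

theorem sc_even {χ : F[X] → ℂ} (h1 : ∀ c : F, c ≠ 0 → χ (C c) = 1) : sc χ = ((q F - 1 : ℝ) : ℂ) := by
  classical
  unfold sc
  rw [sum_congr rfl fun c hc => h1 c (mem_filter.1 hc).2, sum_const, nsmul_eq_mul, mul_one]
  have := card_ne_zero' (F := F)
  exact_mod_cast this

open Classical in
/-- the restriction to the constants, as a character modulo `X` -/
noncomputable def chX (χ : F[X] → ℂ) (f : F[X]) : ℂ := if f.coeff 0 = 0 then 0 else χ (C (f.coeff 0))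

omit [Fintype F] in
theorem dcX {D : F[X]} {χ : F[X] → ℂ} (h : DC D χ) : DC X (chX χ) := by
  classical
  refine ⟨monic_X, ?_, ?_, ?_, ?_⟩
  · unfold chX
    rw [coeff_one_zero, if_neg one_ne_zero, C_1, h.one]
  · intro a b
    unfold chX
    rw [mul_coeff_zero]
    by_cases ha : a.coeff 0 = 0
    · rw [ha, zero_mul, if_pos rfl, zero_mul]
    · by_cases hb : b.coeff 0 = 0
      · rw [hb, mul_zero, if_pos rfl, mul_zero]
      · rw [if_neg ha, if_neg hb, if_neg (mul_ne_zero ha hb), C_mul, h.mul]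
  · intro a b hab
    rw [X_dvd_iff, coeff_sub, sub_eq_zero] at hab
    unfold chX
    rw [hab]
  · intro a ha
    unfold chX
    rw [if_pos]
    by_contra h1
    apply ha
    rw [isCoprime_comm, irreducible_X.coprime_iff_not_dvd, X_dvd_iff]
    exact h1

omit [Fintype F] in
theorem priX {χ : F[X] → ℂ} {c0 : F} (hc0 : c0 ≠ 0) (h1 : χ (C c0) ≠ 1) : Pri X (chX χ) := by
  classical
  intro D' hm hd hne
  have h2 : D'.natDegree = 0 := by
    have h3 := natDegree_le_of_dvd hd (X_ne_zero (R := F))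
    rw [natDegree_X] at h3
    by_contra h4
    apply hne
    apply eq_of_dvd_of_natDegree_le_of_leadingCoeff hd
    · rw [natDegree_X]
      omega
    · rw [hm.leadingCoeff, leadingCoeff_X]
  have h3 : D' = 1 := eq_one_of_monic_natDegree_zero hm h2
  refine ⟨C c0, ?_, ?_, ?_⟩
  · rw [h3]
    exact one_dvd _
  · refine ⟨C c0⁻¹, 0, ?_⟩
    rw [zero_mul, add_zero, ← C_mul, inv_mul_cancel₀ hc0, C_1]
  · unfold chX
    rw [coeff_C_zero, if_neg hc0]
    exact h1

open Classical in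
/-- the Gauss sum of the constants -/
theorem tau_sq {D : F[X]} {χ : F[X] → ℂ} (h : DC D χ) {c0 : F} (hc0 : c0 ≠ 0)
    (h1 : χ (C c0) ≠ 1) {ψ : AddChar F ℂ} (hψ : ∃ x, ψ x ≠ 1) :
    ‖∑ c ∈ univ.filter (fun c : F => c ≠ 0), ψ c * χ (C c)‖ ^ 2 = q F := by
  have hX := dcX h
  have h2 := gauss hX (priX hc0 h1) natDegree_X le_rfl hψ
  rw [GS_top (K := 0) hX (by rw [natDegree_X]) ψ, sum_Lo_all hX (by rw [natDegree_X]) 0, range_zero,
    sum_empty, mul_zero, zero_add] at h2
  have h3 : cf (chX χ) 0 = 1 := by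
    unfold cf
    rw [sum_Mon_eq]
    have h4 : Lo F 0 = {0} := by
      ext v
      rw [mem_Lo, mem_singleton]
      constructor
      · intro hv
        rw [← degree_eq_bot]
        exact Order.lt_succ_bot_iff.1 (by simpa using hv)
      · rintro rfl
        rw [degree_zero]
        exact WithBot.bot_lt_coe _
    rw [h4, sum_singleton, pow_zero, add_zero, hX.one]
  rw [h3, mul_one, pow_one] at h2
  rw [← h2]
  congr 2
  apply sum_congr rfl
  intro c hc
  rw [mem_filter] at hc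
  congr 1
  unfold chX
  rw [coeff_C_zero, if_neg hc.2]

theorem exists_psi : ∃ ψ : AddChar F ℂ, ∃ x, ψ x ≠ 1 := by
  obtain ⟨ψ, hψ⟩ := (AddChar.exists_apply_ne_zero (α := F) (a := 1)).2 one_ne_zero
  exact ⟨ψ, 1, hψ⟩

theorem top_odd {K : ℕ} {D : F[X]} {χ : F[X] → ℂ} (h : DC D χ) (hp : Pri D χ)
    (hd : D.natDegree = K + 1) {c0 : F} (hc0 : c0 ≠ 0) (h1 : χ (C c0) ≠ 1) :
    ‖cf χ K‖ = (√(q F)) ^ K := by
  classical
  obtain ⟨ψ, hψ⟩ := exists_psi (F := F)
  have hq := q_pos F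
  have h2 := gauss h hp hd (by omega) hψ
  rw [GS_top h hd ψ, sum_Lo_all h (by omega) K, sc_odd h hc0 h1, zero_mul, zero_add, norm_mul,
    mul_pow, tau_sq h hc0 h1 hψ] at h2
  have h3 : q F = √(q F) ^ 2 := (Real.sq_sqrt hq.le).symm
  have h4 : ‖cf χ K‖ ^ 2 = (√(q F) ^ K) ^ 2 := by
    have h5 : ‖cf χ K‖ ^ 2 = q F ^ K := by
      apply mul_left_cancel₀ hq.ne'
      rw [h2]
      ring
    rw [h5]
    nth_rewrite 1 [h3]
    ring
  exact (pow_left_inj₀ (norm_nonneg _) (by positivity) two_ne_zero).1 h4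

theorem top_even {K : ℕ} {D : F[X]} {χ : F[X] → ℂ} (h : DC D χ) (hp : Pri D χ)
    (hd : D.natDegree = K + 1) (hn : ∃ f, IsCoprime f D ∧ χ f ≠ 1)
    (h1 : ∀ c : F, c ≠ 0 → χ (C c) = 1) :
    √(q F) * ‖cf χ K‖ = (√(q F)) ^ K ∧ ∑ k ∈ range (K + 1), cf χ k = 0 := by
  classical
  obtain ⟨ψ, hψ⟩ := exists_psi (F := F)
  have hq := q_pos F
  have hq2 := two_le_q F
  have h2 := gauss h hp hd (by omega) hψ
  have h0 := sum_Lo_zero h hd hn
  have hs := sc_even h1
  have hs0 : ((q F - 1 : ℝ) : ℂ) ≠ 0 := by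
    have : q F - 1 ≠ 0 := by linarith
    exact_mod_cast this
  constructor
  · have h3 : ∑ a ∈ Lo F K, χ a = - (sc χ * cf χ K) := by
      rw [sum_Lo_succ h] at h0
      exact eq_neg_of_add_eq_zero_left h0
    have h4 : ∑ c ∈ univ.filter (fun c : F => c ≠ 0), ψ c * χ (C c) = -1 := by
      rw [sum_congr rfl fun c hc => by rw [h1 c (mem_filter.1 hc).2, mul_one]]
      have h5 : ∑ c : F, ψ c = 0 := by
        rw [AddChar.sum_eq_zero_iff_ne_zero]
        rintro rfl
        obtain ⟨x, hx⟩ := hψ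
        exact hx rfl
      rw [← sum_filter_add_sum_filter_not univ (fun c : F => c ≠ 0)] at h5
      have h6 : univ.filter (fun c : F => ¬ c ≠ 0) = {0} := by
        ext c
        simp
      rw [h6, sum_singleton, AddChar.map_zero_eq_one] at h5
      exact eq_neg_of_add_eq_zero_left h5
    rw [GS_top h hd ψ, h3, h4, hs] at h2
    have h5 : -(((q F - 1 : ℝ) : ℂ) * cf χ K) + -1 * cf χ K = -((q F : ℂ) * cf χ K) := by
      push_cast
      ring
    rw [h5, norm_neg, norm_mul, Complex.norm_real, Real.norm_eq_abs, abs_of_pos hq] at h2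
    have h6 : q F = √(q F) ^ 2 := (Real.sq_sqrt hq.le).symm
    have h7 : (√(q F) * ‖cf χ K‖) ^ 2 = (√(q F) ^ K) ^ 2 := by
      have h8 : q F * ‖cf χ K‖ ^ 2 = q F ^ K := by
        apply mul_left_cancel₀ hq.ne'
        calc q F * (q F * ‖cf χ K‖ ^ 2) = (q F * ‖cf χ K‖) ^ 2 := by ring
          _ = _ := by rw [h2]; ring
      rw [mul_pow, ← h6, h8]
      nth_rewrite 1 [h6]
      ring
    exact (pow_left_inj₀ (by positivity) (by positivity) two_ne_zero).1 h7
  · rw [sum_Lo_all h (by omega), hs] at h0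
    rcases mul_eq_zero.1 h0 with h3 | h3
    · exact absurd h3 hs0
    · exact h3

end Pool.Agent.H23.PC
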