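import Pool.Agent.H23.PC.Lam

/-!
# The variance of the von Mangoldt function in the Hayes classes
-/

set_option autoImplicit false

open Finset Polynomial ComplexConjugate
open Pool.Agent.H341R2.Sharp (Mon mem_Mon)
open Pool.Agent.Q284.PS (Hay PD)
open Pool.Agent.Q284.WE (trc NonPr)
open Pool.Agent.H23.FF

namespace Pool.Agent.H23.PC

variable {F : Type} [Field F] [Fintype F]

/-- the von Mangoldt function minus its expectation, on the polynomials coprime to `g` -/
noncomputable def wL (g f : F[X]) : ℝ :=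
  open Classical in if IsCoprime f g then vM f - q F ^ g.natDegree / phi g else 0

omit [Fintype F] in
theorem hay_pow {Q : F[X]} {l : ℕ} {χ : F[X] → ℂ} (h : Hay Q l χ) {P : F[X]} (hP : P.Monic)
    (k : ℕ) : χ (P ^ k) = χ P ^ k := by
  induction k with
  | zero => rw [pow_zero, pow_zero, h.one]
  | succ k ih => rw [pow_succ, pow_succ, h.mul _ _ (hP.pow k) hP, ih]

theorem trc_ch {g : F[X]} (hg : g.Monic) (l : ℕ) {n : ℕ} (hn : 1 ≤ n) (χ : AddChar (RR g l) ℂ) :
    ∑ f ∈ Mon F n, (vM f : ℂ) * ch g l χ f = trc (ch g l χ) n :=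
  sum_vM_ch hn _ fun P hP k => hay_pow (hay_ch hg l χ) ((mem_PD hn).1 hP).1 k

theorem sum_wL_ch {k m l : ℕ} {g : F[X]} (hg : g.Monic) (hk : g.natDegree = k)
    (hml : 1 ≤ m + l) (χ : AddChar (RR g l) ℂ) :
    (open Classical in ‖∑ f ∈ (Mon F (k + m + l)).filter (fun f => IsCoprime f g),
      (wL g f : ℂ) * χ (cl g l f)‖) ≤ (k + l : ℝ) * (√(q F)) ^ (k + m + l) := by
  classical
  set n := k + m + l with hn
  have hn1 : 1 ≤ n := by omega
  have hH := hay_ch hg l χ
  have hphi : (phi g : ℝ) ≠ 0 := by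
    have := phi_pos hg
    exact_mod_cast this.ne'
  set c : ℝ := q F ^ k / phi g with hc
  have h1 : ∑ f ∈ (Mon F n).filter (fun f => IsCoprime f g), (wL g f : ℂ) * χ (cl g l f) =
      ∑ f ∈ Mon F n, (vM f : ℂ) * ch g l χ f - (c : ℂ) * ∑ f ∈ Mon F n, ch g l χ f := by
    rw [mul_sum, ← sum_sub_distrib, sum_filter]
    apply sum_congr rfl
    intro f hf
    rw [mem_Mon] at hf
    unfold wL ch
    by_cases h2 : IsCoprime f g
    · rw [if_pos h2, if_pos h2, if_pos ⟨hf.1, h2⟩, hk, hc]
      push_cast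
      ring
    · rw [if_neg h2, if_neg (fun h => h2 h.2)]
      ring
  rw [h1]
  by_cases hχ : NonPr g (ch g l χ)
  · have h2 : ∑ f ∈ Mon F n, ch g l χ f = 0 := by
      have h3 := Pool.Agent.Q166.PS.Van.t_VAN F g l (ch g l χ) hH (by
        obtain ⟨h, hm, hcop, h1⟩ := hχ
        refine ⟨h, hm, ?_, h1⟩
        intro h0
        have := hH.norm h hm hcop
        rw [h0, norm_zero] at this
        exact zero_ne_one this) 1 n monic_one (by rw [natDegree_one, hk]; omega)
      have h4 : (Mon F n).filter (fun f => (1 : F[X]) ∣ f) = Mon F n := by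
        apply filter_true_of_mem
        intro f _
        exact one_dvd f
      rw [← h3]
      apply sum_congr
      · rw [← h4]
        congr
        exact h4.symm
      · intro _ _
        rfl
    rw [h2, mul_zero, sub_zero, trc_ch hg l hn1]
    refine (Pool.Agent.Q284.WE.weil_hayes F g l (ch g l χ) hH hχ n hn1).trans (le_of_eq ?_)
    rw [hk]
    unfold q
    push_cast
    rfl
  · have h2 : ∀ f ∈ Mon F n, ch g l χ f = if IsCoprime f g then 1 else 0 := by
      intro f hf
      rw [mem_Mon] at hf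
      by_cases h3 : IsCoprime f g
      · rw [if_pos h3]
        by_contra h4
        exact hχ ⟨f, hf.1, h3, h4⟩
      · rw [if_neg h3, hH.zero f hf.1 h3]
    have h3 : ∑ f ∈ Mon F n, (vM f : ℂ) * ch g l χ f =
        ((∑ f ∈ Mon F n, (if IsCoprime f g then vM f else 0) : ℝ) : ℂ) := by
      push_cast
      apply sum_congr rfl
      intro f hf
      rw [h2 f hf]
      by_cases h4 : IsCoprime f g
      · rw [if_pos h4, if_pos h4, mul_one]
      · rw [if_neg h4, if_neg h4, mul_zero, Complex.ofReal_zero]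
    have h4 : (c : ℂ) * ∑ f ∈ Mon F n, ch g l χ f = ((q F ^ n : ℝ) : ℂ) := by
      rw [sum_congr rfl h2, ← sum_filter, sum_const, nsmul_eq_mul, mul_one]
      have h5 := card_coprime (m := m + l) hg hk
      rw [← add_assoc, ← hn] at h5
      rw [h5, hc]
      have h6 : q F ^ n = q F ^ k / phi g * (((Fintype.card F ^ (m + l) * phi g : ℕ)) : ℝ) := by
        push_cast
        rw [hn, add_assoc, pow_add]
        unfold q
        field_simp
      rw [h6]
      push_cast
      rfl
    rw [h3, h4, ← Complex.ofReal_sub, Complex.norm_real, Real.norm_eq_abs]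
    obtain ⟨h5, h6⟩ := sum_vM_cop hg hn1
    rw [hk] at h6
    have h7 : (1 : ℝ) ≤ (√(q F)) ^ n := by
      apply one_le_pow₀
      rw [Real.one_le_sqrt]
      have := two_le_q F
      linarith
    have h8 : (0 : ℝ) ≤ k := Nat.cast_nonneg _
    have h9 : (0 : ℝ) ≤ l := Nat.cast_nonneg _
    rw [abs_le]
    constructor
    · nlinarith [mul_nonneg h8 (by linarith : (0 : ℝ) ≤ (√(q F)) ^ n - 1),
        mul_nonneg h9 (by linarith : (0 : ℝ) ≤ (√(q F)) ^ n)]
    · nlinarith [mul_nonneg h8 (by linarith : (0 : ℝ) ≤ (√(q F)) ^ n),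
        mul_nonneg h9 (by linarith : (0 : ℝ) ≤ (√(q F)) ^ n)]

/-- **The variance.** -/
theorem varL {k m l : ℕ} {g : F[X]} (hg : g.Monic) (hk : g.natDegree = k) (hml : 1 ≤ m + l) :
    ∑ f ∈ Mon F (k + m + l), (∑ u ∈ Lo F m, wL g (f + g * u)) ^ 2 ≤
      q F ^ m * ((k + l : ℝ) ^ 2 * q F ^ (k + m + l)) := by
  classical
  set n := k + m + l with hn
  have hfin := finite_RR hg l
  have : Fintype (RR g l) := Fintype.ofFinite _
  set S := (Mon F n).filter (fun f => IsCoprime f g) with hS
  have h1 := planch S (fun f => (wL g f : ℂ)) (cl g l) _ (sum_wL_ch hg hk hml)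
  rw [mul_pow, ← pow_mul, mul_comm (k + m + l) 2, pow_mul, Real.sq_sqrt (q_pos F).le, ← hn] at h1
  have h2 : ∀ f ∈ Mon F n, f ∉ S → ∑ u ∈ Lo F m, wL g (f + g * u) = 0 := by
    intro f hf hfS
    have hc : ¬ IsCoprime f g := by
      intro h
      exact hfS (mem_filter.2 ⟨hf, h⟩)
    apply sum_eq_zero
    intro u hu
    have h3 : ¬ IsCoprime (f + g * u) g := by
      intro h
      exact hc (IsCoprime.add_mul_left_left_iff.1 h)
    unfold wL
    rw [if_neg h3]
  have h3 : ∀ f ∈ S, ∑ u ∈ Lo F m, wL g (f + g * u) =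
      ∑ f' ∈ S with cl g l f' = cl g l f, wL g f' := by
    intro f hf
    rw [hS, mem_filter] at hf
    rw [hS, fiber_eq hg hk hf.1 hf.2, sum_image (fun u _ v _ h => inj_mul hg h)]
  have h4 : ∀ ρ : RR g l, ((S.filter (fun f => cl g l f = ρ)).card : ℝ) ≤ q F ^ m := by
    intro ρ
    rcases (S.filter (fun f => cl g l f = ρ)).eq_empty_or_nonempty with h | ⟨f, hf⟩
    · rw [h]
      simp only [card_empty, Nat.cast_zero]
      have := q_pos F
      positivity
    · rw [mem_filter] at hf
      have hf1 := hf.1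
      rw [hS, mem_filter] at hf1
      have h5 : S.filter (fun f' => cl g l f' = ρ) = (Lo F m).image (fun u => f + g * u) := by
        rw [← hf.2]
        exact fiber_eq hg hk hf1.1 hf1.2
      rw [h5, card_image_of_injective _ (inj_mul hg), card_Lo]
      unfold q
      push_cast
      exact le_rfl
  have h5 : ∑ f ∈ Mon F n, (∑ u ∈ Lo F m, wL g (f + g * u)) ^ 2 =
      ∑ f ∈ S, (∑ f' ∈ S with cl g l f' = cl g l f, wL g f') ^ 2 := by
    rw [← sum_subset (filter_subset _ (Mon F n) : S ⊆ Mon F n)]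
    · apply sum_congr rfl
      intro f hf
      rw [h3 f hf]
    · intro f hf hfS
      rw [h2 f hf hfS]
      norm_num
  rw [h5, ← sum_fiberwise S (cl g l)]
  have h6 : ∀ ρ : RR g l, ∑ f ∈ S with cl g l f = ρ,
      (∑ f' ∈ S with cl g l f' = cl g l f, wL g f') ^ 2 ≤
      q F ^ m * ‖∑ f' ∈ S with cl g l f' = ρ, (wL g f' : ℂ)‖ ^ 2 := by
    intro ρ
    have h7 : ∀ f ∈ S.filter (fun f => cl g l f = ρ),
        (∑ f' ∈ S with cl g l f' = cl g l f, wL g f') ^ 2 =
        ‖∑ f' ∈ S with cl g l f' = ρ, (wL g f' : ℂ)‖ ^ 2 := by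
      intro f hf
      rw [mem_filter] at hf
      rw [hf.2, ← Complex.ofReal_sum, Complex.norm_real, Real.norm_eq_abs, sq_abs]
    rw [sum_congr rfl h7, sum_const, nsmul_eq_mul]
    exact mul_le_mul_of_nonneg_right (h4 ρ) (by positivity)
  refine (sum_le_sum fun ρ _ => h6 ρ).trans ?_
  rw [← mul_sum]
  apply mul_le_mul_of_nonneg_left h1
  have := q_pos F
  positivity

end Pool.Agent.H23.PC
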