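import Pool.Agent.H23.PC.Top

/-!
# The zeros of the L-functions
-/

set_option autoImplicit false

open Finset Polynomial ComplexConjugate
open Pool.Agent.H341R2.Sharp (Mon mem_Mon)
open Pool.Agent.Q284.PS (Hay PD)
open Pool.Agent.Q284.WE (trc NonPr)
open Pool.Agent.H23.FF

namespace Pool.Agent.H23.PC

variable {F : Type} [Field F] [Fintype F]

/-- the L-function, a polynomial -/
noncomputable def Lp (d : ℕ) (χ : F[X] → ℂ) : ℂ[X] := ∑ k ∈ range d, C (cf χ k) * X ^ k

/-- the sum over the prime powers -/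
noncomputable def ps (χ : F[X] → ℂ) (n : ℕ) : ℂ := ∑ f ∈ Mon F n, (vM f : ℂ) * χ f

/-- nontrivial characters -/
def NT (D : F[X]) (χ : F[X] → ℂ) : Prop := ∃ f, IsCoprime f D ∧ χ f ≠ 1

theorem cf_zero {D : F[X]} {χ : F[X] → ℂ} (h : DC D χ) : cf χ 0 = 1 := by
  classical
  unfold cf
  rw [Pool.Agent.H341R2.Sharp.Mon_zero, sum_singleton, h.one]

theorem cf_large {d k : ℕ} {D : F[X]} {χ : F[X] → ℂ} (h : DC D χ) (hd : D.natDegree = d)
    (hn : NT D χ) (hk : d ≤ k) : cf χ k = 0 := by
  obtain ⟨m, rfl⟩ := Nat.exists_eq_add_of_le hk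
  unfold cf
  rw [sum_Mon_dec h.monic hd]
  apply sum_eq_zero
  intro u _
  rw [← sum_Lo_zero h hd hn]
  apply sum_congr rfl
  intro b _
  apply h.per
  exact ⟨u, by ring⟩

theorem Lp_coeff {d : ℕ} {D : F[X]} {χ : F[X] → ℂ} (h : DC D χ) (hd : D.natDegree = d)
    (hn : NT D χ) (n : ℕ) : (Lp d χ).coeff n = cf χ n := by
  unfold Lp
  rw [finsetSum_coeff]
  simp_rw [coeff_C_mul_X_pow]
  by_cases hnd : n < d
  · rw [sum_eq_single n]
    · simp
    · intro m _ hm
      rw [if_neg (Ne.symm hm)]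
    · intro h'
      exact absurd (mem_range.2 hnd) h'
  · rw [cf_large h hd hn (by omega)]
    apply sum_eq_zero
    intro m hm
    rw [mem_range] at hm
    rw [if_neg (by omega)]

theorem ps_trc {D : F[X]} {χ : F[X] → ℂ} (h : DC D χ) {n : ℕ} (hn : 1 ≤ n) : ps χ n = trc χ n :=
  sum_vM_ch hn χ fun P _ k => h.pow P k

theorem newton_cf {D : F[X]} {χ : F[X] → ℂ} (h : DC D χ) (n : ℕ) :
    (n : ℂ) * cf χ n = ∑ m ∈ Icc 1 n, cf χ (n - m) * ps χ m := by
  classical
  have h1 := Pool.Agent.H435R3.Weil.n_mul_AL χ h.one (fun g h' _ _ => h.mul g h') n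
  change (n : ℂ) * cf χ n = _ at h1
  rw [h1]
  apply sum_congr rfl
  intro m hm
  rw [mem_Icc] at hm
  change cf χ (n - m) * _ = _
  congr 1
  rw [ps_trc h hm.1]
  unfold trc Pool.Agent.H435R3.Weil.TL
  refine sum_congr ?_ (fun _ _ => rfl)
  ext P
  rw [mem_PD hm.1, mem_filter, Pool.Agent.H341R2.Sharp.mem_Irr]
  constructor
  · rintro ⟨⟨h1, h2, h3⟩, h4⟩
    exact ⟨h1, h2, h4⟩
  · rintro ⟨h1, h2, h3⟩
    exact ⟨⟨h1, h2, Nat.le_of_dvd (by omega) h3⟩, h3⟩

open Classical in
theorem weilD {d : ℕ} {D : F[X]} {χ : F[X] → ℂ} (h : DC D χ) (hd : D.natDegree = d) (hn : NT D χ)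
    {n : ℕ} (hn1 : 1 ≤ n) : ‖ps χ n‖ ≤ d * √(q F) ^ n := by
  set χm : F[X] → ℂ := fun f => if f.Monic then χ f else 0 with hχm
  have hm : ∀ f : F[X], f.Monic → χm f = χ f := by
    intro f hf
    rw [hχm]
    exact if_pos hf
  have hH : Hay D 0 χm := by
    refine ⟨h.monic, ?_, ?_, ?_, ?_, ?_, ?_⟩
    · intro f hf
      rw [hχm]
      exact if_neg hf
    · rw [hm 1 monic_one, h.one]
    · intro f g hf hg
      rw [hm _ (hf.mul hg), hm f hf, hm g hg, h.mul]
    · intro f hf hc
      rw [hm f hf, h.norm hc]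
    · intro f hf hc
      rw [hm f hf, h.zero f hc]
    · intro f g hf hg hfg _
      rw [hm f hf, hm g hg, h.per f g hfg]
  have hnp : NonPr D χm := by
    obtain ⟨f, hf, hf1⟩ := hn
    have hD := h.monic
    have hmon : (f %ₘ D + D).Monic := by
      rw [add_comm]
      exact hD.add_of_left (degree_modByMonic_lt _ hD)
    have hdvd : D ∣ (f %ₘ D + D) - f := by
      have e : (f %ₘ D + D) - f = (f %ₘ D - f) + D := by ring
      rw [e]
      exact dvd_add (dvd_mod_sub f) dvd_rfl
    refine ⟨f %ₘ D + D, hmon, ?_, ?_⟩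
    · obtain ⟨y, hy⟩ := hdvd
      have : f %ₘ D + D = f + D * y := by rw [← hy]; ring
      rw [this]
      exact hf.add_mul_left_left _
    · rw [hm _ hmon, h.per _ _ hdvd]
      exact hf1
  have h1 := Pool.Agent.Q284.WE.weil_hayes F D 0 χm hH hnp n hn1
  have h2 : trc χm n = ps χ n := by
    rw [ps_trc h hn1]
    unfold trc
    apply sum_congr rfl
    intro P hP
    rw [hm P ((mem_PD hn1).1 hP).1]
  rw [h2] at h1
  refine h1.trans (le_of_eq ?_)
  rw [hd]
  unfold q
  push_cast
  ring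

theorem Lp_ne {d : ℕ} {D : F[X]} {χ : F[X] → ℂ} (h : DC D χ) (hd : D.natDegree = d)
    (hn : NT D χ) : Lp d χ ≠ 0 := by
  intro h0
  have h1 := Lp_coeff h hd hn 0
  rw [h0, coeff_zero, cf_zero h] at h1
  exact zero_ne_one h1

/-- Weil's theorem for the zeros -/
theorem root_bound {d : ℕ} {D : F[X]} {χ : F[X] → ℂ} (h : DC D χ) (hd : D.natDegree = d)
    (hn : NT D χ) {z : ℂ} (hz : z ∈ (Lp d χ).roots) : 1 ≤ √(q F) * ‖z‖ := by
  have hq : 0 < √(q F) := Real.sqrt_pos.2 (q_pos F)
  refine Pool.Agent.H341R2.Sharp.root_norm (Lp d χ) ?_ (ps χ) (√(q F)) d hq (Nat.cast_nonneg _) ?_ ?_ z ?_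
  · rw [Lp_coeff h hd hn, cf_zero h]
  · intro m hm
    exact weilD h hd hn hm
  · intro n
    simp_rw [Lp_coeff h hd hn]
    exact newton_cf h n
  · exact (mem_roots (Lp_ne h hd hn)).1 hz

open Pool.Agent.Q265.WE (lin Pz Eu Eu_prod coeff_Pz_sum) in
/-- the power sums of the inverse zeros -/
theorem newton_roots (a : ℂ[X]) (ha : a.coeff 0 = 1) (S : ℕ → ℂ)
    (hid : ∀ n : ℕ, (n : ℂ) * a.coeff n = ∑ m ∈ Icc 1 n, a.coeff (n - m) * S m) (m : ℕ) (hm : 1 ≤ m) :
    S m = -(a.roots.map (fun z => (z⁻¹) ^ m)).sum := by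
  have ha0' : a ≠ 0 := by
    rintro rfl
    simp at ha
  have hs := (IsAlgClosed.splits a).eq_prod_roots
  have hroot : ∀ r ∈ a.roots, r ≠ 0 := by
    rintro r hr rfl
    rw [mem_roots ha0', IsRoot.def, ← coeff_zero_eq_eval_zero, ha] at hr
    exact one_ne_zero hr
  have hfac : ∀ s : Multiset ℂ, (∀ r ∈ s, r ≠ 0) → ∃ c : ℂ,
      (((s.map (fun r => X - C r)).prod : ℂ[X]) : PowerSeries ℂ) =
      PowerSeries.C c * ((s.map (fun r => r⁻¹)).map lin).prod := by
    intro s
    induction s using Multiset.induction_on with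
    | empty => intro _; exact ⟨1, by simp⟩
    | cons w s ih =>
      intro h
      obtain ⟨c, hc⟩ := ih (fun r hr => h r (Multiset.mem_cons_of_mem hr))
      have hw : w ≠ 0 := h w (Multiset.mem_cons_self _ _)
      refine ⟨-w * c, ?_⟩
      rw [Multiset.map_cons, Multiset.prod_cons, Polynomial.coe_mul, hc, Multiset.map_cons,
        Multiset.map_cons, Multiset.prod_cons]
      have h1 : ((X - C w : ℂ[X]) : PowerSeries ℂ) = PowerSeries.C (-w) * lin w⁻¹ := by
        unfold lin
        rw [Polynomial.coe_sub, coe_X, coe_C, mul_sub, mul_one, ← mul_assoc, ← map_mul, neg_mul,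
          mul_inv_cancel₀ hw]
        simp
        ring
      rw [h1, map_mul]
      ring
  obtain ⟨c, hc⟩ := hfac a.roots hroot
  have h2 : (a : PowerSeries ℂ) = PowerSeries.C (a.leadingCoeff * c) *
      ((a.roots.map (fun r => r⁻¹)).map lin).prod := by
    conv_lhs => rw [hs]
    rw [Polynomial.coe_mul, hc, coe_C, map_mul]
    ring
  have h3 : a.leadingCoeff * c = 1 := by
    have h4 := congrArg (PowerSeries.constantCoeff (R := ℂ)) h2
    rw [map_mul, PowerSeries.constantCoeff_C, map_multiset_prod, Multiset.map_map,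
      constantCoeff_coe, ha] at h4
    have h5 : ((a.roots.map (fun r => r⁻¹)).map (PowerSeries.constantCoeff (R := ℂ) ∘ lin)) =
        (a.roots.map (fun r => r⁻¹)).map (fun _ => (1 : ℂ)) := by
      apply Multiset.map_congr rfl
      intro x _
      simp [lin]
    rw [h5, Multiset.map_const', Multiset.prod_replicate, one_pow, mul_one] at h4
    exact h4.symm
  have hprod : (a : PowerSeries ℂ) = ((a.roots.map (fun r => r⁻¹)).map lin).prod := by
    rw [h3, map_one, one_mul] at h2
    exact h2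
  have hE := Eu_prod (a.roots.map (fun r => r⁻¹))
  rw [← hprod] at hE
  have hT : Eu (a : PowerSeries ℂ) =
      (a : PowerSeries ℂ) * PowerSeries.mk (fun m => if m = 0 then 0 else S m) := by
    ext n
    unfold Eu
    rw [PowerSeries.coeff_mk, coeff_coe, hid, PowerSeries.coeff_mul,
      Nat.sum_antidiagonal_eq_sum_range_succ_mk]
    rw [← sum_range_reflect]
    have h3 : (range (n + 1)).filter (fun m => m ≠ 0) = Icc 1 n := by
      ext m
      simp only [mem_filter, mem_range, mem_Icc]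
      omega
    rw [← h3, sum_filter]
    apply sum_congr rfl
    intro m hm
    rw [mem_range] at hm
    rw [coeff_coe, PowerSeries.coeff_mk]
    have e1 : n + 1 - 1 - m = n - m := by omega
    have e2 : n - (n - m) = m := by omega
    rw [e1, e2]
    by_cases h0 : m = 0
    · simp [h0]
    · rw [if_pos h0, if_neg h0]
  have ha0 : (a : PowerSeries ℂ) ≠ 0 := by
    rw [Ne, coe_eq_zero_iff]
    exact ha0'
  have h1 : PowerSeries.mk (fun m => if m = 0 then 0 else S m) =
      -((a.roots.map (fun r => r⁻¹)).map Pz).sum := by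
    apply mul_left_cancel₀ ha0
    rw [← hT, hE]
    ring
  have h2' := congrArg (PowerSeries.coeff (R := ℂ) m) h1
  rw [PowerSeries.coeff_mk, if_neg (by omega), map_neg, coeff_Pz_sum _ _ (by omega),
    Multiset.map_map] at h2'
  exact h2'

theorem ps_roots {d : ℕ} {D : F[X]} {χ : F[X] → ℂ} (h : DC D χ) (hd : D.natDegree = d)
    (hn : NT D χ) {n : ℕ} (hn1 : 1 ≤ n) :
    ps χ n = -((Lp d χ).roots.map (fun z => (z⁻¹) ^ n)).sum := by
  refine newton_roots (Lp d χ) ?_ (ps χ) ?_ n hn1
  · rw [Lp_coeff h hd hn, cf_zero h]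
  · intro n
    simp_rw [Lp_coeff h hd hn]
    exact newton_cf h n

theorem all_eq (r : ℝ) (hr : 0 < r) (m : Multiset ℝ) (h : ∀ x ∈ m, 0 ≤ x ∧ x ≤ r)
    (hp : r ^ m.card ≤ m.prod) : ∀ x ∈ m, x = r := by
  have hle : ∀ m : Multiset ℝ, (∀ x ∈ m, 0 ≤ x ∧ x ≤ r) → 0 ≤ m.prod ∧ m.prod ≤ r ^ m.card := by
    intro m
    induction m using Multiset.induction_on with
    | empty => intro _; simp
    | cons a s ih =>
      intro h
      obtain ⟨h1, h2⟩ := ih (fun x hx => h x (Multiset.mem_cons_of_mem hx))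
      obtain ⟨h3, h4⟩ := h a (Multiset.mem_cons_self _ _)
      rw [Multiset.prod_cons, Multiset.card_cons, pow_succ']
      exact ⟨mul_nonneg h3 h1, mul_le_mul h4 h2 h1 hr.le⟩
  induction m using Multiset.induction_on with
  | empty => intro x hx; simp at hx
  | cons a s ih =>
    obtain ⟨h1, h2⟩ := hle s (fun x hx => h x (Multiset.mem_cons_of_mem hx))
    obtain ⟨h3, h4⟩ := h a (Multiset.mem_cons_self _ _)
    rw [Multiset.prod_cons, Multiset.card_cons, pow_succ'] at hp
    have hpos : 0 < r ^ s.card := by positivity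
    have h5 : a = r := by
      apply le_antisymm h4
      by_contra h6
      push Not at h6
      have h7 : a * s.prod ≤ a * r ^ s.card := mul_le_mul_of_nonneg_left h2 h3
      have h8 : a * r ^ s.card < r * r ^ s.card := mul_lt_mul_of_pos_right h6 hpos
      linarith
    have h6 : r ^ s.card ≤ s.prod := by
      rw [h5] at hp
      exact le_of_mul_le_mul_left hp hr
    intro x hx
    rcases Multiset.mem_cons.1 hx with rfl | hx
    · exact h5
    · exact ih (fun x hx => h x (Multiset.mem_cons_of_mem hx)) h6 x hx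

theorem prod_roots (a : ℂ[X]) (ha : a.coeff 0 = 1) :
    (a.roots.map (fun z => ‖z‖⁻¹)).prod = ‖a.leadingCoeff‖ := by
  have hs := (IsAlgClosed.splits a).eq_prod_roots
  have h1 := congrArg (eval 0) hs
  rw [← coeff_zero_eq_eval_zero, ha, eval_mul, eval_C, eval_multiset_prod, Multiset.map_map] at h1
  have h2 := congrArg norm h1
  rw [norm_one, norm_mul] at h2
  have h3 : ∀ s : Multiset ℂ, ‖(s.map (eval 0 ∘ fun r => X - C r)).prod‖ *
      (s.map (fun z => ‖z‖⁻¹)).prod = if ∀ z ∈ s, z ≠ 0 then 1 else 0 := by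
    classical
    intro s
    induction s using Multiset.induction_on with
    | empty => simp
    | cons w s ih =>
      rw [Multiset.map_cons, Multiset.prod_cons, Multiset.map_cons, Multiset.prod_cons, norm_mul]
      have e : eval 0 (X - C w) = -w := by simp
      have e2 : ‖(eval 0 ∘ fun r => X - C r) w‖ = ‖w‖ := by
        rw [Function.comp_apply, e, norm_neg]
      rw [e2]
      have e3 : ∀ x y : ℝ, ‖w‖ * x * (‖w‖⁻¹ * y) = ‖w‖ * ‖w‖⁻¹ * (x * y) := by
        intro x y; ring
      rw [e3, ih]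
      by_cases hw : w = 0
      · rw [hw, norm_zero, zero_mul, zero_mul, if_neg]
        intro hh
        exact hh 0 (Multiset.mem_cons_self _ _) rfl
      · rw [mul_inv_cancel₀ (norm_ne_zero_iff.2 hw), one_mul]
        congr 1
        rw [eq_iff_iff]
        constructor
        · intro hh z hz
          rcases Multiset.mem_cons.1 hz with rfl | hz
          · exact hw
          · exact hh z hz
        · intro hh z hz
          exact hh z (Multiset.mem_cons_of_mem hz)
  have h4 := h3 a.roots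
  rw [if_pos] at h4
  · calc (a.roots.map (fun z => ‖z‖⁻¹)).prod = 1 * (a.roots.map (fun z => ‖z‖⁻¹)).prod := (one_mul _).symm
      _ = ‖a.leadingCoeff‖ * (‖(a.roots.map (eval 0 ∘ fun r => X - C r)).prod‖ *
          (a.roots.map (fun z => ‖z‖⁻¹)).prod) := by
          nth_rewrite 1 [h2]
          ring
      _ = _ := by rw [h4, mul_one]
  · intro z hz
    rintro rfl
    have ha0' : a ≠ 0 := by
      rintro rfl
      simp at ha
    rw [mem_roots ha0', IsRoot.def, ← coeff_zero_eq_eval_zero, ha] at hz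
    exact one_ne_zero hz

end Pool.Agent.H23.PC
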